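import Mathlib

set_option autoImplicit false

namespace Pool.Agent.Work.MP_af796d_an

open MeasureTheory Set

/-- The real part of the disc algebra: real parts of the boundary values of the functions that are
holomorphic in the open unit disc and continuous on the closed unit disc. -/
def ReA : Set (Circle → ℝ) :=
  {u | ∃ f : ℂ → ℂ, DiffContOnCl ℂ f (Metric.ball 0 1) ∧ ∀ z : Circle, u z = (f z).re}

/-- `chordLog φ y t = log |φ(e^{it}) - φ(e^{iy})|`. -/
noncomputable def chordLog (φ : Circle → Circle) (y t : ℝ) : ℝ :=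
  Real.log ‖(φ (Circle.exp t) : ℂ) - (φ (Circle.exp y) : ℂ)‖

/-- The logarithmic potential `∫ log |e^{it} - e^{is}| dν(s)` at the point `e^{it}` of the measure
on the circle that is the image of `ν` under `s ↦ e^{is}`. -/
noncomputable def logPot (ν : Measure ℝ) (t : ℝ) : ℝ :=
  ∫ s, Real.log ‖(Circle.exp t : ℂ) - (Circle.exp s : ℂ)‖ ∂ν

/-- Uniformly in `y`, the function `t ↦ log |φ(e^{it}) - φ(e^{iy})|` is almost everywhere on
`[y, y + 2π]` a function of bounded variation plus the logarithmic potential of a finite signed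
measure `ν₁ - ν₂`. -/
def LogPotCond (φ : Circle → Circle) : Prop :=
  ∃ C : NNReal, ∀ y : ℝ, ∃ (α : ℝ → ℝ) (ν₁ ν₂ : Measure ℝ),
    eVariationOn α (Icc y (y + 2 * Real.pi)) ≤ C ∧ ν₁ univ ≤ C ∧ ν₂ univ ≤ C ∧
    ∀ᵐ t : ℝ, t ∈ Icc y (y + 2 * Real.pi) → chordLog φ y t = α t + logPot ν₁ t - logPot ν₂ t

/-- The total variation of `t ↦ log |φ(e^{it}) - φ(e^{iy})| - c log |e^{it} - e^{iy}|` over the two
arcs `2^{-k-1} ≤ |t - y| ≤ 2^{-k}`. -/
noncomputable def dyadicVar (φ : Circle → Circle) (y c : ℝ) (k : ℕ) : ENNReal :=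
  eVariationOn (fun t => chordLog φ y t - c * chordLog id y t)
      (Icc (y + 1 / 2 ^ (k + 1)) (y + 1 / 2 ^ k)) +
    eVariationOn (fun t => chordLog φ y t - c * chordLog id y t)
      (Icc (y - 1 / 2 ^ k) (y - 1 / 2 ^ (k + 1)))

end Pool.Agent.Work.MP_af796d_an
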