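import Pool.Agent.Work.MP_af796d_an.Defs

set_option autoImplicit false

namespace Pool.Agent.Work.MP_af796d_an

/-- `ω` is a modulus of continuity: on `[0, ∞)` it is nondecreasing and subadditive, vanishes at
`0` and tends to `0` at `0`. -/
structure IsModulus (ω : ℝ → ℝ) : Prop where
  zero : ω 0 = 0
  mono : MonotoneOn ω (Set.Ici 0)
  subadd : ∀ s t, 0 ≤ s → 0 ≤ t → ω (s + t) ≤ ω s + ω t
  tendsto : Filter.Tendsto ω (nhdsWithin 0 (Set.Ioi 0)) (nhds 0)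

/-- `ψ` has a differentiable lift `Ψ` whose derivative vanishes nowhere and has modulus of
continuity at most a multiple of `ω`. -/
def IsC1Mod (ω : ℝ → ℝ) (ψ : Circle → Circle) : Prop :=
  ∃ (Ψ Ψ' : ℝ → ℝ) (K : ℝ), (∀ t, ψ (Circle.exp t) = Circle.exp (Ψ t)) ∧
    (∀ t, HasDerivAt Ψ (Ψ' t) t) ∧ (∀ t, Ψ' t ≠ 0) ∧ ∀ s t, |Ψ' s - Ψ' t| ≤ K * ω |s - t|

end Pool.Agent.Work.MP_af796d_an
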