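import Pool.Agent.Work.MP_af796d_an.Pot
import Mathlib

-- merged part: Pool.Agent.Work.MP_af796d_an.Bound
section
set_option autoImplicit false

namespace Pool.Agent.Work.MP_af796d_an

open MeasureTheory Set Real Filter Topology Metric

/-- the closed unit disc. -/
abbrev DD : Set ℂ := closedBall (0 : ℂ) 1

open Classical in
/-- extension by zero. -/
noncomputable def xt (F : C(DD, ℂ)) : ℂ → ℂ := fun z => if h : z ∈ DD then F ⟨z, h⟩ else 0

lemma xt_of_mem (F : C(DD, ℂ)) {z : ℂ} (h : z ∈ DD) : xt F z = F ⟨z, h⟩ := by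
  simp only [xt, h, dif_pos]

lemma xt_add (F G : C(DD, ℂ)) : xt (F + G) = xt F + xt G := by
  ext z
  by_cases h : z ∈ DD
  · simp only [Pi.add_apply, xt_of_mem _ h, ContinuousMap.add_apply]
  · simp only [Pi.add_apply, xt, h, dif_neg, not_false_eq_true, add_zero]

lemma xt_smul (c : ℝ) (F : C(DD, ℂ)) : xt (c • F) = c • xt F := by
  ext z
  by_cases h : z ∈ DD
  · simp only [Pi.smul_apply, xt_of_mem _ h, ContinuousMap.smul_apply]
  · simp only [Pi.smul_apply, xt, h, dif_neg, not_false_eq_true, smul_zero]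

lemma continuousOn_xt (F : C(DD, ℂ)) : ContinuousOn (xt F) DD := by
  rw [continuousOn_iff_continuous_domRestrict]
  have : DD.domRestrict (xt F) = F := by
    ext z; exact xt_of_mem F z.2
  rw [this]; exact F.continuous

/-- the disc algebra as a real subspace. -/
noncomputable def AA : Submodule ℝ C(DD, ℂ) where
  carrier := {F | DifferentiableOn ℂ (xt F) (ball 0 1)}
  add_mem' := fun {F G} hF hG => by
    simp only [mem_ofPred_eq, xt_add] at hF hG ⊢; exact hF.add hG
  zero_mem' := by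
    have : xt 0 = 0 := by simpa using xt_smul 0 0
    simp only [mem_ofPred_eq, this]; exact differentiableOn_const 0
  smul_mem' := fun c F hF => by
    simp only [mem_ofPred_eq, xt_smul] at hF ⊢; exact hF.const_smul c

lemma diffContOnCl_xt {F : C(DD, ℂ)} (hF : F ∈ AA) : DiffContOnCl ℂ (xt F) (ball 0 1) :=
  ⟨hF, by rw [closure_ball _ one_ne_zero]; exact continuousOn_xt F⟩

lemma isClosed_AA : IsClosed (AA : Set C(DD, ℂ)) := by
  refine isClosed_of_closure_subset fun F hF => ?_
  obtain ⟨u, hu, hlim⟩ := mem_closure_iff_seq_limit.1 hF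
  have h1 : TendstoUniformlyOn (fun n => xt (u n)) (xt F) atTop (ball 0 1) := by
    rw [Metric.tendstoUniformlyOn_iff]
    intro ε hε
    filter_upwards [Metric.tendsto_nhds.1 hlim ε hε] with n hn z hz
    have hz' : z ∈ DD := ball_subset_closedBall hz
    rw [xt_of_mem _ hz', xt_of_mem _ hz', dist_comm]
    exact (ContinuousMap.dist_apply_le_dist _).trans_lt hn
  exact h1.tendstoLocallyUniformlyOn.differentiableOn (Eventually.of_forall hu) isOpen_ball

/-- restriction to the closed disc. -/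
noncomputable def rs {f : ℂ → ℂ} (hf : DiffContOnCl ℂ f (ball 0 1)) : C(DD, ℂ) :=
  ⟨DD.domRestrict f, by
    have := hf.continuousOn
    rw [closure_ball _ one_ne_zero] at this
    exact this.domRestrict⟩

lemma xt_rs {f : ℂ → ℂ} (hf : DiffContOnCl ℂ f (ball 0 1)) {z : ℂ} (hz : z ∈ DD) :
    xt (rs hf) z = f z := xt_of_mem _ hz

lemma rs_mem {f : ℂ → ℂ} (hf : DiffContOnCl ℂ f (ball 0 1)) : rs hf ∈ AA :=
  hf.differentiableOn.congr fun _ hz => xt_rs hf (ball_subset_closedBall hz)

lemma zero_mem_DD : (0 : ℂ) ∈ DD := by simp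

/-- the graph of the composition operator. -/
noncomputable def GG (Φ : ℝ → ℝ) : Submodule ℝ (C(DD, ℂ) × C(DD, ℂ)) where
  carrier := {p | p.1 ∈ AA ∧ p.2 ∈ AA ∧
    (∀ t, (p.2 ⟨ex (Φ t), ex_mem _⟩).re = (p.1 ⟨ex t, ex_mem _⟩).re) ∧
    (p.2 ⟨0, zero_mem_DD⟩).im = 0}
  add_mem' := fun {p q} hp hq => ⟨AA.add_mem hp.1 hq.1, AA.add_mem hp.2.1 hq.2.1,
    fun t => by simp [hp.2.2.1 t, hq.2.2.1 t], by simp [hp.2.2.2, hq.2.2.2]⟩
  zero_mem' := ⟨AA.zero_mem, AA.zero_mem, fun t => by simp, by simp⟩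
  smul_mem' := fun c p hp => ⟨AA.smul_mem c hp.1, AA.smul_mem c hp.2.1,
    fun t => by simp [hp.2.2.1 t], by simp [hp.2.2.2]⟩

lemma isClosed_GG (Φ : ℝ → ℝ) : IsClosed (GG Φ : Set (C(DD, ℂ) × C(DD, ℂ))) := by
  have e : (GG Φ : Set (C(DD, ℂ) × C(DD, ℂ))) = Prod.fst ⁻¹' (AA : Set C(DD, ℂ)) ∩
      (Prod.snd ⁻¹' (AA : Set C(DD, ℂ)) ∩
      ((⋂ t : ℝ, {p | (p.2 ⟨ex (Φ t), ex_mem _⟩).re = (p.1 ⟨ex t, ex_mem _⟩).re}) ∩
        {p | (p.2 ⟨0, zero_mem_DD⟩).im = 0})) := by
    ext p
    simp only [mem_inter_iff, mem_preimage, mem_iInter, mem_ofPred_eq]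
    rfl
  rw [e]
  refine (isClosed_AA.preimage continuous_fst).inter ((isClosed_AA.preimage continuous_snd).inter
    ((isClosed_iInter fun t => isClosed_eq ?_ ?_).inter (isClosed_eq ?_ continuous_const)))
  all_goals fun_prop

/-- the pairs of functions linked by the composition. -/
def Linked (Φ : ℝ → ℝ) (f g : ℂ → ℂ) : Prop :=
  DiffContOnCl ℂ f (ball 0 1) ∧ DiffContOnCl ℂ g (ball 0 1) ∧
    (∀ t, (g (ex (Φ t))).re = (f (ex t)).re) ∧ (g 0).im = 0

lemma PresL.exists_linked {Φ : ℝ → ℝ} (h : PresL Φ) {f : ℂ → ℂ}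
    (hf : DiffContOnCl ℂ f (ball 0 1)) : ∃ g, Linked Φ f g := by
  obtain ⟨F, hF, hF'⟩ := h f hf
  exact ⟨fun z => F z - ((F 0).im : ℂ) * Complex.I, hf, hF.sub_const _, fun t => by simp [hF' t],
    by simp⟩

lemma continuousOn_of_diffContOnCl {g : ℂ → ℂ} (hg : DiffContOnCl ℂ g (ball 0 1)) :
    ContinuousOn g (closedBall 0 1) := by
  have := hg.continuousOn
  rwa [closure_ball _ one_ne_zero] at this

theorem PresL.bound {Φ : ℝ → ℝ} (hΦ : Good Φ) (h : PresL Φ) :
    ∃ M, 0 ≤ M ∧ ∀ f g, Linked Φ f g → ∀ c, (∀ z : ℂ, ‖z‖ ≤ 1 → ‖f z‖ ≤ c) →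
      ∀ y, |(g (ex (Φ y))).im| ≤ M * c := by
  have : CompleteSpace AA := isClosed_AA.completeSpace_coe
  have : CompleteSpace (GG Φ) := (isClosed_GG Φ).completeSpace_coe
  let P : GG Φ →L[ℝ] AA :=
    ((ContinuousLinearMap.fst ℝ _ _).comp (GG Φ).subtypeL).codRestrict AA fun p => p.2.1
  have hsurj : Function.Surjective P := by
    intro F
    obtain ⟨g, hf, hg, h1, h2⟩ := h.exists_linked (diffContOnCl_xt F.2)
    refine ⟨⟨(F.1, rs hg), F.2, rs_mem hg, fun t => ?_, h2⟩, rfl⟩
    have := h1 t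
    rw [xt_of_mem _ (ex_mem t)] at this
    exact this
  obtain ⟨M, hM, hM'⟩ := P.exists_preimage_norm_le hsurj
  refine ⟨M, hM.le, fun f g ⟨hf, hg, h1, h2⟩ c hc y => ?_⟩
  have hc0 : 0 ≤ c := (norm_nonneg _).trans (hc 0 (by simp))
  obtain ⟨⟨⟨F, G⟩, hF, hG, h3, h4⟩, hp, hn⟩ := hM' ⟨rs hf, rs_mem hf⟩
  have hFe : F = rs hf := congrArg Subtype.val hp
  have hn1 : ‖G‖ ≤ M * c := by
    have a : ‖G‖ ≤ ‖(F, G)‖ := norm_snd_le (F, G)
    have b : ‖rs hf‖ ≤ c := (ContinuousMap.norm_le _ hc0).2 fun z => hc z (mem_closedBall_zero_iff.1 z.2)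
    have c' : ‖(F, G)‖ ≤ M * ‖rs hf‖ := hn
    exact a.trans (c'.trans (mul_le_mul_of_nonneg_left b hM.le))
  have hG' := diffContOnCl_xt hG
  have hu := im_unique (F := g) (g := xt G) (R := fun z => (g z).re) hg.differentiableOn
    (Complex.continuous_re.comp_continuousOn (continuousOn_of_diffContOnCl hg)) (fun _ _ => rfl)
    hG' (fun z hz => by
      obtain ⟨t, rfl⟩ := hΦ.exists_ex hz
      rw [h1, xt_of_mem _ (ex_mem _), h3 t, hFe]; rfl)
  have hE : EqOn (fun z => (g z).im) (fun z => (xt G z).im) (ball 0 1) := by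
    intro z hz
    have := hu z hz
    rw [h2, xt_of_mem _ zero_mem_DD, h4] at this
    simpa using this
  have := hE.of_subset_closure
    (Complex.continuous_im.comp_continuousOn (continuousOn_of_diffContOnCl hg))
    (Complex.continuous_im.comp_continuousOn (continuousOn_of_diffContOnCl hG'))
    ball_subset_closedBall (by rw [closure_ball _ one_ne_zero]) (ex_mem (Φ y))
  simp only at this
  rw [this, xt_of_mem _ (ex_mem _)]
  exact (Complex.abs_im_le_norm _).trans ((G.norm_coe_le_norm _).trans hn1)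

end Pool.Agent.Work.MP_af796d_an
end

-- merged part: Pool.Agent.Work.MP_af796d_an.Riesz
section
set_option autoImplicit false

namespace Pool.Agent.Work.MP_af796d_an

open MeasureTheory Set Filter Topology
open scoped CompactlySupported

variable {X : Type*} [TopologicalSpace X] [CompactSpace X]

lemma pos_rep [T2Space X] [MeasurableSpace X] [BorelSpace X] (g : C(X, ℝ) →ₗ[ℝ] ℝ)
    (hpos : ∀ f, 0 ≤ f → 0 ≤ g f) :
    ∃ μ : Measure X, IsFiniteMeasure μ ∧ ∀ f : C(X, ℝ), ∫ x, f x ∂μ = g f := by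
  let Λ : C_c(X, ℝ) →ₚ[ℝ] ℝ :=
    { toFun := fun f => g f.toContinuousMap
      map_add' := fun f f' => by rw [← map_add]; rfl
      map_smul' := fun c f => by rw [RingHom.id_apply, ← map_smul]; rfl
      monotone' := fun f f' h => by
        have := hpos (f'.toContinuousMap - f.toContinuousMap) (fun x => by
          have := h x
          simpa using this)
        rw [map_sub] at this
        simp only; linarith }
  refine ⟨RealRMK.rieszMeasure Λ, inferInstance, fun f => ?_⟩
  exact RealRMK.integral_rieszMeasure Λ ⟨f, HasCompactSupport.of_compactSpace _⟩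

/-- norm of the positive part. -/
noncomputable def pn (f : C(X, ℝ)) : ℝ := ‖f ⊔ 0‖

lemma pn_nonneg (f : C(X, ℝ)) : 0 ≤ pn f := norm_nonneg _

lemma le_pn (f : C(X, ℝ)) (x : X) : f x ≤ pn f := by
  have := (f ⊔ 0).norm_coe_le_norm x
  have h : (f ⊔ 0) x = max (f x) 0 := rfl
  rw [h, Real.norm_eq_abs] at this
  exact (le_max_left _ _).trans ((le_abs_self _).trans this)

lemma pn_le {f : C(X, ℝ)} {c : ℝ} (hc : 0 ≤ c) (h : ∀ x, f x ≤ c) : pn f ≤ c := by
  refine (ContinuousMap.norm_le _ hc).2 fun x => ?_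
  have e : (f ⊔ 0) x = max (f x) 0 := rfl
  rw [e, Real.norm_eq_abs, abs_of_nonneg (le_max_right _ _)]
  exact max_le (h x) hc

lemma pn_add (f g : C(X, ℝ)) : pn (f + g) ≤ pn f + pn g :=
  pn_le (add_nonneg (pn_nonneg f) (pn_nonneg g)) fun x => add_le_add (le_pn f x) (le_pn g x)

lemma pn_smul_le {c : ℝ} (hc : 0 ≤ c) (f : C(X, ℝ)) : pn (c • f) ≤ c * pn f :=
  pn_le (mul_nonneg hc (pn_nonneg f)) fun x => mul_le_mul_of_nonneg_left (le_pn f x) hc

lemma pn_smul {c : ℝ} (hc : 0 < c) (f : C(X, ℝ)) : pn (c • f) = c * pn f := by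
  refine le_antisymm (pn_smul_le hc.le f) ?_
  have := pn_smul_le (inv_pos.2 hc).le (c • f)
  rw [smul_smul, inv_mul_cancel₀ hc.ne', one_smul] at this
  calc c * pn f ≤ c * (c⁻¹ * pn (c • f)) := by gcongr
    _ = _ := by field_simp

lemma pn_zero : pn (0 : C(X, ℝ)) = 0 := le_antisymm (pn_le le_rfl fun _ => le_rfl) (pn_nonneg _)

theorem riesz4 [T2Space X] [MeasurableSpace X] [BorelSpace X] {V : Type*} [AddCommGroup V]
    [Module ℝ V] (R I : V →ₗ[ℝ] C(X, ℝ)) (Λ : V →ₗ[ℝ] ℝ) {M : ℝ} (hM : 0 ≤ M)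
    (h : ∀ v c, 0 ≤ c → (∀ x, |R v x| ≤ c) → (∀ x, |I v x| ≤ c) → |Λ v| ≤ M * c) :
    ∃ μ₁ μ₂ ν₁ ν₂ : Measure X, IsFiniteMeasure μ₁ ∧ IsFiniteMeasure μ₂ ∧ IsFiniteMeasure ν₁ ∧
      IsFiniteMeasure ν₂ ∧ μ₁.real univ ≤ M ∧ μ₂.real univ ≤ M ∧ ν₁.real univ ≤ M ∧
      ν₂.real univ ≤ M ∧ ∀ v, Λ v = ∫ x, R v x ∂μ₁ - ∫ x, R v x ∂μ₂ + ∫ x, I v x ∂ν₁
        - ∫ x, I v x ∂ν₂ := by
  let J : V →ₗ[ℝ] (Fin 4 → C(X, ℝ)) := LinearMap.pi ![R, -R, I, -I]
  let N : (Fin 4 → C(X, ℝ)) → ℝ := fun f => M * ∑ j, pn (f j)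
  have hN : ∀ v, |Λ v| ≤ N (J v) := by
    intro v
    have e : ∑ j, pn (J v j) = pn (R v) + pn (-R v) + pn (I v) + pn (-I v) := by
      simp [Fin.sum_univ_four, J]
    have p1 := pn_nonneg (R v)
    have p2 := pn_nonneg (-R v)
    have p3 := pn_nonneg (I v)
    have p4 := pn_nonneg (-I v)
    refine h v _ (by rw [e]; positivity) (fun x => ?_) (fun x => ?_) <;> rw [e, abs_le]
    · have a := le_pn (R v) x
      have b : -R v x ≤ pn (-R v) := le_pn (-R v) x
      constructor <;> linarith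
    · have a := le_pn (I v) x
      have b : -I v x ≤ pn (-I v) := le_pn (-I v) x
      constructor <;> linarith
  obtain ⟨s, hs⟩ := J.rangeRestrict.exists_rightInverse_of_surjective J.range_rangeRestrict
  have hs' : ∀ x : LinearMap.range J, J (s x) = x := fun x =>
    congrArg Subtype.val (LinearMap.congr_fun hs x)
  have hΛ : ∀ v, Λ (s (J.rangeRestrict v)) = Λ v := by
    intro v
    have h1 := hN (s (J.rangeRestrict v) - v)
    rw [map_sub J, hs'] at h1
    simp only [LinearMap.rangeRestrict, LinearMap.codRestrict_apply, sub_self, N, Pi.zero_apply,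
      pn_zero, Finset.sum_const_zero, mul_zero, abs_nonpos_iff, map_sub] at h1
    exact sub_eq_zero.1 h1
  obtain ⟨g, hg1, hg2⟩ := exists_extension_of_le_sublinear
    (⟨LinearMap.range J, Λ.comp s⟩ : (Fin 4 → C(X, ℝ)) →ₗ.[ℝ] ℝ) N
    (fun c hc f => by
      simp only [N, Pi.smul_apply, pn_smul hc, ← Finset.mul_sum]; ring)
    (fun f f' => by
      simp only [N, Pi.add_apply, ← mul_add, ← Finset.sum_add_distrib]
      exact mul_le_mul_of_nonneg_left (Finset.sum_le_sum fun j _ => pn_add _ _) hM)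
    (fun x => by
      have := hN (s x)
      rw [hs'] at this
      exact (le_abs_self _).trans this)
  have hNs : ∀ (j : Fin 4) (f : C(X, ℝ)), N (Pi.single j f) = M * pn f := by
    intro j f
    simp only [N]
    congr 1
    rw [Finset.sum_eq_single j]
    · simp
    · intro i _ hi; simp [Pi.single_eq_of_ne hi, pn_zero]
    · simp
  have hrep : ∀ j : Fin 4, ∃ μ : Measure X, IsFiniteMeasure μ ∧ μ.real univ ≤ M ∧
      ∀ f : C(X, ℝ), ∫ x, f x ∂μ = g (Pi.single j f) := by
    intro j
    obtain ⟨μ, hμ, hμ'⟩ := pos_rep (g.comp (LinearMap.single ℝ (fun _ => C(X, ℝ)) j)) (by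
      intro f hf
      have := hg2 (Pi.single j (-f))
      rw [hNs, le_antisymm (pn_le le_rfl fun x => by simpa using hf x) (pn_nonneg (-f)),
        Pi.single_neg, map_neg] at this
      simpa using this)
    refine ⟨μ, hμ, ?_, hμ'⟩
    have h1 := hμ' 1
    have h2 := hg2 (Pi.single j 1)
    rw [hNs] at h2
    have h3 : pn (1 : C(X, ℝ)) ≤ 1 := pn_le zero_le_one fun _ => le_rfl
    simp only [ContinuousMap.one_apply, integral_const, smul_eq_mul, mul_one, LinearMap.comp_apply,
      LinearMap.coe_single] at h1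
    rw [h1]; nlinarith
  choose μ hμ1 hμ2 hμ3 using hrep
  refine ⟨μ 0, μ 1, μ 2, μ 3, hμ1 0, hμ1 1, hμ1 2, hμ1 3, hμ2 0, hμ2 1, hμ2 2, hμ2 3, fun v => ?_⟩
  have e1 := hg1 (J.rangeRestrict v)
  have e2 : g (J v) = Λ v := by rw [← hΛ v]; exact e1
  have e3 : J v = Pi.single 0 (R v) - Pi.single 1 (R v) + Pi.single 2 (I v) - Pi.single 3 (I v) := by
    ext j : 1
    fin_cases j <;> simp [J]
  rw [hμ3, hμ3, hμ3, hμ3, ← e2, e3]
  simp only [map_sub, map_add]

end Pool.Agent.Work.MP_af796d_an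
end

-- merged part: Pool.Agent.Work.MP_af796d_an.Nec0
section
set_option autoImplicit false

namespace Pool.Agent.Work.MP_af796d_an

open MeasureTheory Set Real Filter Topology Metric

lemma integral_indicator_mul {H : ℝ → ℝ} {a b : ℝ} (hab : a ≤ b) {T : Set ℝ}
    (hT : MeasurableSet T) (hs : T ⊆ Ioc a b) :
    ∫ t in a..b, H t * T.indicator (fun _ => (1 : ℝ)) t = ∫ t in T, H t := by
  have e : (fun t => H t * T.indicator (fun _ => (1 : ℝ)) t) = T.indicator H := by
    ext t; by_cases h : t ∈ T <;> simp [h]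
  rw [e, intervalIntegral.integral_of_le hab, setIntegral_indicator hT, inter_eq_right.2 hs]

lemma intervalIntegrable_indicator_mul {H : ℝ → ℝ} (a b : ℝ) {T : Set ℝ}
    (hT : MeasurableSet T) (hi : IntegrableOn H T) :
    IntervalIntegrable (fun t => H t * T.indicator (fun _ => (1 : ℝ)) t) volume a b := by
  have e : (fun t => H t * T.indicator (fun _ => (1 : ℝ)) t) = T.indicator H := by
    ext t; by_cases h : t ∈ T <;> simp [h]
  rw [e]
  exact ((integrable_indicator_iff hT).2 hi).intervalIntegrable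

lemma ae_const {H : ℝ → ℝ} {a b : ℝ} (hab : a + 3 ≤ b)
    (hint : ∀ r > 0, IntegrableOn H (Icc (a + r) (b - r)))
    (h : ∀ w : ℝ → ℝ, Measurable w → (∃ B, ∀ t, |w t| ≤ B) →
      IntervalIntegrable (fun t => H t * w t) volume a b → ∫ t in a..b, w t = 0 →
      ∫ t in a..b, H t * w t = 0) :
    ∃ κ, ∀ᵐ t : ℝ, t ∈ Icc a b → H t = κ := by
  have hle : a ≤ b := by linarith
  set κ : ℝ := ∫ t in Icc (a + 1) (a + 2), H t with hκ
  have hT0 : IntegrableOn H (Icc (a + 1) (a + 2)) :=
    (hint 1 one_pos).mono_set (Icc_subset_Icc le_rfl (by linarith))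
  have hs0 : Icc (a + 1) (a + 2) ⊆ Ioc a b := fun t ht => ⟨by linarith [ht.1], by linarith [ht.2]⟩
  have key : ∀ r > 0, ∀ᵐ t : ℝ, t ∈ Icc (a + r) (b - r) → H t = κ := by
    intro r hr
    have hi : Integrable (fun t => H t - κ) (volume.restrict (Icc (a + r) (b - r))) :=
      (hint r hr).sub (integrable_const _)
    have := hi.ae_eq_zero_of_forall_setIntegral_eq_zero fun S hS _ => by
      rw [Measure.restrict_restrict hS]
      set T := S ∩ Icc (a + r) (b - r) with hTdef
      have hT : MeasurableSet T := hS.inter measurableSet_Icc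
      have hs : T ⊆ Ioc a b := fun t ht => ⟨by linarith [ht.2.1], by linarith [ht.2.2]⟩
      have hTi : IntegrableOn H T := (hint r hr).mono_set inter_subset_right
      have hTf : volume T ≠ ⊤ := ((measure_mono hs).trans_lt measure_Ioc_lt_top).ne
      set m : ℝ := volume.real T with hm
      have h1 := h (fun t => T.indicator (fun _ => (1 : ℝ)) t
          - m * (Icc (a + 1) (a + 2)).indicator (fun _ => (1 : ℝ)) t)
        ((measurable_const.indicator hT).sub
          (measurable_const.mul (measurable_const.indicator measurableSet_Icc)))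
        ⟨1 + |m|, fun t => by
          refine (abs_sub _ _).trans (add_le_add ?_ ?_)
          · by_cases h : t ∈ T <;> simp [h]
          · rw [abs_mul]
            refine mul_le_of_le_one_right (abs_nonneg _) ?_
            by_cases h : t ∈ Icc (a + 1) (a + 2) <;> simp [h]⟩
        (by
          have := (intervalIntegrable_indicator_mul a b hT hTi).sub
            ((intervalIntegrable_indicator_mul a b measurableSet_Icc hT0).const_mul m)
          refine this.congr fun t _ => ?_
          ring)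
        (by
          have i1 := intervalIntegrable_indicator_mul (H := fun _ => (1 : ℝ)) a b hT
            (integrableOn_const hTf)
          have i2 := intervalIntegrable_indicator_mul (H := fun _ => (1 : ℝ)) a b
            (measurableSet_Icc (a := a + 1) (b := a + 2)) (integrableOn_const measure_Icc_lt_top.ne)
          have e1 := integral_indicator_mul (H := fun _ => (1 : ℝ)) hle hT hs
          have e2 := integral_indicator_mul (H := fun _ => (1 : ℝ)) hle measurableSet_Icc hs0
          simp only [one_mul] at i1 i2 e1 e2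
          rw [intervalIntegral.integral_sub i1 (i2.const_mul m),
            intervalIntegral.integral_const_mul, e1, e2]
          simp [hm]
          norm_num)
      have e : ∀ t, H t * (T.indicator (fun _ => (1 : ℝ)) t
          - m * (Icc (a + 1) (a + 2)).indicator (fun _ => (1 : ℝ)) t)
          = H t * T.indicator (fun _ => (1 : ℝ)) t
            - m * (H t * (Icc (a + 1) (a + 2)).indicator (fun _ => (1 : ℝ)) t) := fun t => by ring
      simp only [e] at h1
      rw [intervalIntegral.integral_sub (intervalIntegrable_indicator_mul a b hT hTi)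
          ((intervalIntegrable_indicator_mul a b measurableSet_Icc hT0).const_mul m),
        intervalIntegral.integral_const_mul, integral_indicator_mul hle hT hs,
        integral_indicator_mul hle measurableSet_Icc hs0] at h1
      rw [integral_sub hTi (integrableOn_const hTf), setIntegral_const, smul_eq_mul]
      exact h1
    filter_upwards [(ae_restrict_iff' measurableSet_Icc).1 this] with t ht hm
    have := ht hm
    simp only [Pi.zero_apply] at this
    linarith
  refine ⟨κ, ?_⟩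
  have hna : ∀ᵐ t : ℝ, t ≠ a := by simp [ae_iff, measure_singleton]
  have hnb : ∀ᵐ t : ℝ, t ≠ b := by simp [ae_iff, measure_singleton]
  filter_upwards [ae_all_iff.2 fun n : ℕ => key (1 / ((n : ℝ) + 1)) (by positivity), hna, hnb]
    with t ht h1 h2 hm
  have h3 : 0 < min (t - a) (b - t) :=
    lt_min (sub_pos.2 (lt_of_le_of_ne hm.1 h1.symm)) (sub_pos.2 (lt_of_le_of_ne hm.2 h2))
  obtain ⟨n, hn⟩ := exists_nat_one_div_lt h3
  exact ht n ⟨by linarith [min_le_left (t - a) (b - t)], by linarith [min_le_right (t - a) (b - t)]⟩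

/-- tail function of a measure on an interval. -/
noncomputable def tail {a b : ℝ} (μ : Measure (Icc a b)) (t : ℝ) : ℝ :=
  μ.real {x | t ≤ (x : ℝ)}

lemma tail_antitone {a b : ℝ} (μ : Measure (Icc a b)) [IsFiniteMeasure μ] : Antitone (tail μ) :=
  fun _ _ h => measureReal_mono (fun _ hx => h.trans hx)

lemma tail_nonneg {a b : ℝ} (μ : Measure (Icc a b)) (t : ℝ) : 0 ≤ tail μ t := measureReal_nonneg

lemma tail_le {a b : ℝ} (μ : Measure (Icc a b)) [IsFiniteMeasure μ] (t : ℝ) :
    tail μ t ≤ μ.real univ := measureReal_mono (subset_univ _)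

lemma integral_primitive {a b : ℝ} (hab : a ≤ b) (μ : Measure (Icc a b)) [IsFiniteMeasure μ]
    {w : ℝ → ℝ} {B : ℝ} (hw : Measurable w) (hB : ∀ t, |w t| ≤ B) :
    ∫ x, (∫ t in a..(x : ℝ), w t) ∂μ = ∫ t in a..b, tail μ t * w t := by
  have hm : MeasurableSet {p : Icc a b × ℝ | p.2 ≤ (p.1 : ℝ)} :=
    measurableSet_le measurable_snd (measurable_subtype_coe.comp measurable_fst)
  have hi : Integrable (Function.uncurry fun (x : Icc a b) (t : ℝ) =>
      w t * (Iic (x : ℝ)).indicator (fun _ => (1 : ℝ)) t) (μ.prod (volume.restrict (Ioc a b))) := by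
    refine Integrable.mono' (integrable_const B) ?_ (Eventually.of_forall fun p => ?_)
    · refine Measurable.aestronglyMeasurable ?_
      exact (hw.comp measurable_snd).mul (measurable_const.indicator hm)
    · simp only [Function.uncurry, Real.norm_eq_abs, abs_mul]
      refine le_trans (mul_le_of_le_one_right (abs_nonneg _) ?_) (hB _)
      by_cases h : p.2 ∈ Iic (p.1 : ℝ) <;> simp [h]
  have := integral_integral_swap hi
  rw [intervalIntegral.integral_of_le hab]
  calc ∫ x, (∫ t in a..(x : ℝ), w t) ∂μ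
      = ∫ x, (∫ t in Ioc a b, w t * (Iic (x : ℝ)).indicator (fun _ => (1 : ℝ)) t) ∂μ := by
        congr 1; ext x
        have e : (fun t => w t * (Iic (x : ℝ)).indicator (fun _ => (1 : ℝ)) t)
            = (Iic (x : ℝ)).indicator w := by
          ext t; by_cases h : t ∈ Iic (x : ℝ) <;> simp [h]
        rw [e, setIntegral_indicator measurableSet_Iic, intervalIntegral.integral_of_le x.2.1,
          Ioc_inter_Iic, min_eq_right x.2.2]
    _ = _ := by
        rw [this]; congr 1; ext t
        rw [integral_const_mul, mul_comm]; congr 1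
        have hm' : MeasurableSet {x : Icc a b | t ≤ (x : ℝ)} :=
          measurableSet_le measurable_const measurable_subtype_coe
        rw [tail, ← integral_indicator_one hm']
        rfl

/-- linked pairs as a vector space. -/
def VV (Φ : ℝ → ℝ) : Submodule ℝ ((ℂ → ℂ) × (ℂ → ℂ)) where
  carrier := {p | Linked Φ p.1 p.2}
  add_mem' := fun {p q} hp hq => ⟨hp.1.add hq.1, hp.2.1.add hq.2.1,
    fun t => by simp [hp.2.2.1 t, hq.2.2.1 t], by simp [hp.2.2.2, hq.2.2.2]⟩
  zero_mem' := ⟨diffContOnCl_const, diffContOnCl_const, fun t => by simp, by simp⟩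
  smul_mem' := fun c p hp => ⟨hp.1.const_smul c, hp.2.1.const_smul c,
    fun t => by simp [hp.2.2.1 t], by simp [hp.2.2.2]⟩

lemma continuous_comp_ex {f : ℂ → ℂ} (hf : DiffContOnCl ℂ f (ball 0 1)) :
    Continuous fun t => f (ex t) :=
  (continuousOn_of_diffContOnCl hf).comp_continuous continuous_ex ex_mem

lemma Linked.im_eq {Φ w : ℝ → ℝ} {B y : ℝ} {g : ℂ → ℂ} (hΦ : Good Φ) (hw : Measurable w)
    (hB : ∀ t, |w t| ≤ B) (h0 : ∫ t in y..(y + 2 * π), w t = 0)
    (hi : IntervalIntegrable (fun t => lg (Φ t - Φ y) * w t) volume y (y + 2 * π))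
    (hg : Linked Φ (FF id w y) g) :
    (g (ex (Φ y))).im = (1 / π) * ∫ t in y..(y + 2 * π), lg (Φ t - Φ y) * w t := by
  have hu := im_unique (differentiableOn_FF (a := y) hΦ hw hB) (continuousOn_RR hΦ hw hB)
    (fun z _ => (FF_re _ _ _ _).symm) hg.2.1 (fun z hz => by
      obtain ⟨t, rfl⟩ := hΦ.exists_ex hz
      obtain ⟨n, hn1, hn2⟩ := exists_window y t
      have e1 := RR_boundary hΦ hw hB h0 hn1 hn2.le
      have e2 := RR_boundary good_id hw hB h0 hn1 hn2.le
      have e3 := hg.2.2.1 (t + n * (2 * π))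
      rw [hΦ.per_int, ex_periodic.int_mul n] at e1 e3
      rw [e1, e3, FF_re, ← e2]; rfl)
  have hlim := tendsto_JJ_radial hΦ hw hB y hi
  rw [JJ_boundary] at hlim
  have hmem : ∀ r ∈ Ico (0 : ℝ) 1, (r : ℂ) * ex (Φ y) ∈ ball (0 : ℂ) 1 := by
    intro r hr
    simp only [mem_ball, dist_zero_right, norm_mul, norm_ex, mul_one, Complex.norm_real,
      Real.norm_eq_abs, abs_of_nonneg hr.1]
    exact hr.2
  have hlim2 : Tendsto (fun r : ℝ => (g (r * ex (Φ y))).im) (𝓝[Ico 0 1] 1)
      (𝓝 (g (ex (Φ y))).im) := by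
    refine (Complex.continuous_im.tendsto _).comp ?_
    have h1 := continuousOn_of_diffContOnCl hg.2.1 _ (ex_mem (Φ y))
    refine h1.tendsto.comp (tendsto_nhdsWithin_iff.2 ⟨?_, ?_⟩)
    · have : Continuous fun r : ℝ => (r : ℂ) * ex (Φ y) := by fun_prop
      have h2 := this.tendsto 1
      simp only [Complex.ofReal_one, one_mul] at h2
      exact h2.mono_left nhdsWithin_le_nhds
    · filter_upwards [self_mem_nhdsWithin] with r hr using ball_subset_closedBall (hmem r hr)
  have : (𝓝[Ico (0 : ℝ) 1] 1).NeBot := by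
    rw [← mem_closure_iff_nhdsWithin_neBot, closure_Ico zero_ne_one]; simp
  refine tendsto_nhds_unique hlim2 (hlim.congr' ?_)
  filter_upwards [self_mem_nhdsWithin] with r hr
  have := hu _ (hmem r hr)
  rw [FF_im, FF_im, JJ_zero, hg.2.2.2] at this
  linarith

theorem EL_of_presL {Φ : ℝ → ℝ} (hΦ : Good Φ) (h : PresL Φ) : EL Φ := by
  obtain ⟨M, hM0, hM⟩ := h.bound hΦ
  have h3 := pi_gt_three
  refine ⟨2 * π * (2 * M), fun y => ?_⟩
  have hle : y ≤ y + 2 * π := by linarith
  let R : VV Φ →ₗ[ℝ] C(Icc y (y + 2 * π), ℝ) :=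
    { toFun := fun p => ⟨fun x => (p.1.1 (ex x)).re, Complex.continuous_re.comp
        ((continuous_comp_ex p.2.1).comp continuous_subtype_val)⟩
      map_add' := fun p q => by ext x; simp
      map_smul' := fun c p => by ext x; simp }
  let I : VV Φ →ₗ[ℝ] C(Icc y (y + 2 * π), ℝ) :=
    { toFun := fun p => ⟨fun x => (p.1.1 (ex x)).im, Complex.continuous_im.comp
        ((continuous_comp_ex p.2.1).comp continuous_subtype_val)⟩
      map_add' := fun p q => by ext x; simp
      map_smul' := fun c p => by ext x; simp }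
  let Λ : VV Φ →ₗ[ℝ] ℝ :=
    { toFun := fun p => (p.1.2 (ex (Φ y))).im
      map_add' := fun p q => by simp
      map_smul' := fun c p => by simp }
  obtain ⟨μ₁, μ₂, ν₁, ν₂, f1, f2, f3, f4, m1, m2, m3, m4, hrep⟩ :=
    riesz4 R I Λ (M := 2 * M) (by positivity) (fun p c hc hR hI => by
      have := hM p.1.1 p.1.2 p.2 (2 * c) (fun z hz => norm_le_of_sphere p.2.1 (fun z hz => by
        obtain ⟨t, rfl⟩ := exists_ex_of_norm hz
        obtain ⟨n, hn1, hn2⟩ := exists_window y t
        have a : |(p.1.1 (ex (t + n * (2 * π)))).re| ≤ c := hR ⟨_, hn1, hn2.le⟩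
        have b : |(p.1.1 (ex (t + n * (2 * π)))).im| ≤ c := hI ⟨_, hn1, hn2.le⟩
        rw [ex_periodic.int_mul n] at a b
        have := Complex.norm_le_abs_re_add_abs_im (p.1.1 (ex t))
        linarith) hz) y
      calc |Λ p| ≤ M * (2 * c) := this
        _ = _ := by ring)
  have hmass : ∀ ν : Measure (Icc y (y + 2 * π)), (ν.map Subtype.val).real univ = ν.real univ := by
    intro ν
    simp only [Measure.real, Measure.map_apply measurable_subtype_coe MeasurableSet.univ,
      preimage_univ]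
  set K : ℝ → ℝ := fun t => π * tail μ₁ t - π * tail μ₂ t + logPot (ν₁.map Subtype.val) t
    - logPot (ν₂.map Subtype.val) t with hK
  have ht1 : ∀ p q, IntervalIntegrable (tail μ₁) volume p q := fun p q =>
    (tail_antitone μ₁).intervalIntegrable
  have ht2 : ∀ p q, IntervalIntegrable (tail μ₂) volume p q := fun p q =>
    (tail_antitone μ₂).intervalIntegrable
  have hKi : ∀ p q, IntervalIntegrable K volume p q := fun p q =>
    ((((ht1 p q).const_mul π).sub ((ht2 p q).const_mul π)).add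
      (intervalIntegrable_logPot _ p q)).sub (intervalIntegrable_logPot _ p q)
  have hmul : ∀ {g w : ℝ → ℝ} {B : ℝ}, Measurable w → (∀ t, |w t| ≤ B) →
      IntervalIntegrable g volume y (y + 2 * π) →
      IntervalIntegrable (fun t => g t * w t) volume y (y + 2 * π) := by
    intro g w B hw hB hg
    refine IntervalIntegrable.mono_fun' (g := fun t => |g t| * B) (hg.abs.mul_const B)
      (hg.def'.aestronglyMeasurable.mul hw.aestronglyMeasurable) ?_
    filter_upwards with t
    rw [Real.norm_eq_abs, abs_mul]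
    exact mul_le_mul_of_nonneg_left (hB t) (abs_nonneg _)
  obtain ⟨κ, hκ⟩ := ae_const (H := fun t => lg (Φ t - Φ y) - K t) (a := y) (b := y + 2 * π)
    (by linarith) (fun r hr => by
      obtain ⟨A, hA⟩ := hΦ.abs_lg_le hr
      refine Integrable.sub ?_ ?_
      · refine Integrable.mono' (integrable_const A)
          (Measurable.aestronglyMeasurable (by have := hΦ.cont; fun_prop)) ?_
        exact (ae_restrict_iff' measurableSet_Icc).2
          (Eventually.of_forall fun t ht => hA y t ht.1 ht.2)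
      · have := (intervalIntegrable_iff_integrableOn_Icc_of_le hle).1 (hKi _ _)
        exact this.mono_set (Icc_subset_Icc (by linarith) (by linarith)))
    (fun w hw ⟨B, hB⟩ hi h0 => by
      have hi' : IntervalIntegrable (fun t => lg (Φ t - Φ y) * w t) volume y (y + 2 * π) := by
        refine (hi.add (hmul hw hB (hKi _ _))).congr fun t _ => ?_
        ring
      have hf := diffContOnCl_FF (a := y) good_id UI_id hw hB
      obtain ⟨g, hg⟩ := h.exists_linked hf
      have e0 := hrep ⟨(FF id w y, g), hg⟩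
      have e1 : Λ ⟨(FF id w y, g), hg⟩
          = (1 / π) * ∫ t in y..(y + 2 * π), lg (Φ t - Φ y) * w t := hg.im_eq hΦ hw hB h0 hi'
      have e2 : ∀ (μ : Measure (Icc y (y + 2 * π))) [IsFiniteMeasure μ],
          ∫ x, R ⟨(FF id w y, g), hg⟩ x ∂μ = ∫ t in y..(y + 2 * π), tail μ t * w t := by
        intro μ _
        rw [← integral_primitive hle μ hw hB]
        congr 1; ext x
        exact (FF_re _ _ _ _).trans (RR_boundary good_id hw hB h0 x.2.1 x.2.2)
      have e3 : ∀ (ν : Measure (Icc y (y + 2 * π))) [IsFiniteMeasure ν],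
          ∫ x, I ⟨(FF id w y, g), hg⟩ x ∂ν
            = (1 / π) * ∫ t in y..(y + 2 * π), logPot (ν.map Subtype.val) t * w t := by
        intro ν _
        have hc : Continuous fun s => JJ id w y (ex s) :=
          (continuousOn_JJ good_id UI_id hw hB).comp_continuous continuous_ex ex_mem
        rw [integral_logPot_mul _ hw hB, integral_map measurable_subtype_coe.aemeasurable
          hc.aestronglyMeasurable, ← mul_assoc, one_div_mul_cancel pi_pos.ne', one_mul]
        congr 1; ext x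
        exact FF_im _ _ _ _
      rw [e1, e2, e2, e3, e3] at e0
      have i1 := hmul hw hB (ht1 y (y + 2 * π))
      have i2 := hmul hw hB (ht2 y (y + 2 * π))
      have i3 := hmul hw hB (intervalIntegrable_logPot (ν₁.map Subtype.val) y (y + 2 * π))
      have i4 := hmul hw hB (intervalIntegrable_logPot (ν₂.map Subtype.val) y (y + 2 * π))
      have e4 : ∀ t, (lg (Φ t - Φ y) - K t) * w t = lg (Φ t - Φ y) * w t
          - (π * (tail μ₁ t * w t) - π * (tail μ₂ t * w t) + logPot (ν₁.map Subtype.val) t * w t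
            - logPot (ν₂.map Subtype.val) t * w t) := fun t => by simp only [hK]; ring
      simp only [e4]
      rw [intervalIntegral.integral_sub hi' ((((i1.const_mul π).sub (i2.const_mul π)).add i3).sub i4),
        intervalIntegral.integral_sub (((i1.const_mul π).sub (i2.const_mul π)).add i3) i4,
        intervalIntegral.integral_add ((i1.const_mul π).sub (i2.const_mul π)) i3,
        intervalIntegral.integral_sub (i1.const_mul π) (i2.const_mul π),
        intervalIntegral.integral_const_mul, intervalIntegral.integral_const_mul]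
      have hp : π * (1 / π) = 1 := mul_one_div_cancel pi_pos.ne'
      linear_combination π * e0 - ((∫ t in y..(y + 2 * π), lg (Φ t - Φ y) * w t)
        - (∫ t in y..(y + 2 * π), logPot (ν₁.map Subtype.val) t * w t)
        + ∫ t in y..(y + 2 * π), logPot (ν₂.map Subtype.val) t * w t) * hp)
  refine ⟨fun t => κ + (π * tail μ₁ t - π * tail μ₂ t), fun t => -(π * tail μ₁ t) - π * tail μ₂ t,
    ν₁.map Subtype.val, ν₂.map Subtype.val, inferInstance, inferInstance, ?_, ?_, ?_, ?_, ?_⟩
  · intro s t _ hst _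
    have a1 := mul_le_mul_of_nonneg_left (tail_antitone μ₁ hst) pi_pos.le
    have a2 := mul_le_mul_of_nonneg_left (tail_antitone μ₂ hst) pi_pos.le
    rw [abs_le]; constructor <;> linarith
  · have a1 := mul_le_mul_of_nonneg_left ((tail_le μ₁ y).trans m1) pi_pos.le
    have a2 := mul_le_mul_of_nonneg_left ((tail_le μ₂ y).trans m2) pi_pos.le
    have a3 := mul_nonneg pi_pos.le (tail_nonneg μ₁ (y + 2 * π))
    have a4 := mul_nonneg pi_pos.le (tail_nonneg μ₂ (y + 2 * π))
    simp only; linarith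
  · rw [hmass]; nlinarith
  · rw [hmass]; nlinarith
  · filter_upwards [hκ] with t ht hm
    have := ht hm
    simp only [hK] at this
    linarith

theorem EL_iff {φ : Circle → Circle} {Φ : ℝ → ℝ} (h : ∀ y t, chordLog φ y t = lg (Φ t - Φ y)) :
    EL Φ ↔ LogPotCond φ := by
  constructor
  · rintro ⟨C, hC⟩
    refine ⟨C.toNNReal, fun y => ?_⟩
    obtain ⟨α, p, ν₁, ν₂, f1, f2, hα, hp, m1, m2, hae⟩ := hC y
    refine ⟨α, ν₁, ν₂, hα.eVariationOn_le.trans (ENNReal.ofReal_le_ofReal hp), ?_, ?_, ?_⟩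
    · rw [← ofReal_measureReal]; exact ENNReal.ofReal_le_ofReal m1
    · rw [← ofReal_measureReal]; exact ENNReal.ofReal_le_ofReal m2
    · simpa only [h] using hae
  · rintro ⟨C, hC⟩
    refine ⟨C, fun y => ?_⟩
    obtain ⟨α, ν₁, ν₂, hα, m1, m2, hae⟩ := hC y
    obtain ⟨p, hp, hp'⟩ := exists_dom (a := y) (b := y + 2 * π) (by linarith [pi_pos])
      (hα.trans_lt ENNReal.coe_lt_top).ne
    refine ⟨α, p, ν₁, ν₂, ⟨m1.trans_lt ENNReal.coe_lt_top⟩, ⟨m2.trans_lt ENNReal.coe_lt_top⟩, hp,
      ?_, ?_, ?_, ?_⟩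
    · rw [hp']; exact ENNReal.toReal_le_coe_of_le_coe hα
    · exact ENNReal.toReal_le_coe_of_le_coe m1
    · exact ENNReal.toReal_le_coe_of_le_coe m2
    · simpa only [h] using hae

theorem comp_mem_iff (ψ : Circle ≃ₜ Circle) :
    (∀ u ∈ ReA, u ∘ ψ ∈ ReA) ↔ LogPotCond ψ.symm := by
  obtain ⟨Φ, hΦ, h1, h2⟩ := reduce ψ
  rw [h2, ← EL_iff h1]
  exact ⟨EL_of_presL hΦ, presL_of_EL hΦ⟩

theorem logPot_main (ψ : Circle ≃ₜ Circle) :
    ReA = (fun u => u ∘ ψ) '' ReA ↔ LogPotCond ψ ∧ LogPotCond ψ.symm := by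
  rw [eq_iff_both, comp_mem_iff, comp_mem_iff, Homeomorph.symm_symm, and_comm]

end Pool.Agent.Work.MP_af796d_an
end
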