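import Pool.Agent.Work.MP_af796d_an.Suff
import Pool.Agent.Work.MP_af796d_an.DefsMod
import Pool.Agent.Work.MP_af796d_an.Nec0

-- merged part: Pool.Agent.Work.MP_af796d_an.Mod1
section
set_option autoImplicit false

namespace Pool.Agent.Work.MP_af796d_an

open MeasureTheory Set Real Filter Topology Metric

/-- `log (|e^{iu} - 1| / u)`. -/
noncomputable def sg (u : ℝ) : ℝ := lg u - Real.log u

lemma sg_anti {a b : ℝ} (ha : 0 < a) (hab : a ≤ b) (hb : b < 2 * π) : sg b ≤ sg a := by
  have hb0 : 0 < b := ha.trans_le hab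
  have h1 := strictConcaveOn_sin_Icc.concaveOn.2 (show (0 : ℝ) ∈ Icc 0 π from ⟨le_rfl, pi_pos.le⟩)
    (show b / 2 ∈ Icc 0 π from ⟨by linarith only [ha, hab], by linarith⟩)
    (show 0 ≤ 1 - a / b by rw [sub_nonneg, div_le_one hb0]; exact hab)
    (show 0 ≤ a / b by positivity) (by ring)
  simp only [smul_eq_mul, mul_zero, Real.sin_zero, zero_add] at h1
  rw [show a / b * (b / 2) = a / 2 by field_simp] at h1
  have ca := ch_pos ha (by linarith)
  have cb := ch_pos hb0 hb
  rw [sg, sg, lg, lg, ← Real.log_div cb.ne' hb0.ne', ← Real.log_div ca.ne' ha.ne']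
  refine Real.log_le_log (by positivity) ?_
  rw [ch_eq_sin ha.le (by linarith), ch_eq_sin hb0.le hb.le, div_le_div_iff₀ hb0 ha]
  rw [div_mul_eq_mul_div, div_le_iff₀ hb0] at h1
  linarith only [h1]

lemma sg_nonpos {a : ℝ} (ha : 0 < a) (hb : a < 2 * π) : sg a ≤ 0 := by
  have := ch_le_abs a
  rw [abs_of_pos ha] at this
  rw [sg, lg, sub_nonpos]
  exact Real.log_le_log (ch_pos ha hb) this

lemma neg_sg_le {a η : ℝ} (ha : 0 < a) (hb : a < 2 * π) (hη : 0 < η) (h : η ≤ ch a) :
    -sg a ≤ Real.log (2 * π) - Real.log η := by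
  have h1 := Real.log_le_log hη h
  have h2 := Real.log_le_log ha hb.le
  rw [sg, lg]; linarith

lemma side_C1 {D d : ℝ → ℝ} {m : ℝ} {Ω : ℕ → ℝ} (hD : ∀ t, HasDerivAt D (d t) t) (h0 : D 0 = 0)
    (hm0 : 0 < m) (hm : ∀ t, m ≤ d t)
    (hΩ : ∀ k s t, s ∈ Icc 0 (rr k) → t ∈ Icc 0 (rr k) → |d s - d t| ≤ Ω k) (h1 : D 1 < 2 * π)
    (k : ℕ) : ∃ p, Dom (fun t => lg (D t) - 1 * lg t) p (rr (k + 1)) (rr k) ∧
      p (rr k) - p (rr (k + 1)) ≤ Ω k / m + (sg (D (rr (k + 1))) - sg (D (rr k))) +
        (sg (rr (k + 1)) - sg (rr k)) := by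
  have hmono : StrictMono D := strictMono_of_deriv_pos fun t => by
    rw [(hD t).deriv]; exact hm0.trans_le (hm t)
  have hr := rr_pos (k + 1)
  have hr1 := rr_le_one k
  have hpos : ∀ t, 0 < t → 0 < D t := fun t ht => h0 ▸ hmono ht
  have hΩ0 : 0 ≤ Ω k := (abs_nonneg _).trans
    (hΩ k 0 0 ⟨le_rfl, (rr_pos k).le⟩ ⟨le_rfl, (rr_pos k).le⟩)
  set L := Ω k / (m * rr (k + 1)) with hL
  have d1 : Dom (fun t => Real.log (D t) - Real.log t) (fun t => L * t) (rr (k + 1)) (rr k) := by
    intro x y hx hxy hy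
    have := (convex_Icc (rr (k + 1)) (rr k)).norm_image_sub_le_of_norm_hasDerivWithin_le
      (f := fun t => Real.log (D t) - Real.log t) (f' := fun t => d t / D t - t⁻¹) (C := L)
      (fun t ht => (((hD t).log (hpos t (hr.trans_le ht.1)).ne').sub
        (Real.hasDerivAt_log (hr.trans_le ht.1).ne')).hasDerivWithinAt)
      (fun t ht => by
        have ht0 : 0 < t := hr.trans_le ht.1
        obtain ⟨ξ, hξ, e⟩ := exists_hasDerivAt_eq_slope D d ht0
          (fun s _ => (hD s).continuousAt.continuousWithinAt) fun s _ => hD s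
        rw [h0, sub_zero, sub_zero, eq_div_iff ht0.ne'] at e
        have hξ0 : 0 < d ξ := hm0.trans_le (hm ξ)
        have e2 : d t / D t - t⁻¹ = (d t - d ξ) / (d ξ * t) := by rw [← e]; field_simp
        rw [Real.norm_eq_abs, e2, abs_div, abs_of_pos (mul_pos hξ0 ht0), hL]
        have := hΩ k t ξ ⟨ht0.le, ht.2⟩ ⟨hξ.1.le, hξ.2.le.trans ht.2⟩
        gcongr
        · exact hm ξ
        · exact ht.1)
      ⟨hx, hxy.trans hy⟩ ⟨hx.trans hxy, hy⟩
    rw [Real.norm_eq_abs, Real.norm_eq_abs, abs_of_nonneg (sub_nonneg.2 hxy)] at this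
    simpa only [mul_sub] using this
  have d2 : Dom (fun t => sg (D t)) (fun t => -sg (D t)) (rr (k + 1)) (rr k) :=
    Dom.of_antitoneOn fun x hx y hy hxy => sg_anti (hpos x (hr.trans_le hx.1))
      (hmono.monotone hxy) ((hmono.monotone (hy.2.trans hr1)).trans_lt h1)
  have d3 : Dom sg (fun t => -sg t) (rr (k + 1)) (rr k) :=
    Dom.of_antitoneOn fun x hx y hy hxy => sg_anti (hr.trans_le hx.1) hxy
      (by linarith only [hr1, hy, hy.2, pi_gt_three])
  refine ⟨_, ((d1.add d2).sub d3).congr fun t _ _ => by simp only [sg]; ring, le_of_eq ?_⟩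
  have : L * rr k - L * rr (k + 1) = Ω k / m := by
    rw [hL, rr_succ]; have := rr_pos k; field_simp; ring
  linarith only [this]

theorem DC_of_C1 {Φ d : ℝ → ℝ} {m : ℝ} {Ω : ℕ → ℝ} (hΦ : Good Φ) (hD : ∀ t, HasDerivAt Φ (d t) t)
    (hm0 : 0 < m) (hm : ∀ t, m ≤ d t) (hΩ : ∀ k s t, |s - t| ≤ rr k → |d s - d t| ≤ Ω k)
    (hs : Summable Ω) : DC Φ := by
  obtain ⟨η, hη, hη'⟩ := hΦ.chord_lower one_pos
  have h3 := pi_gt_three
  have hΩ0 : ∀ k, 0 ≤ Ω k := fun k => (abs_nonneg _).trans (hΩ k 0 0 (by simpa using (rr_pos k).le))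
  refine ⟨2 * ((∑' k, Ω k) / m + (Real.log (2 * π) - Real.log η) - sg 1), fun y => ?_⟩
  have habs : ∀ k s t, s ∈ Icc 0 (rr k) → t ∈ Icc 0 (rr k) → |s - t| ≤ rr k := fun k s t a b => by
    rw [abs_le]; constructor <;> linarith only [a, b, a.1, a.2, b.1, b.2]
  have a1 := hΦ.sub_mem (show y < y + 1 by linarith) (by linarith)
  have a2 := hΦ.sub_mem (show y - 1 < y by linarith) (by linarith)
  have s1 := side_C1 (D := fun t => Φ (y + t) - Φ y) (d := fun t => d (y + t)) (Ω := Ω)
    (fun t => ((hD (y + t)).comp_const_add y t).sub_const _) (by simp) hm0 (fun t => hm _)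
    (fun k s t a b => hΩ k _ _ (by rw [add_sub_add_left_eq_sub]; exact habs k s t a b)) a1.2
  have s2 := side_C1 (D := fun t => Φ y - Φ (y - t)) (d := fun t => d (y - t)) (Ω := Ω)
    (fun t => by simpa using ((hD (y - t)).comp_const_sub y t).const_sub (Φ y)) (by simp) hm0
    (fun t => hm _)
    (fun k s t a b => hΩ k _ _ (by rw [sub_sub_sub_cancel_left]; exact habs k t s b a)) a2.2
  simp only [fun t => show lg (Φ y - Φ (y - t)) = lg (Φ (y - t) - Φ y) by
    rw [← lg_neg, neg_sub]] at s2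
  refine ⟨fun _ => 1, _, _, s1, s2, fun N => ?_⟩
  · have t1 := Finset.sum_range_sub (fun k => sg (Φ (y + rr k) - Φ y)) N
    have t2 := Finset.sum_range_sub (fun k => sg (Φ y - Φ (y - rr k))) N
    have t3 := Finset.sum_range_sub (fun k => sg (rr k)) N
    have t4 : ∑ k ∈ Finset.range N, Ω k / m ≤ (∑' k, Ω k) / m := by
      rw [← Finset.sum_div]
      gcongr
      exact hs.sum_le_tsum _ fun k _ => hΩ0 k
    have hN := rr_pos N
    have hN1 := rr_le_one N
    have b1 := hΦ.sub_mem (show y < y + rr N by linarith only [hN]) (by linarith only [h3, hN1])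
    have b2 := hΦ.sub_mem (show y - rr N < y by linarith) (by linarith only [h3, hN1])
    have c1 := sg_nonpos b1.1 b1.2
    have c2 := sg_nonpos b2.1 b2.2
    have c3 := sg_nonpos hN (by linarith only [h3, hN1])
    have e1 := neg_sg_le a1.1 a1.2 hη (hη' y 1 le_rfl (by linarith only [h3]))
    have e2 := neg_sg_le a2.1 a2.2 hη (by
      have := hη' (y - 1) 1 le_rfl (by linarith only [h3])
      rwa [sub_add_cancel] at this)
    simp only [rr_zero] at t1 t2 t3
    simp only [sub_self, abs_zero, zero_add, Finset.sum_add_distrib, t1, t2, t3]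
    linarith only [t4, c1, c2, c3, e1, e2]

lemma comp_mem_of_DC (ψ : Circle ≃ₜ Circle) {Φ : ℝ → ℝ}
    (h : ∀ y t, chordLog ψ.symm y t = lg (Φ t - Φ y)) (hD : DC Φ) : ∀ u ∈ ReA, u ∘ ψ ∈ ReA := by
  obtain ⟨Φ₀, hΦ, h1, h2⟩ := reduce ψ
  refine h2.2 (presL_of_DC hΦ ?_)
  have e : ∀ y t, lg (Φ₀ t - Φ₀ y) = lg (Φ t - Φ y) := fun y t => by rw [← h1, h]
  simpa only [DC, e] using hD

lemma lift_unique {A B : ℝ → ℝ} (hA : Continuous A) (hB : Continuous B)
    (h : ∀ t, Circle.exp (A t) = Circle.exp (B t)) : ∃ c, ∀ t, A t = B t + c := by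
  obtain ⟨n, hn⟩ := Circle.exp_eq_exp.1 (h 0)
  refine ⟨n * (2 * π), fun t => ?_⟩
  have := Circle.isCoveringMap_exp.eq_of_comp_eq (g₁ := A) (g₂ := fun t => B t + n * (2 * π)) hA
    (by fun_prop) (by
      ext t
      simp only [Function.comp, h]
      congr 1
      exact (Circle.exp_eq_exp.2 ⟨n, rfl⟩).symm) 0 hn
  exact congrFun this t

namespace IsModulus

variable {ω : ℝ → ℝ}

lemma nonneg (h : IsModulus ω) {t : ℝ} (ht : 0 ≤ t) : 0 ≤ ω t :=
  h.zero ▸ h.mono (mem_Ici.2 le_rfl) ht ht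

lemma le (h : IsModulus ω) {s t : ℝ} (hs : 0 ≤ s) (hst : s ≤ t) : ω s ≤ ω t :=
  h.mono hs (hs.trans hst) hst

lemma nat_mul (h : IsModulus ω) {t : ℝ} (ht : 0 ≤ t) (n : ℕ) : ω (n * t) ≤ n * ω t := by
  induction n with
  | zero => simp [h.zero]
  | succ n ih =>
    have := h.subadd (n * t) t (by positivity) ht
    push_cast
    rw [add_mul, one_mul]
    linarith

lemma mul (h : IsModulus ω) {t c : ℝ} (ht : 0 ≤ t) (hc : 0 ≤ c) : ω (c * t) ≤ (c + 1) * ω t := by
  have h1 : c ≤ ⌈c⌉₊ := Nat.le_ceil c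
  have h2 : (⌈c⌉₊ : ℝ) ≤ c + 1 := (Nat.ceil_lt_add_one hc).le
  have := h.nonneg ht
  calc ω (c * t) ≤ ω (⌈c⌉₊ * t) := h.le (by positivity) (by gcongr)
    _ ≤ ⌈c⌉₊ * ω t := h.nat_mul ht _
    _ ≤ _ := by gcongr

lemma continuous_of (h : IsModulus ω) {d : ℝ → ℝ} {K : ℝ} (hd : ∀ s t, |d s - d t| ≤ K * ω |s - t|) :
    Continuous d := by
  have h0 : Tendsto ω (𝓝[≥] 0) (𝓝 0) := by
    rw [← nhdsGT_sup_nhdsWithin_singleton, tendsto_sup]
    refine ⟨h.tendsto, ?_⟩
    rw [nhdsWithin_singleton, tendsto_pure_left]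
    intro s hs
    rw [h.zero]; exact mem_of_mem_nhds hs
  refine continuous_iff_continuousAt.2 fun t => ?_
  rw [ContinuousAt, tendsto_iff_dist_tendsto_zero]
  have h1 : Tendsto (fun s => |s - t|) (𝓝 t) (𝓝[≥] 0) :=
    tendsto_nhdsWithin_iff.2 ⟨by
      have : Continuous fun s : ℝ => |s - t| := by fun_prop
      simpa using this.tendsto t, Eventually.of_forall fun s => mem_Ici.2 (abs_nonneg _)⟩
  have h2 := (h0.comp h1).const_mul K
  rw [mul_zero] at h2
  exact squeeze_zero (fun _ => dist_nonneg) (fun s => hd s t) h2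

end IsModulus

/-- A good lift with positive derivative having modulus `ω`. -/
structure GoodMod (ω Φ d : ℝ → ℝ) (K : ℝ) : Prop where
  good : Good Φ
  der : ∀ t, HasDerivAt Φ (d t) t
  pos : ∀ t, 0 < d t
  md : ∀ s t, |d s - d t| ≤ K * ω |s - t|

lemma GoodMod.bounds {ω Φ d : ℝ → ℝ} {K : ℝ} (hω : IsModulus ω) (h : GoodMod ω Φ d K) :
    ∃ m, 0 < m ∧ ∀ t, m ≤ d t := by
  have hc := hω.continuous_of h.md
  have hper : Function.Periodic d (2 * π) := fun t => by
    have a := ((h.der (t + 2 * π)).comp_add_const t (2 * π))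
    simp only [h.good.per] at a
    exact a.unique ((h.der t).add_const _)
  obtain ⟨x, -, hx⟩ := isCompact_Icc.exists_isMinOn (show (Icc 0 (2 * π)).Nonempty from
    ⟨0, le_rfl, by positivity⟩) hc.continuousOn
  refine ⟨d x, h.pos x, fun t => ?_⟩
  obtain ⟨n, h1, h2⟩ := exists_window 0 t
  rw [← hper.int_mul n t]
  exact hx ⟨h1, by linarith⟩

lemma GoodMod.DC {ω Φ d : ℝ → ℝ} {K : ℝ} (hω : IsModulus ω) (h : GoodMod ω Φ d K)
    (hs : Summable fun k => ω (rr k)) : DC Φ := by
  obtain ⟨m, hm0, hm⟩ := h.bounds hω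
  refine DC_of_C1 (Ω := fun k => |K| * ω (rr k)) h.good h.der hm0 hm (fun k s t hst => ?_)
    (hs.mul_left _)
  have := hω.nonneg (abs_nonneg (s - t))
  refine (h.md s t).trans ?_
  gcongr
  · exact le_abs_self K
  · exact hω.le (abs_nonneg _) hst

lemma GoodMod.inv {ω Φ d : ℝ → ℝ} {K : ℝ} (hω : IsModulus ω) (h : GoodMod ω Φ d K) :
    ∃ Θ d' K', GoodMod ω Θ d' K' ∧ ∀ t, Φ (Θ t) = t := by
  obtain ⟨m, hm0, hm⟩ := h.bounds hω
  let e := h.good.mono.orderIsoOfSurjective Φ h.good.surj
  have h1 : ∀ t, Φ (e.symm t) = t := fun t => e.apply_symm_apply t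
  have hc : Continuous e.symm := e.symm.continuous
  have hder : ∀ t, HasDerivAt e.symm (d (e.symm t))⁻¹ t := fun t =>
    HasDerivAt.of_local_left_inverse hc.continuousAt (h.der _) (h.pos _).ne'
      (Eventually.of_forall h1)
  refine ⟨e.symm, fun t => (d (e.symm t))⁻¹, |K| * (m⁻¹ + 1) / m ^ 2,
    ⟨⟨hc, e.symm.strictMono, fun t => h.good.mono.injective ?_⟩, hder,
      fun t => inv_pos.2 (h.pos _), fun s t => ?_⟩, h1⟩
  · rw [h.good.per, h1, h1]
  · have l1 : |e.symm s - e.symm t| ≤ m⁻¹ * |s - t| := by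
      have := convex_univ.norm_image_sub_le_of_norm_hasDerivWithin_le (C := m⁻¹)
        (fun x _ => (hder x).hasDerivWithinAt) (fun x _ => by
          rw [Real.norm_eq_abs, abs_of_pos (inv_pos.2 (h.pos _))]
          exact inv_anti₀ hm0 (hm _)) (mem_univ t) (mem_univ s)
      simpa only [Real.norm_eq_abs] using this
    have l2 := (hω.le (abs_nonneg _) l1).trans (hω.mul (abs_nonneg (s - t)) (inv_pos.2 hm0).le)
    have l3 := h.md (e.symm t) (e.symm s)
    rw [abs_sub_comm (e.symm t)] at l3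
    have p1 := h.pos (e.symm s)
    have p2 := h.pos (e.symm t)
    have n1 := hω.nonneg (abs_nonneg (e.symm s - e.symm t))
    have n2 := hω.nonneg (abs_nonneg (s - t))
    rw [inv_sub_inv p1.ne' p2.ne', abs_div, abs_of_pos (mul_pos p1 p2)]
    calc |d (e.symm t) - d (e.symm s)| / (d (e.symm s) * d (e.symm t))
        ≤ |K| * ((m⁻¹ + 1) * ω |s - t|) / (m * m) := by
          gcongr
          · exact l3.trans (mul_le_mul (le_abs_self K) l2 n1 (abs_nonneg _))
          · exact hm _
          · exact hm _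
      _ = _ := by ring

lemma GoodMod.refl {ω Φ d : ℝ → ℝ} {K : ℝ} (h : GoodMod ω Φ d K) :
    GoodMod ω (fun t => -Φ (-t)) (fun t => d (-t)) K := by
  refine ⟨⟨by have := h.good.cont; fun_prop, fun a b hab => neg_lt_neg (h.good.mono (neg_lt_neg hab)),
    fun t => ?_⟩, fun t => ?_, fun t => h.pos _, fun s t => ?_⟩
  · have := h.good.per (-(t + 2 * π))
    rw [show -(t + 2 * π) + 2 * π = -t by ring] at this
    linarith
  · have := ((h.der (-t)).comp t (hasDerivAt_neg t)).neg
    rw [mul_neg_one, neg_neg] at this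
    exact this
  · have := h.md (-s) (-t)
    rwa [neg_sub_neg, abs_sub_comm t s] at this

lemma IsC1Mod.goodMod {ω : ℝ → ℝ} {ψ : Circle ≃ₜ Circle} (h : IsC1Mod ω ψ) :
    ∃ Φ d K, GoodMod ω Φ d K ∧ ((∀ t, ψ (Circle.exp t) = Circle.exp (Φ t)) ∨
      (∀ t, ψ (Circle.exp t) = Circle.exp (-Φ t))) := by
  obtain ⟨Ψ, Ψ', K, hl, hd, hne, hK⟩ := h
  have hc : Continuous Ψ := continuous_iff_continuousAt.2 fun t => (hd t).continuousAt
  have key : ∀ Φ d : ℝ → ℝ, Good Φ → (∀ t, HasDerivAt Φ (d t) t) → (∀ t, d t ≠ 0) → ∀ t, 0 < d t :=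
    fun Φ d a b c t => lt_of_le_of_ne (by rw [← (b t).deriv]; exact a.mono.monotone.deriv_nonneg)
      (c t).symm
  obtain ⟨Φ, hΦ, h | h⟩ := exists_good_lift ψ ψ.continuous ψ.injective
  · obtain ⟨c, e⟩ := lift_unique hΦ.cont hc fun t => by rw [← h, hl]
    have d1 : ∀ t, HasDerivAt Φ (Ψ' t) t := fun t => by
      rw [show Φ = fun t => Ψ t + c from funext e]; exact (hd t).add_const c
    exact ⟨Φ, Ψ', K, ⟨hΦ, d1, key Φ _ hΦ d1 hne, hK⟩, Or.inl h⟩
  · obtain ⟨c, e⟩ := lift_unique hΦ.cont hc.neg fun t => by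
      rw [← h, hl, Pi.neg_apply, Circle.exp_neg]
    have d1 : ∀ t, HasDerivAt Φ (-Ψ' t) t := fun t => by
      rw [show Φ = fun t => -Ψ t + c from funext e]; exact (hd t).neg.add_const c
    refine ⟨Φ, fun t => -Ψ' t, K, ⟨hΦ, d1, key Φ _ hΦ d1 fun t => neg_ne_zero.2 (hne t),
      fun s t => ?_⟩, Or.inr fun t => by rw [Circle.exp_neg, ← h, inv_inv]⟩
    rw [neg_sub_neg, abs_sub_comm]; exact hK s t

lemma chordLog_of_lift {φ : Circle → Circle} {Φ : ℝ → ℝ}
    (h : (∀ t, φ (Circle.exp t) = Circle.exp (Φ t)) ∨ (∀ t, φ (Circle.exp t) = Circle.exp (-Φ t)))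
    (y t : ℝ) : chordLog φ y t = lg (Φ t - Φ y) := by
  rcases h with h | h
  · simp only [chordLog, h, coe_exp_eq, norm_ex_sub_ex, lg]
  · simp only [chordLog, h, coe_exp_eq, norm_ex_sub_ex, lg]
    rw [← ch_neg]; congr 2; ring

theorem eq_of_C1Mod {ω : ℝ → ℝ} (hω : IsModulus ω) (hs : Summable fun k => ω (rr k))
    (ψ : Circle ≃ₜ Circle) (h : IsC1Mod ω ψ) : ReA = (fun u => u ∘ ψ) '' ReA := by
  obtain ⟨Φ, d, K, hΦ, hl⟩ := h.goodMod
  obtain ⟨Θ, d', K', hΘ, hi⟩ := hΦ.inv hω
  refine (eq_iff_both ψ).2 ⟨?_, comp_mem_of_DC ψ.symm (chordLog_of_lift hl) (hΦ.DC hω hs)⟩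
  rcases hl with hl | hl
  · refine comp_mem_of_DC ψ (chordLog_of_lift (Or.inl fun t => ?_)) (hΘ.DC hω hs)
    rw [Homeomorph.symm_apply_eq, hl, hi]
  · refine comp_mem_of_DC ψ (chordLog_of_lift (Or.inr fun t => ?_)) (hΘ.refl.DC hω hs)
    rw [Homeomorph.symm_apply_eq, hl, neg_neg, hi, neg_neg]

end Pool.Agent.Work.MP_af796d_an
end

-- merged part: Pool.Agent.Work.MP_af796d_an.Mod2
section
set_option autoImplicit false

namespace Pool.Agent.Work.MP_af796d_an

open MeasureTheory Set Real Filter Topology Metric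

lemma PresL.test {Φ : ℝ → ℝ} (hΦ : Good Φ) (h : PresL Φ) : ∃ M, 0 ≤ M ∧
    ∀ (w : ℝ → ℝ) (B c y : ℝ), Measurable w → (∀ t, |w t| ≤ B) →
      ∫ t in y..(y + 2 * π), w t = 0 →
      IntervalIntegrable (fun t => lg (Φ t - Φ y) * w t) volume y (y + 2 * π) →
      (∀ x ∈ Icc y (y + 2 * π), |∫ t in y..x, w t| ≤ c) →
      (∀ s, |∫ t in y..(y + 2 * π), lg (t - s) * w t| ≤ c) →
      |∫ t in y..(y + 2 * π), lg (Φ t - Φ y) * w t| ≤ M * c := by
  obtain ⟨M, hM0, hM⟩ := h.bound hΦ
  have h3 := pi_gt_three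
  refine ⟨π * (2 * M), by positivity, fun w B c y hw hB h0 hi h1 h2 => ?_⟩
  have hF := diffContOnCl_FF (a := y) good_id UI_id hw hB
  obtain ⟨g, hg⟩ := h.exists_linked hF
  have hc : 0 ≤ c := (abs_nonneg _).trans (h2 0)
  have := hM _ g hg (2 * c) (fun z hz => norm_le_of_sphere hF (fun z hz => by
    obtain ⟨t, rfl⟩ := exists_ex_of_norm hz
    obtain ⟨n, hn1, hn2⟩ := exists_window y t
    rw [← ex_periodic.int_mul n t]
    have a := RR_boundary good_id hw hB h0 hn1 hn2.le
    have b := JJ_boundary id w y (t + n * (2 * π))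
    simp only [id] at a b
    have e := Complex.norm_le_abs_re_add_abs_im (FF id w y (ex (t + n * (2 * π))))
    rw [FF_re, FF_im, a, b, abs_mul, abs_of_pos (by positivity : 0 < 1 / π)] at e
    have a1 := h1 _ ⟨hn1, hn2.le⟩
    have a2 := h2 (t + n * (2 * π))
    have a3 : 1 / π ≤ 1 := by rw [div_le_one pi_pos]; linarith only [h3]
    have a4 := mul_le_mul a3 a2 (abs_nonneg _) zero_le_one
    linarith only [e, a1, a4]) hz) y
  rw [Linked.im_eq hΦ hw hB h0 hi hg, abs_mul, abs_of_pos (by positivity : 0 < 1 / π),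
    div_mul_eq_mul_div, one_mul, div_le_iff₀ pi_pos] at this
  linarith

/-- The derivative of a tent on `[r, 2r]`. -/
noncomputable def wk (r t : ℝ) : ℝ :=
  (1 / r) * ((Ioc r (3 * r / 2)).indicator (fun _ => (1 : ℝ)) t -
    (Ioc (3 * r / 2) (2 * r)).indicator (fun _ => (1 : ℝ)) t)

/-- The pairing with `wk r`. -/
noncomputable def II (r : ℝ) (F : ℝ → ℝ) : ℝ :=
  (1 / r) * ((∫ t in r..(3 * r / 2), F t) - ∫ t in (3 * r / 2)..(2 * r), F t)

lemma measurable_wk (r : ℝ) : Measurable (wk r) :=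
  ((measurable_const.indicator measurableSet_Ioc).sub
    (measurable_const.indicator measurableSet_Ioc)).const_mul _

lemma abs_wk_le {r : ℝ} (hr : 0 < r) (t : ℝ) : |wk r t| ≤ 1 / r := by
  rw [wk, abs_mul, abs_of_pos (by positivity : 0 < 1 / r)]
  refine mul_le_of_le_one_right (by positivity) ?_
  simp only [indicator]
  split_ifs <;> simp

lemma ii_left {r : ℝ} (hr : 0 < r) {F : ℝ → ℝ} (hF : IntervalIntegrable F volume r (2 * r)) :
    IntervalIntegrable F volume r (3 * r / 2) :=
  hF.mono_set (uIcc_subset_uIcc_left (mem_uIcc_of_le (by linarith only [hr]) (by linarith)))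

lemma ii_right {r : ℝ} (hr : 0 < r) {F : ℝ → ℝ} (hF : IntervalIntegrable F volume r (2 * r)) :
    IntervalIntegrable F volume (3 * r / 2) (2 * r) :=
  hF.mono_set (uIcc_subset_uIcc_right (mem_uIcc_of_le (by linarith only [hr]) (by linarith)))

lemma pair_wk {r : ℝ} (hr : 0 < r) (hr1 : r ≤ 1) {F : ℝ → ℝ}
    (hF : IntervalIntegrable F volume r (2 * r)) :
    IntervalIntegrable (fun t => F t * wk r t) volume 0 (2 * π) ∧
      ∫ t in (0 : ℝ)..(2 * π), F t * wk r t = II r F := by
  have h3 := pi_gt_three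
  have i1 := intervalIntegrable_indicator_mul 0 (2 * π) measurableSet_Ioc (ii_left hr hF).1
  have i2 := intervalIntegrable_indicator_mul 0 (2 * π) measurableSet_Ioc (ii_right hr hF).1
  have e : (fun t => F t * wk r t) = fun t => (1 / r) *
      (F t * (Ioc r (3 * r / 2)).indicator (fun _ => (1 : ℝ)) t -
        F t * (Ioc (3 * r / 2) (2 * r)).indicator (fun _ => (1 : ℝ)) t) := by
    ext t; rw [wk]; ring
  rw [e]
  refine ⟨(i1.sub i2).const_mul _, ?_⟩
  rw [intervalIntegral.integral_const_mul, intervalIntegral.integral_sub i1 i2,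
    integral_indicator_mul (by positivity) measurableSet_Ioc
      (Ioc_subset_Ioc hr.le (by linarith only [hr1, h3])),
    integral_indicator_mul (by positivity) measurableSet_Ioc
      (Ioc_subset_Ioc (by linarith only [hr]) (by linarith)), II,
    intervalIntegral.integral_of_le (by linarith only [hr]), intervalIntegral.integral_of_le (by linarith)]

lemma II_sub {r : ℝ} (hr : 0 < r) {F G : ℝ → ℝ} (hF : IntervalIntegrable F volume r (2 * r))
    (hG : IntervalIntegrable G volume r (2 * r)) :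
    II r (fun t => F t - G t) = II r F - II r G := by
  simp only [II, intervalIntegral.integral_sub (ii_left hr hF) (ii_left hr hG),
    intervalIntegral.integral_sub (ii_right hr hF) (ii_right hr hG)]
  ring

lemma II_const (r c : ℝ) : II r (fun _ => c) = 0 := by
  simp only [II, intervalIntegral.integral_const, smul_eq_mul]; ring

lemma abs_II_le {r : ℝ} (hr : 0 < r) {F G : ℝ → ℝ} (hF : IntervalIntegrable F volume r (2 * r))
    (hG : IntervalIntegrable G volume r (2 * r)) (c : ℝ)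
    (h : ∀ᵐ t : ℝ, t ∈ Ioc r (2 * r) → |F t - c| ≤ G t) :
    |II r F| ≤ (1 / r) * ∫ t in r..(2 * r), G t := by
  have e := II_sub hr hF (intervalIntegrable_const (c := c))
  rw [II_const, sub_zero] at e
  rw [← e, II, abs_mul, abs_of_pos (by positivity : 0 < 1 / r),
    ← intervalIntegral.integral_add_adjacent_intervals (ii_left hr hG) (ii_right hr hG)]
  gcongr
  have h1 : r ≤ 3 * r / 2 := by linarith only [hr]
  have h2 : 3 * r / 2 ≤ 2 * r := by linarith only [hr]
  refine (abs_sub _ _).trans (add_le_add ?_ ?_)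
  · refine intervalIntegral.norm_integral_le_of_norm_le (f := fun t => F t - c) h1 ?_
      (ii_left hr hG)
    filter_upwards [h] with t ht hm using ht ⟨hm.1, by linarith only [hr, hm, hm.2]⟩
  · refine intervalIntegral.norm_integral_le_of_norm_le (f := fun t => F t - c) h2 ?_
      (ii_right hr hG)
    filter_upwards [h] with t ht hm using ht ⟨by linarith only [hr, hm, hm.1], hm.2⟩

lemma abs_II_le' {r : ℝ} (hr : 0 < r) {F : ℝ → ℝ} (hF : IntervalIntegrable F volume r (2 * r))
    (c A : ℝ) (h : ∀ t, t ∈ Ioc r (2 * r) → |F t - c| ≤ A) : |II r F| ≤ A := by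
  have := abs_II_le hr hF (intervalIntegrable_const (c := A)) c (Eventually.of_forall h)
  rw [intervalIntegral.integral_const, smul_eq_mul] at this
  refine this.trans (le_of_eq ?_)
  field_simp; ring

/-- The odd test function. -/
noncomputable def ww (N : ℕ) (t : ℝ) : ℝ :=
  ∑ k ∈ Finset.range N, (wk (rr (k + 1)) t - wk (rr (k + 1)) (2 * π - t))

lemma measurable_ww (N : ℕ) : Measurable (ww N) :=
  Finset.measurable_sum _ fun _ _ => (measurable_wk _).sub
    ((measurable_wk _).comp (measurable_const.sub measurable_id))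

lemma abs_ww_le (N : ℕ) (t : ℝ) : |ww N t| ≤ ∑ k ∈ Finset.range N, 2 / rr (k + 1) := by
  refine (Finset.abs_sum_le_sum_abs _ _).trans (Finset.sum_le_sum fun k _ => ?_)
  have a := abs_wk_le (rr_pos (k + 1)) t
  have b := abs_wk_le (rr_pos (k + 1)) (2 * π - t)
  have := abs_sub (wk (rr (k + 1)) t) (wk (rr (k + 1)) (2 * π - t))
  have e : 2 / rr (k + 1) = 1 / rr (k + 1) + 1 / rr (k + 1) := by ring
  linarith only [a, b, this, e]

lemma pair_ww (N : ℕ) {F : ℝ → ℝ}
    (h1 : ∀ k, IntervalIntegrable F volume (rr (k + 1)) (2 * rr (k + 1)))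
    (h2 : ∀ k, IntervalIntegrable (fun t => F (2 * π - t)) volume (rr (k + 1)) (2 * rr (k + 1))) :
    IntervalIntegrable (fun t => F t * ww N t) volume 0 (2 * π) ∧
      ∫ t in (0 : ℝ)..(2 * π), F t * ww N t =
        ∑ k ∈ Finset.range N, II (rr (k + 1)) (fun t => F t - F (2 * π - t)) := by
  have key : ∀ k, IntervalIntegrable
      (fun t => F t * (wk (rr (k + 1)) t - wk (rr (k + 1)) (2 * π - t))) volume 0 (2 * π) ∧
      ∫ t in (0 : ℝ)..(2 * π), F t * (wk (rr (k + 1)) t - wk (rr (k + 1)) (2 * π - t)) =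
        II (rr (k + 1)) (fun t => F t - F (2 * π - t)) := fun k => by
    obtain ⟨a1, a2⟩ := pair_wk (rr_pos (k + 1)) (rr_le_one _) (h1 k)
    obtain ⟨b1, b2⟩ := pair_wk (rr_pos (k + 1)) (rr_le_one _) (h2 k)
    have b3 := (b1.comp_sub_left (2 * π)).symm
    have b4 := intervalIntegral.integral_comp_sub_left (a := 0) (b := 2 * π)
      (fun t => F (2 * π - t) * wk (rr (k + 1)) t) (2 * π)
    simp only [sub_sub_cancel, sub_self, sub_zero] at b3 b4
    simp only [mul_sub]
    refine ⟨a1.sub b3, ?_⟩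
    rw [intervalIntegral.integral_sub a1 b3, a2, b4, b2, II_sub (rr_pos _) (h1 k) (h2 k)]
  simp only [ww, Finset.mul_sum]
  refine ⟨?_, ?_⟩
  · have := IntervalIntegrable.sum (Finset.range N) fun k _ => (key k).1
    refine this.congr fun t _ => ?_
    simp
  · rw [intervalIntegral.integral_finset_sum fun k _ => (key k).1]
    exact Finset.sum_congr rfl fun k _ => (key k).2

/-- A telescoping majorant of `min x x⁻¹`. -/
noncomputable def tel (x : ℝ) : ℝ := 2 * x / (1 + 2 * x) - x / (1 + x)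

lemma tel_eq {x : ℝ} (hx : 0 ≤ x) : tel x = x / ((1 + 2 * x) * (1 + x)) := by
  rw [tel]; field_simp; ring

lemma tel_nonneg {x : ℝ} (hx : 0 ≤ x) : 0 ≤ tel x := by rw [tel_eq hx]; positivity

lemma le_tel {x : ℝ} (hx : 0 ≤ x) (h1 : x ≤ 4) : x ≤ 45 * tel x := by
  rw [tel_eq hx, ← mul_div_assoc, le_div_iff₀ (by positivity)]
  have : (1 + 2 * x) * (1 + x) ≤ 45 := by linarith only [h1, hx, mul_nonneg_of_nonpos_of_nonpos (Mathlib.Tactic.Linarith.sub_nonpos_of_le hx) (Mathlib.Tactic.Linarith.sub_nonpos_of_le h1)]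
  nlinarith

lemma le_tel' {x : ℝ} (h1 : 1 ≤ x) : 1 / x ≤ 6 * tel x := by
  rw [tel_eq (by linarith), ← mul_div_assoc, div_le_div_iff₀ (by positivity) (by positivity)]
  nlinarith

lemma sum_tel {s : ℝ} (hs : 0 ≤ s) (N : ℕ) :
    ∑ k ∈ Finset.range N, tel (s / rr (k + 1)) ≤ 1 := by
  have e : ∀ k, tel (s / rr (k + 1)) = (s / rr (k + 1 + 1)) / (1 + s / rr (k + 1 + 1)) -
      (s / rr (k + 1)) / (1 + s / rr (k + 1)) := fun k => by
    have : s / rr (k + 1 + 1) = 2 * (s / rr (k + 1)) := by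
      rw [rr_succ (k + 1)]; field_simp
    rw [tel, this]
  simp only [e]
  rw [Finset.sum_range_sub fun k => (s / rr (k + 1)) / (1 + s / rr (k + 1))]
  have a := rr_pos (N + 1)
  have b := rr_pos (0 + 1)
  have h1 : (s / rr (N + 1)) / (1 + s / rr (N + 1)) ≤ 1 := by
    rw [div_le_one (by positivity)]; linarith only []
  have h2 : 0 ≤ (s / rr (0 + 1)) / (1 + s / rr (0 + 1)) := by positivity
  linarith only [h1, h2]

lemma II_step {r x : ℝ} (hr : 0 < r) (hx : 0 ≤ x) :
    |II r ((Iic x).indicator fun _ => (1 : ℝ))| ≤ 45 * tel (x / r) := by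
  have hi : IntervalIntegrable ((Iic x).indicator fun _ => (1 : ℝ)) volume r (2 * r) :=
    bdd_intervalIntegrable (B := 1) (measurable_const.indicator measurableSet_Iic)
      (fun t => by simp only [indicator]; split_ifs <;> simp) _ _
  have t0 := tel_nonneg (show 0 ≤ x / r by positivity)
  rcases le_or_gt x r with h1 | h1
  · refine (abs_II_le' hr hi 0 0 fun t ht => ?_).trans (by linarith only [t0])
    rw [indicator_of_notMem (by simpa using h1.trans_lt ht.1)]; simp
  rcases le_or_gt (2 * r) x with h2 | h2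
  · refine (abs_II_le' hr hi 1 0 fun t ht => ?_).trans (by linarith only [t0])
    rw [indicator_of_mem (by simpa using ht.2.trans h2)]; simp
  · refine (abs_II_le' hr hi 0 1 fun t _ => ?_).trans ?_
    · by_cases h : t ≤ x <;> simp [h]
    · have a : 1 ≤ x / r := by rw [le_div_iff₀ hr]; linarith
      have b : x / r ≤ 4 := by rw [div_le_iff₀ hr]; linarith only [h1, h2]
      linarith only [a, b, le_tel (by linarith) b]

lemma primitive_ww (N : ℕ) {x : ℝ} (hx : x ∈ Icc 0 (2 * π)) : |∫ t in (0 : ℝ)..x, ww N t| ≤ 90 := by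
  have hb : ∀ (g : ℝ → ℝ), Measurable g → ∀ a b, IntervalIntegrable
      (fun t => (Iic x).indicator (fun _ => (1 : ℝ)) (g t)) volume a b := fun g hg a b =>
    bdd_intervalIntegrable (B := 1) ((measurable_const.indicator measurableSet_Iic).comp hg)
      (fun t => by simp only [Function.comp, indicator]; split_ifs <;> simp) _ _
  obtain ⟨-, e⟩ := pair_ww N (F := (Iic x).indicator fun _ => (1 : ℝ))
    (fun k => hb id measurable_id _ _) fun k => hb _ (by fun_prop) _ _
  have e2 : ∫ t in (0 : ℝ)..(2 * π), (Iic x).indicator (fun _ => (1 : ℝ)) t * ww N t =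
      ∫ t in (0 : ℝ)..x, ww N t := by
    rw [← intervalIntegral.integral_indicator hx]
    congr 1; ext t
    by_cases h : t ≤ x <;> simp [h]
  rw [← e2, e]
  refine (Finset.abs_sum_le_sum_abs _ _).trans ?_
  have s1 := sum_tel hx.1 N
  have s2 := sum_tel (sub_nonneg.2 hx.2) N
  have : ∀ k ∈ Finset.range N, |II (rr (k + 1)) fun t => (Iic x).indicator (fun _ => (1 : ℝ)) t -
      (Iic x).indicator (fun _ => (1 : ℝ)) (2 * π - t)| ≤
      45 * tel (x / rr (k + 1)) + 45 * tel ((2 * π - x) / rr (k + 1)) := fun k _ => by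
    have hr := rr_pos (k + 1)
    rw [II_sub hr (hb (fun t => t) measurable_id _ _) (hb (fun t => 2 * π - t) (by fun_prop) _ _)]
    refine (abs_sub _ _).trans (add_le_add (II_step hr hx.1) ?_)
    have e3 : II (rr (k + 1)) (fun t => (Iic x).indicator (fun _ => (1 : ℝ)) (2 * π - t)) =
        II (rr (k + 1)) (fun t => 1 - (Iic (2 * π - x)).indicator (fun _ => (1 : ℝ)) t) := by
      have hae : ∀ᵐ t : ℝ, (Iic x).indicator (fun _ => (1 : ℝ)) (2 * π - t) =
          1 - (Iic (2 * π - x)).indicator (fun _ => (1 : ℝ)) t := by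
        filter_upwards [(countable_singleton (2 * π - x)).ae_notMem volume] with t ht
        rcases lt_or_gt_of_ne (show t ≠ 2 * π - x from ht) with h | h
        · rw [indicator_of_notMem (by simp; linarith), indicator_of_mem (by simp; linarith)]; simp
        · rw [indicator_of_mem (by simp; linarith), indicator_of_notMem (by simp; linarith)]; simp
      simp only [II]
      rw [intervalIntegral.integral_congr_ae (hae.mono fun t h _ => h),
        intervalIntegral.integral_congr_ae (hae.mono fun t h _ => h)]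
    rw [e3, II_sub hr intervalIntegrable_const (bdd_intervalIntegrable (B := 1)
      (measurable_const.indicator measurableSet_Iic)
      (fun t => by simp only [indicator]; split_ifs <;> simp) _ _), II_const, zero_sub, abs_neg]
    exact II_step hr (sub_nonneg.2 hx.2)
  refine (Finset.sum_le_sum this).trans ?_
  rw [Finset.sum_add_distrib, ← Finset.mul_sum, ← Finset.mul_sum]
  linarith only [s1, s2]

lemma le_ch3 {x : ℝ} (h0 : 0 ≤ x) (h1 : x ≤ π + 1) : x / 3 ≤ ch x := by
  have h3 := pi_gt_three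
  have h4 := pi_lt_d2
  rcases le_total x π with h | h
  · have := le_ch' (t := x) (by rwa [abs_of_nonneg h0])
    rw [abs_of_nonneg h0] at this
    linarith only [h0, this]
  · rw [ch_eq_sin h0 (by linarith only [h1, h3, h4]), ← Real.cos_pi_div_two_sub]
    have := Real.one_sub_sq_div_two_le_cos (x := π / 2 - x / 2)
    linarith only [h3, h4, h, this, h0, h1, mul_nonneg_of_nonpos_of_nonpos (Mathlib.Tactic.Linarith.sub_nonpos_of_le h0) (Mathlib.Tactic.Linarith.sub_nonpos_of_le h1), mul_nonneg_of_nonpos_of_nonpos (Mathlib.Tactic.Linarith.sub_nonpos_of_le h1) (le_of_lt (Mathlib.Tactic.Linarith.sub_neg_of_lt h4))]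

/-- The integral of `|log|` over `[-4, 4]`. -/
noncomputable def L1 : ℝ := ∫ x in (-4 : ℝ)..4, |Real.log x|

lemma L1_nonneg : 0 ≤ L1 := intervalIntegral.integral_nonneg (by norm_num) fun _ _ => abs_nonneg _

lemma II_lg {r s : ℝ} (hr : 0 < r) (hr1 : r ≤ 1 / 2) (hs : 0 ≤ s) (hs1 : s ≤ π) :
    |II r fun t => lg (t - s) - lg (t + s)| ≤ 90 * (L1 + 8) * tel (s / r) := by
  have h3 := pi_gt_three
  have hL := L1_nonneg
  have hi : IntervalIntegrable (fun t => lg (t - s) - lg (t + s)) volume r (2 * r) := by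
    have := (intervalIntegrable_lg_sub s r (2 * r)).sub (intervalIntegrable_lg_sub (-s) r (2 * r))
    simpa only [sub_neg_eq_add] using this
  have x0 : 0 ≤ s / r := by positivity
  have t0 := tel_nonneg x0
  have c1 : ∀ t ∈ Icc r (2 * r), |t - s| / 2 ≤ ch (t - s) := fun t ht =>
    le_ch' (by rw [abs_le]; constructor <;> linarith only [hr, hs1, ht, hr1, hs, h3, ht.1, ht.2])
  have c2 : ∀ t ∈ Icc r (2 * r), (t + s) / 3 ≤ ch (t + s) := fun t ht =>
    le_ch3 (by linarith only [hr, hs, ht, ht.1]) (by linarith only [hr1, hs1, ht, ht.2])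
  rcases le_or_gt s (r / 2) with h1 | h1
  · refine (abs_II_le' hr hi 0 (8 * (s / r)) fun t ht => ?_).trans ?_
    · have a1 := c1 t (Ioc_subset_Icc_self ht)
      have a2 := c2 t (Ioc_subset_Icc_self ht)
      rw [abs_of_nonneg (by linarith only [hr, h1, ht, ht.1])] at a1
      have a3 := abs_log_sub_log_le (η := r / 4) (p := ch (t - s)) (q := ch (t + s))
        (by positivity) (by linarith only [h1, a1, ht, ht.1]) (by linarith only [hr, hs, a2, ht, ht.1])
      have a4 := abs_ch_sub_ch (t - s) (t + s)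
      rw [show t - s - (t + s) = -(2 * s) by ring, abs_neg,
        abs_of_nonneg (show 0 ≤ 2 * s by positivity)] at a4
      rw [sub_zero]
      refine a3.trans ?_
      rw [div_le_iff₀ (by positivity)]
      refine a4.trans (le_of_eq ?_)
      field_simp; ring
    · have := le_tel x0 (by rw [div_le_iff₀ hr]; linarith only [hr, h1])
      (refine le_of_not_gt fun h_nl => ?_; linarith only [h_nl, t0, this, hr, hr1, hL, mul_pos_of_neg_of_neg (Mathlib.Tactic.Linarith.sub_neg_of_lt hr) (Mathlib.Tactic.Linarith.sub_neg_of_lt h_nl), mul_nonneg_of_nonpos_of_nonpos (Mathlib.Tactic.Linarith.sub_nonpos_of_le hr1) (le_of_lt (Mathlib.Tactic.Linarith.sub_neg_of_lt h_nl)), mul_nonneg_of_nonpos_of_nonpos (Mathlib.Tactic.Linarith.sub_nonpos_of_le hL) (Mathlib.Tactic.Linarith.sub_nonpos_of_le t0)])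
  rcases le_or_gt (4 * r) s with h2 | h2
  · have s0 : 0 < s := by linarith only [hr, h1]
    refine (abs_II_le' hr hi (lg (r - s) - lg (r + s)) (8 * (1 / (s / r))) fun t ht => ?_).trans ?_
    · have m : r ∈ Icc r (2 * r) := ⟨le_rfl, by linarith only [hr]⟩
      have a1 := c1 t (Ioc_subset_Icc_self ht)
      have a2 := c2 t (Ioc_subset_Icc_self ht)
      have b1 := c1 r m
      have b2 := c2 r m
      rw [abs_of_nonpos (by linarith only [hr, h2, ht, ht.2])] at a1
      rw [abs_of_nonpos (by linarith only [h1, h2])] at b1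
      have a3 := abs_log_sub_log_le (η := s / 4) (p := ch (t - s)) (q := ch (r - s))
        (by positivity) (by linarith only [h2, a1, ht, ht.2]) (by linarith only [hr, h2, b1])
      have a4 := abs_log_sub_log_le (η := s / 4) (p := ch (t + s)) (q := ch (r + s))
        (by positivity) (by linarith only [hr, hs, a2, ht, ht.1]) (by linarith only [hr, hs, b2])
      have a5 := abs_ch_sub_ch (t - s) (r - s)
      have a6 := abs_ch_sub_ch (t + s) (r + s)
      rw [sub_sub_sub_cancel_right, abs_of_nonneg (show 0 ≤ t - r by linarith only [ht, ht.1])] at a5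
      rw [add_sub_add_right_eq_sub, abs_of_nonneg (show 0 ≤ t - r by linarith only [ht, ht.1])] at a6
      have a7 : |ch (t - s) - ch (r - s)| / (s / 4) ≤ r / (s / 4) := by
        gcongr; linarith only [a5, ht, ht.2]
      have a8 : |ch (t + s) - ch (r + s)| / (s / 4) ≤ r / (s / 4) := by
        gcongr; linarith only [a6, ht, ht.2]
      have a9 : 8 * (1 / (s / r)) = r / (s / 4) + r / (s / 4) := by field_simp; ring
      have := abs_sub (lg (t - s) - lg (r - s)) (lg (t + s) - lg (r + s))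
      rw [show lg (t - s) - lg (t + s) - (lg (r - s) - lg (r + s)) =
        lg (t - s) - lg (r - s) - (lg (t + s) - lg (r + s)) by ring]
      simp only [lg] at this ⊢
      linarith only [a3, a4, a7, a8, a9, this]
    · have := le_tel' (show 1 ≤ s / r by rw [le_div_iff₀ hr]; linarith only [h1, h2])
      (refine le_of_not_gt fun h_nl => ?_; linarith only [h_nl, t0, this, hr, hr1, hL, mul_pos_of_neg_of_neg (Mathlib.Tactic.Linarith.sub_neg_of_lt hr) (Mathlib.Tactic.Linarith.sub_neg_of_lt h_nl), mul_nonneg_of_nonpos_of_nonpos (Mathlib.Tactic.Linarith.sub_nonpos_of_le hr1) (le_of_lt (Mathlib.Tactic.Linarith.sub_neg_of_lt h_nl)), mul_nonneg_of_nonpos_of_nonpos (Mathlib.Tactic.Linarith.sub_nonpos_of_le hL) (Mathlib.Tactic.Linarith.sub_nonpos_of_le t0)])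
  · have il : ∀ a b, IntervalIntegrable (fun x => |Real.log x|) volume a b := fun a b =>
      intervalIntegral.intervalIntegrable_log'.abs
    have il2 : IntervalIntegrable (fun t => |Real.log ((t - s) / r)|) volume r (2 * r) := by
      have := ((il (r⁻¹ * (r - s)) (r⁻¹ * (2 * r - s))).comp_mul_left (c := r⁻¹)).comp_sub_right s
      simp only [mul_div_cancel_left₀ _ (inv_ne_zero hr.ne'), sub_add_cancel] at this
      simpa only [div_eq_inv_mul] using this
    refine (abs_II_le hr hi (il2.add (intervalIntegrable_const (c := 7))) 0 ?_).trans ?_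
    · filter_upwards [(countable_singleton s).ae_notMem volume] with t hts ht
      have a0 : 0 < |t - s| := abs_pos.2 (sub_ne_zero.2 hts)
      have a1 := c1 t (Ioc_subset_Icc_self ht)
      have a2 := c2 t (Ioc_subset_Icc_self ht)
      have a3 := ch_le_abs (t - s)
      have a4 := ch_le_abs (t + s)
      rw [abs_of_pos (by linarith only [hr, hs, ht, ht.1])] at a4
      have a5 := abs_log_sub_log_le (η := |t - s| / 2) (p := ch (t - s)) (q := |t - s|)
        (by positivity) a1 (by linarith only [a0])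
      have a6 : |ch (t - s) - (|t - s|)| / (|t - s| / 2) ≤ 1 := by
        rw [div_le_one (by positivity), abs_le]; constructor <;> linarith only [a1, a0, a3]
      have a7 := abs_log_sub_log_le (η := r / 2) (p := r) (q := ch (t + s))
        (by positivity) (by linarith only [hr]) (by linarith only [h1, a2, ht, ht.1])
      have a8 : |r - ch (t + s)| / (r / 2) ≤ 10 := by
        rw [div_le_iff₀ (by positivity), abs_le]; constructor <;> linarith only [h2, a4, ht, hr, a2, ht.1, ht.2]
      have a9 : Real.log r - Real.log (ch (t + s)) ≤ 6 ∧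
          -6 ≤ Real.log r - Real.log (ch (t + s)) := by
        have p : 0 < ch (t + s) := by linarith only [hr, h1, a2, ht, ht.1]
        rw [← Real.log_div hr.ne' p.ne']
        have b1 := Real.log_le_sub_one_of_pos (show 0 < r / ch (t + s) by positivity)
        have b2 := Real.one_sub_inv_le_log_of_pos (show 0 < r / ch (t + s) by positivity)
        have b3 : r / ch (t + s) ≤ 2 := by rw [div_le_iff₀ p]; linarith only [h1, a2, ht, ht.1]
        have b4 : (r / ch (t + s))⁻¹ ≤ 6 := by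
          rw [inv_div, div_le_iff₀ hr]; linarith only [h2, a4, ht, ht.2]
        constructor <;> linarith only [hr, hr1, b1, b3, b2, b4]
      rw [Real.log_div (sub_ne_zero.2 hts) hr.ne', ← Real.log_abs (t - s), sub_zero, lg, lg]
      have b1 := abs_le.1 (a5.trans a6)
      have b2 := le_abs_self (Real.log |t - s| - Real.log r)
      have b3 := neg_abs_le (Real.log |t - s| - Real.log r)
      rw [abs_le]; constructor <;> linarith only [a9, b1, b3, b2, a9.1, a9.2]
    · rw [intervalIntegral.integral_add il2 intervalIntegrable_const,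
        intervalIntegral.integral_const, smul_eq_mul]
      have e : ∫ t in r..(2 * r), |Real.log ((t - s) / r)| ≤ r * L1 := by
        rw [intervalIntegral.integral_comp_sub_right (fun t => |Real.log (t / r)|) s,
          intervalIntegral.integral_comp_div (fun t => |Real.log t|) hr.ne', smul_eq_mul, L1]
        gcongr
        refine intervalIntegral.integral_mono_interval ?_ ?_ ?_
          (Eventually.of_forall fun _ => abs_nonneg _) (il _ _)
        · rw [le_div_iff₀ hr]; linarith only [hr, h2]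
        · gcongr; linarith only [hr]
        · rw [div_le_iff₀ hr]; linarith only [hr, hs]
      have a : 1 / r * ((∫ t in r..(2 * r), |Real.log ((t - s) / r)|) + (2 * r - r) * 7) ≤
          L1 + 7 := by
        rw [div_mul_eq_mul_div, one_mul, div_le_iff₀ hr]; linarith only [e]
      have b := le_tel x0 (by rw [div_le_iff₀ hr]; linarith only [h2])
      have c : 1 / 2 ≤ s / r := by rw [le_div_iff₀ hr]; linarith only [h1]
      (refine le_of_not_gt fun h_nl => ?_; linarith only [h_nl, hr1, a, b, c, hr, hL, mul_pos_of_neg_of_neg (Mathlib.Tactic.Linarith.sub_neg_of_lt hr) (Mathlib.Tactic.Linarith.sub_neg_of_lt hr), mul_nonneg_of_nonpos_of_nonpos (le_of_lt (Mathlib.Tactic.Linarith.sub_neg_of_lt hr)) (Mathlib.Tactic.Linarith.sub_nonpos_of_le hr1), mul_pos_of_neg_of_neg (Mathlib.Tactic.Linarith.sub_neg_of_lt hr) (Mathlib.Tactic.Linarith.sub_neg_of_lt h_nl), mul_nonneg_of_nonpos_of_nonpos (Mathlib.Tactic.Linarith.sub_nonpos_of_le hr1) (le_of_lt (Mathlib.Tactic.Linarith.sub_neg_of_lt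 h_nl)), mul_nonneg_of_nonpos_of_nonpos (Mathlib.Tactic.Linarith.sub_nonpos_of_le hL) (Mathlib.Tactic.Linarith.sub_nonpos_of_le b), mul_nonneg_of_nonpos_of_nonpos (Mathlib.Tactic.Linarith.sub_nonpos_of_le hL) (Mathlib.Tactic.Linarith.sub_nonpos_of_le c)])

lemma conj_ww (N : ℕ) (s : ℝ) : |∫ t in (0 : ℝ)..(2 * π), lg (t - s) * ww N t| ≤ 90 * (L1 + 8) := by
  have hL := L1_nonneg
  have e0 : ∀ s t : ℝ, lg (2 * π - t - s) = lg (t + s) := fun s t => by
    rw [← lg_neg (t + s), ← lg_periodic (-(t + s))]; congr 1; ring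
  have key : ∀ s, ∫ t in (0 : ℝ)..(2 * π), lg (t - s) * ww N t =
      ∑ k ∈ Finset.range N, II (rr (k + 1)) fun t => lg (t - s) - lg (t + s) := fun s => by
    have := (pair_ww N (F := fun t => lg (t - s)) (fun k => intervalIntegrable_lg_sub _ _ _)
      fun k => by
        simpa only [e0, sub_neg_eq_add] using intervalIntegrable_lg_sub (-s) _ _).2
    simpa only [e0] using this
  have pos : ∀ s, 0 ≤ s → s ≤ π →
      |∫ t in (0 : ℝ)..(2 * π), lg (t - s) * ww N t| ≤ 90 * (L1 + 8) := fun s h0 h1 => by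
    rw [key]
    refine (Finset.abs_sum_le_sum_abs _ _).trans ((Finset.sum_le_sum fun k _ =>
      II_lg (rr_pos (k + 1)) (by rw [rr_succ]; linarith only [rr_le_one k]) h0 h1).trans ?_)
    rw [← Finset.mul_sum]
    exact mul_le_of_le_one_right (by positivity) (sum_tel h0 N)
  obtain ⟨n, h1, h2⟩ := exists_window (-π) s
  have e1 : ∀ t, lg (t - s) = lg (t - (s + n * (2 * π))) := fun t => by
    rw [← lg_periodic.int_mul n (t - (s + n * (2 * π)))]; congr 1; ring
  simp only [e1]
  generalize s + n * (2 * π) = σ at h1 h2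
  rcases le_total 0 σ with h | h
  · exact pos σ h (by linarith)
  · have := pos (-σ) (by linarith) (by linarith)
    rw [key] at this ⊢
    rw [← abs_neg, ← Finset.sum_neg_distrib]
    convert this using 3 with k
    simp only [II, sub_neg_eq_add, ← sub_eq_add_neg]
    rw [← mul_neg, neg_sub', ← intervalIntegral.integral_neg, ← intervalIntegral.integral_neg]
    simp only [neg_sub]

end Pool.Agent.Work.MP_af796d_an
end
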