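import Pool.Agent.Work.MP_af796d_an.Mod2

set_option autoImplicit false

namespace Pool.Agent.Work.MP_af796d_an

open MeasureTheory Set Real Filter Topology Metric

lemma Good.exists_homeo {Φ : ℝ → ℝ} (h : Good Φ) :
    ∃ ψ : Circle ≃ₜ Circle, ∀ t, ψ (Circle.exp t) = Circle.exp (Φ t) := by
  let f : Circle → Circle := fun z => Circle.exp (Φ (Complex.arg z))
  have hf : ∀ t, f (Circle.exp t) = Circle.exp (Φ t) := fun t => by
    obtain ⟨n, hn⟩ := Circle.exp_eq_exp.1 (Circle.exp_arg (Circle.exp t))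
    refine Circle.exp_eq_exp.2 ⟨n, ?_⟩
    rw [hn, h.per_int]
  have hq : IsQuotientMap Circle.exp :=
    Circle.isCoveringMap_exp.isOpenMap.isQuotientMap Circle.exp.continuous Circle.exp_surjective
  have hc : Continuous f := hq.continuous_iff.2 (by
    rw [show f ∘ Circle.exp = fun t => Circle.exp (Φ t) from funext hf]
    exact Circle.exp.continuous.comp h.cont)
  have hb : Function.Bijective f := by
    constructor
    · intro z w e
      obtain ⟨s, rfl⟩ := Circle.exp_surjective z
      obtain ⟨t, rfl⟩ := Circle.exp_surjective w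
      rw [hf, hf] at e
      obtain ⟨n, hn⟩ := Circle.exp_eq_exp.1 e
      rw [← h.per_int] at hn
      exact Circle.exp_eq_exp.2 ⟨n, h.mono.injective hn⟩
    · intro z
      obtain ⟨s, rfl⟩ := Circle.exp_surjective z
      obtain ⟨t, rfl⟩ := h.surj s
      exact ⟨_, hf t⟩
  exact ⟨Continuous.homeoOfEquivCompactToT2 (f := Equiv.ofBijective f hb) hc, hf⟩

/-- Gluing functions with disjoint supports. -/
lemma exists_glue {ι : Type} (f : ι → ℝ → ℝ) (g : ℝ → ℝ → ℝ) (g0 : ∀ s t, 0 ≤ g s t)
    (hd : ∀ i j t, f i t ≠ 0 → f j t ≠ 0 → i = j) (hg : ∀ i s t, |f i s - f i t| ≤ g s t) :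
    ∃ δ : ℝ → ℝ, (∀ s t, |δ s - δ t| ≤ 2 * g s t) ∧
      (∀ i t, (∀ j, f j t ≠ 0 → j = i) → δ t = f i t) := by
  classical
  let δ : ℝ → ℝ := fun t => if h : ∃ i, f i t ≠ 0 then f h.choose t else 0
  have h1 : ∀ i t, (∀ j, f j t ≠ 0 → j = i) → δ t = f i t := fun i t h => by
    by_cases h' : ∃ i, f i t ≠ 0
    · simp only [δ, dif_pos h', h _ h'.choose_spec]
    · simp only [δ, dif_neg h']
      exact (not_not.1 fun e => h' ⟨i, e⟩).symm
  have h2 : ∀ i t, f i t ≠ 0 → δ t = f i t := fun i t h => h1 i t fun j hj => hd j i t hj h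
  have h3 : ∀ t, (¬∃ i, f i t ≠ 0) → δ t = 0 := fun t h => by simp only [δ, dif_neg h]
  refine ⟨δ, fun s t => ?_, h1⟩
  have := g0 s t
  by_cases hs : ∃ i, f i s ≠ 0 <;> by_cases ht : ∃ i, f i t ≠ 0
  · obtain ⟨i, hi⟩ := hs
    obtain ⟨j, hj⟩ := ht
    rw [h2 i s hi, h2 j t hj]
    by_cases e : i = j
    · subst e; linarith [hg i s t]
    · have a := hg i s t
      have b := hg j s t
      rw [not_not.1 fun h => e (hd i j t h hj), sub_zero] at a
      rw [not_not.1 fun h => e (hd i j s hi h), zero_sub, abs_neg] at b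
      linarith [abs_sub (f i s) (f j t)]
  · obtain ⟨i, hi⟩ := hs
    have a := hg i s t
    rw [not_not.1 fun h => ht ⟨i, h⟩] at a
    rw [h2 i s hi, h3 t ht]; linarith
  · obtain ⟨i, hi⟩ := ht
    have a := hg i s t
    rw [not_not.1 fun h => hs ⟨i, h⟩] at a
    rw [h2 i t hi, h3 s hs]; linarith
  · rw [h3 s hs, h3 t ht, sub_zero, abs_zero]; linarith

/-- One period of a sine wave on `[r, 3r/2]`. -/
noncomputable def fb (r x : ℝ) : ℝ := Real.sin (4 * π / r * max r (min x (3 * r / 2)))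

lemma fb_left {r x : ℝ} (hr : 0 < r) (h : x ≤ r) : fb r x = 0 := by
  rw [fb, max_eq_left ((min_le_left _ _).trans h),
    show 4 * π / r * r = (4 : ℕ) * π by field_simp; norm_num, Real.sin_nat_mul_pi]

lemma fb_right {r x : ℝ} (hr : 0 < r) (h : 3 * r / 2 ≤ x) : fb r x = 0 := by
  rw [fb, min_eq_right h, max_eq_right (by linarith only [hr]),
    show 4 * π / r * (3 * r / 2) = (6 : ℕ) * π by field_simp; norm_num, Real.sin_nat_mul_pi]

lemma fb_mid {r x : ℝ} (h1 : r ≤ x) (h2 : x ≤ 3 * r / 2) : fb r x = Real.sin (4 * π / r * x) := by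
  rw [fb, min_eq_left h2, max_eq_right h1]

lemma fb_lip {r : ℝ} (hr : 0 < r) (x y : ℝ) : |fb r x - fb r y| ≤ 16 / r * |x - y| := by
  refine (Real.abs_sin_sub_sin_le _ _).trans ?_
  rw [← mul_sub, abs_mul, abs_of_pos (by positivity)]
  refine mul_le_mul (by gcongr; linarith [pi_le_four]) ?_ (abs_nonneg _) (by positivity)
  refine (abs_max_sub_max_le_max _ _ _ _).trans (max_le (by simp) ?_)
  exact (abs_min_sub_min_le_max _ _ _ _).trans (max_le le_rfl (by simp))

lemma fb_mod {ω : ℝ → ℝ} (hω : IsModulus ω) {r : ℝ} (hr : 0 < r) (x y : ℝ) :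
    ω r * |fb r x - fb r y| ≤ 32 * ω |x - y| := by
  have a0 := hω.nonneg hr.le
  have a1 := hω.nonneg (abs_nonneg (x - y))
  rcases le_or_gt r |x - y| with h | h
  · have a2 := hω.le hr.le h
    have a3 : |fb r x - fb r y| ≤ 2 := (abs_sub _ _).trans (by
      linarith [show |fb r x| ≤ 1 from Real.abs_sin_le_one _,
        show |fb r y| ≤ 1 from Real.abs_sin_le_one _])
    linarith only [a1, a2, a0, a3, mul_nonneg_of_nonpos_of_nonpos (Mathlib.Tactic.Linarith.sub_nonpos_of_le a0) (Mathlib.Tactic.Linarith.sub_nonpos_of_le a3)]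
  rcases (abs_nonneg (x - y)).eq_or_lt with h0 | h0
  · have := fb_lip hr x y
    rw [← h0, mul_zero] at this
    nlinarith
  · have a2 := hω.mul (t := |x - y|) (c := r / |x - y|) h0.le (by positivity)
    rw [div_mul_cancel₀ _ h0.ne'] at a2
    have a3 : 1 ≤ r / |x - y| := by rw [le_div_iff₀ h0]; linarith
    calc ω r * |fb r x - fb r y| ≤ (2 * (r / |x - y|) * ω |x - y|) * (16 / r * |x - y|) :=
          mul_le_mul (by linarith only [a2, a1, a3, mul_nonneg_of_nonpos_of_nonpos (Mathlib.Tactic.Linarith.sub_nonpos_of_le a1) (Mathlib.Tactic.Linarith.sub_nonpos_of_le a3)]) (fb_lip hr x y) (abs_nonneg _) (by positivity)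
      _ = _ := by field_simp; ring

lemma fb_index {k j : ℕ} {n m : ℤ} {t : ℝ} (h1 : rr (k + 1) ≤ t - n * (2 * π))
    (h2 : t - n * (2 * π) ≤ 2 * rr (k + 1)) (h : fb (rr (j + 1)) (t - m * (2 * π)) ≠ 0) :
    (j, m) = (k, n) := by
  have a1 : rr (j + 1) < t - m * (2 * π) := not_le.1 fun e => h (fb_left (rr_pos _) e)
  have a2 : t - m * (2 * π) < 3 * rr (j + 1) / 2 := not_le.1 fun e => h (fb_right (rr_pos _) e)
  have b1 := rr_pos (j + 1)
  have b2 := rr_pos (k + 1)
  have b3 : rr (j + 1) ≤ 1 / 2 := by rw [rr_succ]; linarith only [rr_le_one j]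
  have b4 : rr (k + 1) ≤ 1 / 2 := by rw [rr_succ]; linarith only [rr_le_one k]
  have h3 := pi_gt_three
  have e : m = n := by
    rcases lt_trichotomy m n with h | h | h
    · have : (m : ℝ) + 1 ≤ n := by exact_mod_cast h
      nlinarith
    · exact h
    · have : (n : ℝ) + 1 ≤ m := by exact_mod_cast h
      nlinarith
  subst e
  rcases lt_trichotomy j k with h | h | h
  · have := rr_anti (show j + 1 ≤ k from h)
    rw [rr_succ k] at h2
    linarith only [a1, h2, this]
  · rw [h]
  · have := rr_anti (show k + 1 ≤ j from h)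
    rw [rr_succ j] at a2
    linarith only [a1, a2, b1, h1, this]

lemma lg_gain {t p r : ℝ} (ht : 0 < t) (hp : 0 ≤ p) (h : t + p ≤ 2 * r) (hr : r ≤ 1 / 2) :
    p / (8 * r) ≤ lg (t + p) - lg t := by
  have h3 := pi_gt_three
  have a0 : 0 < ch t := ch_pos ht (by linarith only [hp, h, hr, h3])
  have a1 : 0 < ch (t + p) := ch_pos (by linarith) (by linarith)
  have a2 : ch (t + p) ≤ 2 * r := (ch_le_abs _).trans (by rw [abs_of_pos (by linarith)]; exact h)
  have a3 : p / 4 ≤ ch (t + p) - ch t := by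
    rw [ch_eq_sin (by linarith) (by linarith only [h, hr, h3]), ch_eq_sin ht.le (by linarith), ← mul_sub,
      Real.sin_sub_sin]
    have b1 := Real.mul_le_sin (x := ((t + p) / 2 - t / 2) / 2) (by linarith) (by linarith only [ht, h, hr, h3])
    have b2 := Real.one_sub_sq_div_two_le_cos (x := ((t + p) / 2 + t / 2) / 2)
    have b3 : (1 : ℝ) / 2 ≤ 2 / π := by
      rw [div_le_div_iff₀ (by norm_num) pi_pos]; linarith only [pi_le_four]
    have b4 : p / 8 ≤ Real.sin (((t + p) / 2 - t / 2) / 2) := by linarith only [b1, hp, b3, mul_nonneg_of_nonpos_of_nonpos (Mathlib.Tactic.Linarith.sub_nonpos_of_le hp) (Mathlib.Tactic.Linarith.sub_nonpos_of_le b3)]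
    have b5 : 1 / 2 ≤ Real.cos (((t + p) / 2 + t / 2) / 2) := by linarith only [hp, h, hr, b2, ht, mul_nonneg_of_nonpos_of_nonpos (le_of_lt (Mathlib.Tactic.Linarith.sub_neg_of_lt ht)) (Mathlib.Tactic.Linarith.sub_nonpos_of_le hp), mul_nonneg_of_nonpos_of_nonpos (le_of_lt (Mathlib.Tactic.Linarith.sub_neg_of_lt ht)) (Mathlib.Tactic.Linarith.sub_nonpos_of_le h), mul_nonneg_of_nonpos_of_nonpos (le_of_lt (Mathlib.Tactic.Linarith.sub_neg_of_lt ht)) (Mathlib.Tactic.Linarith.sub_nonpos_of_le hr), mul_nonneg_of_nonpos_of_nonpos (Mathlib.Tactic.Linarith.sub_nonpos_of_le hp) (Mathlib.Tactic.Linarith.sub_nonpos_of_le h), mul_nonneg_of_nonpos_of_nonpos (Mathlib.Tactic.Linarith.sub_nonpos_of_le hp) (Mathlib.Tactic.Linarith.sub_nonpos_of_le hr)]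
    linarith only [b4, hp, b5, mul_nonneg_of_nonpos_of_nonpos (Mathlib.Tactic.Linarith.sub_nonpos_of_le hp) (Mathlib.Tactic.Linarith.sub_nonpos_of_le b5), mul_nonneg_of_nonpos_of_nonpos (Mathlib.Tactic.Linarith.sub_nonpos_of_le b4) (Mathlib.Tactic.Linarith.sub_nonpos_of_le b5)]
  have a4 := Real.one_sub_inv_le_log_of_pos (show 0 < ch (t + p) / ch t by positivity)
  rw [Real.log_div a1.ne' a0.ne', inv_div, one_sub_div a1.ne'] at a4
  refine le_trans ?_ a4
  calc p / (8 * r) = p / 4 / (2 * r) := by ring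
    _ ≤ _ := by gcongr; linarith only [hp, a3]

theorem exists_bad {ω : ℝ → ℝ} (hω : IsModulus ω) : ∃ (ε : ℝ) (Φ d : ℝ → ℝ), 0 < ε ∧
    GoodMod ω Φ d (64 * ε) ∧ Φ 0 = 0 ∧ (∀ t, 1 ≤ t → t ≤ 2 * π → Φ t = t) ∧
    ∀ k, ε * ω (rr (k + 1)) / 256 ≤ II (rr (k + 1)) fun t => lg (Φ t) - lg t := by
  have h3 := pi_gt_three
  have w1 := hω.nonneg zero_le_one
  set ε := 1 / (2 * (ω 1 + 1)) with hε
  have ε0 : 0 < ε := by positivity
  have a0 : ∀ k, 0 ≤ ε * ω (rr (k + 1)) := fun k => mul_nonneg ε0.le (hω.nonneg (rr_pos _).le)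
  have a1 : ∀ k, ε * ω (rr (k + 1)) ≤ 1 / 2 := fun k => by
    have := hω.le (rr_pos (k + 1)).le (rr_le_one _)
    rw [hε, div_mul_eq_mul_div, div_le_iff₀ (by positivity)]
    linarith only [this]
  let f : ℕ × ℤ → ℝ → ℝ := fun i t =>
    ε * ω (rr (i.1 + 1)) * fb (rr (i.1 + 1)) (t - i.2 * (2 * π))
  have idx : ∀ (i : ℕ × ℤ) t, rr (i.1 + 1) ≤ t - i.2 * (2 * π) →
      t - i.2 * (2 * π) ≤ 2 * rr (i.1 + 1) → ∀ j, f j t ≠ 0 → j = i :=
    fun i t h1 h2 j hj => fb_index h1 h2 (right_ne_zero_of_mul hj)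
  have hd : ∀ i j t, f i t ≠ 0 → f j t ≠ 0 → i = j := fun i j t hi hj => by
    have hj' := right_ne_zero_of_mul hj
    have := rr_pos (j.1 + 1)
    exact idx j t (le_of_not_ge fun e => hj' (fb_left this e))
      (le_of_not_ge fun e => hj' (fb_right this (by linarith only [this, e]))) i hi
  obtain ⟨δ, md, hδ⟩ := exists_glue f (fun s t => 32 * ε * ω |s - t|)
    (fun s t => by have := hω.nonneg (abs_nonneg (s - t)); positivity) hd fun i s t => by
      have := fb_mod hω (rr_pos (i.1 + 1)) (s - i.2 * (2 * π)) (t - i.2 * (2 * π))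
      rw [sub_sub_sub_cancel_right] at this
      simp only [f]
      rw [← mul_sub, abs_mul, abs_of_nonneg (a0 _), mul_assoc]
      linarith only [ε0, this, mul_nonneg_of_nonpos_of_nonpos (le_of_lt (Mathlib.Tactic.Linarith.sub_neg_of_lt ε0)) (Mathlib.Tactic.Linarith.sub_nonpos_of_le this)]
  have md' : ∀ s t, |δ s - δ t| ≤ 64 * ε * ω |s - t| := fun s t => (md s t).trans_eq (by ring)
  have hc := hω.continuous_of md'
  have ex : ∀ t, ∃ i, ∀ j, f j t ≠ 0 → j = i := fun t => by
    by_cases h : ∃ i, f i t ≠ 0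
    · exact h.imp fun i hi j hj => hd j i t hj hi
    · exact ⟨(0, 0), fun j hj => absurd ⟨j, hj⟩ h⟩
  have bd : ∀ t, |δ t| ≤ 1 / 2 := fun t => by
    obtain ⟨i, hi⟩ := ex t
    rw [hδ i t hi, abs_mul, abs_of_nonneg (a0 _)]
    exact (mul_le_of_le_one_right (a0 _) (Real.abs_sin_le_one _)).trans (a1 _)
  have per : Function.Periodic δ (2 * π) := fun t => by
    have e : ∀ i : ℕ × ℤ, f (i.1, i.2 + 1) (t + 2 * π) = f i t := fun i => by
      simp only [f]; congr 2; push_cast; ring
    obtain ⟨i, hi⟩ := ex t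
    rw [hδ i t hi, hδ (i.1, i.2 + 1) _ (fun j hj => ?_), e]
    rw [show j = (j.1, j.2 - 1 + 1) by simp] at hj
    rw [← hi _ (e (j.1, j.2 - 1) ▸ hj)]
    simp
  let P : ℝ → ℝ := fun t => ∫ s in (0 : ℝ)..t, δ s
  have dP : ∀ t, HasDerivAt P (δ t) t := fun t => (hc.integral_hasStrictDerivAt 0 t).hasDerivAt
  have cP : Continuous P := continuous_iff_continuousAt.2 fun t => (dP t).continuousAt
  have sub : ∀ a b, P b = P a + ∫ s in a..b, δ s := fun a b =>
    (intervalIntegral.integral_add_adjacent_intervals (hc.intervalIntegrable _ _)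
      (hc.intervalIntegrable _ _)).symm
  have blk : ∀ k t, t ∈ Icc (rr (k + 1)) (2 * rr (k + 1)) →
      δ t = ε * ω (rr (k + 1)) * fb (rr (k + 1)) t := fun k t ht => by
    simpa [f] using hδ (k, 0) t (idx (k, 0) t (by simpa using ht.1) (by simpa using ht.2))
  have up : ∀ k t, t ∈ Icc (rr (k + 1)) (3 * rr (k + 1) / 2) → P t = P (rr (k + 1)) +
      ε * ω (rr (k + 1)) * rr (k + 1) / (4 * π) * (1 - Real.cos (4 * π / rr (k + 1) * t)) :=
    fun k t ht => by
      have hr := rr_pos (k + 1)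
      rw [sub (rr (k + 1)) t, intervalIntegral.integral_congr
        (g := fun s => ε * ω (rr (k + 1)) * Real.sin (4 * π / rr (k + 1) * s)) fun s hs => by
          rw [uIcc_of_le ht.1] at hs
          rw [blk k s ⟨hs.1, by linarith only [hr, hs, ht, hs.2, ht.2]⟩, fb_mid hs.1 (hs.2.trans ht.2)],
        intervalIntegral.integral_const_mul,
        intervalIntegral.integral_comp_mul_left _ (by positivity), integral_sin,
        show 4 * π / rr (k + 1) * rr (k + 1) = (2 : ℕ) * (2 * π) by field_simp; norm_num,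
        Real.cos_nat_mul_two_pi, smul_eq_mul]
      field_simp
  have down : ∀ k t, t ∈ Icc (3 * rr (k + 1) / 2) (2 * rr (k + 1)) → P t = P (rr (k + 1)) :=
    fun k t ht => by
      have hr := rr_pos (k + 1)
      rw [sub (3 * rr (k + 1) / 2) t, up k _ ⟨by linarith, le_rfl⟩,
        intervalIntegral.integral_congr (g := fun _ => 0) fun s hs => by
          rw [uIcc_of_le ht.1] at hs
          rw [blk k s ⟨by linarith [hs.1], hs.2.trans ht.2⟩, fb_right hr hs.1, mul_zero],
        show 4 * π / rr (k + 1) * (3 * rr (k + 1) / 2) = (3 : ℕ) * (2 * π) by field_simp; norm_num,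
        Real.cos_nat_mul_two_pi]
      simp
  have P0 : P 0 = 0 := by simp [P]
  have Pr : ∀ k, P (rr k) = 0 := by
    have e : ∀ k, P (rr k) = P (rr 0) := fun k => by
      induction k with
      | zero => rfl
      | succ k ih =>
        have hr := rr_pos (k + 1)
        rw [← down k _ ⟨by linarith, le_rfl⟩, ← ih, rr_succ, mul_div_cancel₀ _ two_ne_zero]
    have := (cP.tendsto 0).comp tendsto_rr
    rw [show P ∘ rr = fun _ => P (rr 0) from funext e, tendsto_const_nhds_iff] at this
    intro k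
    rw [e, this, P0]
  have P1 : ∀ t, 1 ≤ t → t ≤ 2 * π → P t = 0 := fun t h1 h2 => by
    rw [sub 1 t, ← rr_zero, Pr, rr_zero, intervalIntegral.integral_congr (g := fun _ => 0)
      fun s hs => ?_]
    · simp
    rw [uIcc_of_le h1] at hs
    obtain ⟨i, hi⟩ := ex s
    have hr := rr_pos (i.1 + 1)
    have hr' : rr (i.1 + 1) ≤ 1 / 2 := by rw [rr_succ]; linarith only [rr_le_one i.1]
    rw [hδ i s hi]
    refine mul_eq_zero_of_right _ ?_
    rcases le_or_gt i.2 0 with h | h
    · have : (i.2 : ℝ) ≤ 0 := by exact_mod_cast h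
      exact fb_right hr (by linarith only [hr, hr', this, hs, h3, hs.1, mul_nonneg_of_nonpos_of_nonpos (le_of_lt (Mathlib.Tactic.Linarith.sub_neg_of_lt h3)) (Mathlib.Tactic.Linarith.sub_nonpos_of_le this)])
    · have : (1 : ℝ) ≤ i.2 := by exact_mod_cast h
      exact fb_left hr (by linarith only [h2, hr, this, hs, h3, hs.2, mul_nonneg_of_nonpos_of_nonpos (le_of_lt (Mathlib.Tactic.Linarith.sub_neg_of_lt h3)) (Mathlib.Tactic.Linarith.sub_nonpos_of_le this)])
  have dΦ : ∀ t, HasDerivAt (fun t => t + P t) (1 + δ t) t := fun t => (hasDerivAt_id' t).add (dP t)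
  have pos : ∀ t, 0 < 1 + δ t := fun t => by linarith only [bd, neg_abs_le (δ t), bd t]
  refine ⟨ε, fun t => t + P t, fun t => 1 + δ t, ε0, ⟨⟨by fun_prop,
    strictMono_of_deriv_pos fun t => by rw [(dΦ t).deriv]; exact pos t, fun t => ?_⟩, dΦ, pos,
    fun s t => by simpa using md' s t⟩, by simp [P0], fun t h1 h2 => by simp [P1 t h1 h2],
    fun k => ?_⟩
  · have := per.intervalIntegral_add_eq t 0
    rw [zero_add] at this
    rw [sub t (t + 2 * π), this, show ∫ s in (0 : ℝ)..2 * π, δ s = 0 from P1 _ (by linarith only [h3]) le_rfl]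
    ring
  have hr := rr_pos (k + 1)
  have hr' : rr (k + 1) ≤ 1 / 2 := by rw [rr_succ]; linarith only [rr_le_one k]
  have a2 := a0 k
  have a3 := a1 k
  simp only [Pr, zero_add] at up down
  replace up := up k
  replace down := down k
  generalize rr (k + 1) = r at *
  generalize ε * ω r = a at *
  have bdP : ∀ t ∈ Icc r (3 * r / 2), 0 ≤ P t ∧ t + P t ≤ 2 * r := fun t ht => by
    have b1 := Real.cos_le_one (4 * π / r * t)
    have b2 := Real.neg_one_le_cos (4 * π / r * t)
    have b3 : a * r / (4 * π) ≤ r / 4 := by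
      rw [div_le_div_iff₀ (by positivity) (by norm_num)]; linarith only [h3, hr, hr', a3, mul_pos_of_neg_of_neg (Mathlib.Tactic.Linarith.sub_neg_of_lt h3) (Mathlib.Tactic.Linarith.sub_neg_of_lt hr), mul_pos_of_neg_of_neg (Mathlib.Tactic.Linarith.sub_neg_of_lt hr) (Mathlib.Tactic.Linarith.sub_neg_of_lt hr), mul_nonneg_of_nonpos_of_nonpos (le_of_lt (Mathlib.Tactic.Linarith.sub_neg_of_lt hr)) (Mathlib.Tactic.Linarith.sub_nonpos_of_le hr'), mul_nonneg_of_nonpos_of_nonpos (le_of_lt (Mathlib.Tactic.Linarith.sub_neg_of_lt hr)) (Mathlib.Tactic.Linarith.sub_nonpos_of_le a3)]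
    have b4 : 0 ≤ a * r / (4 * π) := by positivity
    rw [up t ht]
    exact ⟨by positivity, by (refine le_of_not_gt fun h_nl => ?_; linarith only [h_nl, ht, hr, b2, hr', b1, b3, ht.2, mul_nonneg_of_nonpos_of_nonpos (le_of_lt (Mathlib.Tactic.Linarith.sub_neg_of_lt hr)) (Mathlib.Tactic.Linarith.sub_nonpos_of_le b2), mul_pos_of_neg_of_neg (Mathlib.Tactic.Linarith.sub_neg_of_lt hr) (Mathlib.Tactic.Linarith.sub_neg_of_lt h_nl), mul_nonneg_of_nonpos_of_nonpos (Mathlib.Tactic.Linarith.sub_nonpos_of_le hr') (le_of_lt (Mathlib.Tactic.Linarith.sub_neg_of_lt h_nl)), mul_nonneg_of_nonpos_of_nonpos (Mathlib.Tactic.Linarith.sub_nonpos_of_le b1) (Mathlib.Tactic.Linarith.sub_nonpos_of_le b3)])⟩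
  have cl : ContinuousOn lg (Icc r (2 * r)) := continuous_ch.continuousOn.log fun t ht =>
    (ch_pos (by linarith only [hr, ht, ht.1]) (by linarith only [h3, hr, hr', ht, ht.2])).ne'
  have i1 : ∫ t in r..(3 * r / 2), P t / (8 * r) ≤ ∫ t in r..(3 * r / 2), (lg (t + P t) - lg t) := by
    refine intervalIntegral.integral_mono_on (by linarith only [hr]) ((cP.div_const _).intervalIntegrable _ _)
      (ContinuousOn.intervalIntegrable_of_Icc (by linarith only [hr]) ((cl.comp (by fun_prop) fun t ht =>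
        ⟨by linarith only [ht, bdP, ht.1, (bdP t ht).1], (bdP t ht).2⟩).sub
          (cl.mono (Icc_subset_Icc_right (by linarith only [hr]))))) fun t ht =>
      lg_gain (by linarith only [hr, ht, ht.1]) (bdP t ht).1 (bdP t ht).2 hr'
  have i2 : ∫ t in r..(3 * r / 2), P t / (8 * r) = a * r / (64 * π) := by
    rw [intervalIntegral.integral_div, intervalIntegral.integral_congr
      (g := fun t => a * r / (4 * π) * (1 - Real.cos (4 * π / r * t))) fun t ht =>
        up t (by rwa [uIcc_of_le (by linarith only [hr])] at ht), intervalIntegral.integral_const_mul,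
      intervalIntegral.integral_sub intervalIntegrable_const
        (Continuous.intervalIntegrable (by fun_prop) _ _),
      intervalIntegral.integral_comp_mul_left _ (by positivity), integral_cos,
      show 4 * π / r * r = (4 : ℕ) * π by field_simp; norm_num,
      show 4 * π / r * (3 * r / 2) = (6 : ℕ) * π by field_simp; norm_num,
      Real.sin_nat_mul_pi, Real.sin_nat_mul_pi]
    simp only [intervalIntegral.integral_const, smul_eq_mul]
    field_simp
    ring
  rw [II, intervalIntegral.integral_congr (a := 3 * r / 2) (g := fun _ => 0) fun t ht => by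
    simp [down t (by rwa [uIcc_of_le (by linarith only [hr])] at ht)]]
  simp only [intervalIntegral.integral_zero, sub_zero]
  calc a / 256 ≤ 1 / r * (a * r / (64 * π)) := by
        rw [show 1 / r * (a * r / (64 * π)) = a / (64 * π) by field_simp]
        gcongr; linarith only [pi_le_four]
    _ ≤ _ := by gcongr; rwa [← i2]

theorem summable_of_eq {ω : ℝ → ℝ} (hω : IsModulus ω)
    (h : ∀ ψ : Circle ≃ₜ Circle, IsC1Mod ω ψ → ReA = (fun u : Circle → ℝ => u ∘ ψ) '' ReA) :
    Summable fun k => ω (rr k) := by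
  have h3 := pi_gt_three
  obtain ⟨ε, Φ, d, ε0, hΦ, Φ0, Φ1, hII⟩ := exists_bad hω
  obtain ⟨ψ, hψ⟩ := hΦ.good.exists_homeo
  obtain ⟨Θ, hΘ, e, hP⟩ := reduce ψ.symm
  obtain ⟨M, -, hM⟩ := (hP.1 ((eq_iff_both ψ).1
    (h ψ ⟨Φ, d, _, hψ, hΦ.der, fun t => (hΦ.pos t).ne', hΦ.md⟩)).2).test hΘ
  have e' : ∀ t, lg (Θ t - Θ 0) = lg (Φ t) := fun t => by
    rw [← e, Homeomorph.symm_symm, chordLog_of_lift (Or.inl hψ), Φ0, sub_zero]
  have e2 : ∀ k, ∀ t ∈ uIcc (rr (k + 1)) (2 * rr (k + 1)), lg (Φ (2 * π - t)) = lg t :=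
    fun k t ht => by
      have hr := rr_pos (k + 1)
      have hr' : rr (k + 1) ≤ 1 / 2 := by rw [rr_succ]; linarith only [rr_le_one k]
      rw [uIcc_of_le (by linarith)] at ht
      rw [Φ1 _ (by linarith [ht.2]) (by linarith [ht.1]), ← lg_neg t, ← lg_periodic (-t)]
      congr 1; ring
  have i1 : ∀ k, IntervalIntegrable (fun t => lg (Φ t)) volume (rr (k + 1)) (2 * rr (k + 1)) :=
    fun k => by
      have hr := rr_pos (k + 1)
      have hr' : rr (k + 1) ≤ 1 / 2 := by rw [rr_succ]; linarith [rr_le_one k]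
      refine ContinuousOn.intervalIntegrable_of_Icc (by linarith)
        ((continuous_ch.comp hΦ.good.cont).continuousOn.log fun t ht => ?_)
      have := hΦ.good.sub_mem (y := 0) (t := t) (by linarith [ht.1]) (by linarith [ht.2])
      rw [Φ0, sub_zero] at this
      exact (ch_pos this.1 this.2).ne'
  have i2 : ∀ k, IntervalIntegrable (fun t => lg (Φ (2 * π - t))) volume (rr (k + 1))
      (2 * rr (k + 1)) := fun k =>
    (intervalIntegrable_lg _ _).congr fun t ht => (e2 k t (uIoc_subset_uIcc ht)).symm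
  rw [← summable_nat_add_iff 1]
  refine summable_of_sum_range_le (c := 256 / ε * (M * (90 * (L1 + 8))))
    (fun k => hω.nonneg (rr_pos _).le) fun N => ?_
  obtain ⟨j1, j2⟩ := pair_ww N i1 i2
  have j0 := (pair_ww N (F := fun _ => 1) (fun _ => intervalIntegrable_const)
    fun _ => intervalIntegrable_const).2
  simp only [one_mul, II_const, Finset.sum_const_zero] at j0
  have := hM (ww N) _ (90 * (L1 + 8)) 0 (measurable_ww N) (abs_ww_le N) (by rwa [zero_add])
    (by simpa only [zero_add, e'] using j1)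
    (fun x hx => (primitive_ww N (by rwa [zero_add] at hx)).trans (by linarith [L1_nonneg]))
    (fun s => by rw [zero_add]; exact conj_ww N s)
  simp only [zero_add, e'] at this
  rw [j2] at this
  have j3 : ∑ k ∈ Finset.range N, ε * ω (rr (k + 1)) / 256 ≤ M * (90 * (L1 + 8)) := by
    refine le_trans (Finset.sum_le_sum fun k _ => (hII k).trans_eq ?_) ((le_abs_self _).trans this)
    have hr := rr_pos (k + 1)
    rw [II_sub hr (i1 k) (i2 k), II_sub hr (i1 k) (intervalIntegrable_lg _ _)]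
    congr 1
    simp only [II]
    rw [intervalIntegral.integral_congr (f := fun t => lg (Φ (2 * π - t))) (g := lg) fun t ht =>
        e2 k t (uIcc_subset_uIcc_left (mem_uIcc_of_le (by linarith only [hr]) (by linarith)) ht),
      intervalIntegral.integral_congr (f := fun t => lg (Φ (2 * π - t))) (g := lg) fun t ht =>
        e2 k t (uIcc_subset_uIcc_right (mem_uIcc_of_le (by linarith) (by linarith)) ht)]
  rw [← Finset.sum_div, ← Finset.mul_sum] at j3
  rw [div_mul_eq_mul_div, le_div_iff₀ ε0]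
  linarith only [j3]

theorem dini_iff {ω : ℝ → ℝ} (hω : IsModulus ω) :
    IntegrableOn (fun t => ω t / t) (Ioc 0 1) ↔ Summable fun k => ω (rr k) := by
  have hU : Ioc (0 : ℝ) 1 = ⋃ k, Ioc (rr (k + 1)) (rr k) := by
    refine Subset.antisymm (fun t ht => ?_) (iUnion_subset fun k =>
      Ioc_subset_Ioc (rr_pos _).le (rr_le_one k))
    have hex : ∃ k, rr k < t := (tendsto_rr.eventually (gt_mem_nhds ht.1)).exists
    classical
    have h1 := Nat.find_spec hex
    rcases h : Nat.find hex with _ | k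
    · rw [h, rr_zero] at h1; exact absurd ht.2 (not_le.2 h1)
    · exact mem_iUnion.2 ⟨k, h ▸ h1, not_lt.1 (Nat.find_min hex (by omega))⟩
  have hi : ∀ k, IntegrableOn (fun t => ω t / t) (Ioc (rr (k + 1)) (rr k)) := fun k => by
    have a := ((hω.mono.mono fun t (ht : t ∈ Icc (rr (k + 1)) (rr k)) =>
      (rr_pos _).le.trans ht.1).integrableOn_isCompact (μ := volume) isCompact_Icc).mul_continuousOn
      (g' := fun t => t⁻¹) (continuousOn_id.inv₀ fun t ht => ((rr_pos _).trans_le ht.1).ne')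
      isCompact_Icc
    simpa only [div_eq_mul_inv] using a.mono_set Ioc_subset_Icc_self
  have vol : ∀ k, volume.real (Ioc (rr (k + 1)) (rr k)) = rr (k + 1) := fun k => by
    rw [Real.volume_real_Ioc_of_le (rr_succ_le k), rr_succ]; ring
  rw [hU]
  constructor
  · intro h
    have hs := (hasSum_integral_iUnion (fun _ => measurableSet_Ioc) (fun i j hij => ?_) h).summable
    · rw [← summable_nat_add_iff 1]
      refine (hs.mul_left 2).of_nonneg_of_le (fun k => hω.nonneg (rr_pos _).le) fun k => ?_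
      have := setIntegral_ge_of_const_le_real (c := ω (rr (k + 1)) / rr k) measurableSet_Ioc
        measure_Ioc_lt_top.ne (fun t ht => ?_) (hi k)
      · rw [vol, rr_succ k] at this
        have e : ω (rr k / 2) / rr k * (rr k / 2) = ω (rr k / 2) / 2 := by
          have := rr_pos k; field_simp
        rw [rr_succ k]
        linarith only [this, e]
      · have t0 := (rr_pos _).trans ht.1
        have := hω.nonneg t0.le
        gcongr
        · exact hω.le (rr_pos _).le ht.1.le
        · exact ht.2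
    · refine Ioc_disjoint_Ioc.2 ?_
      rcases lt_or_gt_of_ne hij with h | h
      · exact (min_le_right _ _).trans ((rr_anti h).trans (le_max_left _ _))
      · exact (min_le_left _ _).trans ((rr_anti h).trans (le_max_right _ _))
  · intro h
    refine integrableOn_iUnion_of_summable_integral_norm hi (h.of_nonneg_of_le
      (fun k => integral_nonneg fun _ => norm_nonneg _) fun k => ?_)
    have := norm_setIntegral_le_of_norm_le_const (μ := volume) (f := fun t => ‖ω t / t‖)
      (C := ω (rr k) / rr (k + 1)) (s := Ioc (rr (k + 1)) (rr k)) measure_Ioc_lt_top fun t ht => by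
        have t0 := (rr_pos _).trans ht.1
        have := hω.nonneg t0.le
        have := hω.nonneg (rr_pos k).le
        have := rr_pos (k + 1)
        rw [norm_norm, Real.norm_of_nonneg (by positivity)]
        gcongr
        · exact hω.le t0.le ht.2
        · exact ht.1.le
    rw [vol, div_mul_cancel₀ _ (rr_pos _).ne'] at this
    exact (le_abs_self _).trans this

end Pool.Agent.Work.MP_af796d_an
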