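import Pool.Agent.Work.MP_af796d_an.Defs
import Mathlib

-- merged part: Pool.Agent.Work.MP_af796d_an.Chord
section
set_option autoImplicit false

namespace Pool.Agent.Work.MP_af796d_an

open MeasureTheory Set Real

/-- `e^{it}` as a complex number. -/
noncomputable def ex (t : ℝ) : ℂ := Complex.exp (Complex.I * t)

/-- chord length `|e^{it} - 1|`. -/
noncomputable def ch (t : ℝ) : ℝ := ‖ex t - 1‖

/-- `log |e^{it} - 1|`. -/
noncomputable def lg (t : ℝ) : ℝ := Real.log (ch t)

lemma coe_exp_eq (t : ℝ) : (Circle.exp t : ℂ) = ex t := by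
  rw [Circle.coe_exp, ex, mul_comm]

lemma norm_ex (t : ℝ) : ‖ex t‖ = 1 := by
  rw [← coe_exp_eq]; exact Circle.norm_coe _

lemma ex_ne_zero (t : ℝ) : ex t ≠ 0 := Complex.exp_ne_zero _

lemma ex_add (s t : ℝ) : ex (s + t) = ex s * ex t := by
  simp only [ex, ← Complex.exp_add]; congr 1; push_cast; ring

lemma ex_zero : ex 0 = 1 := by simp [ex]

lemma ex_two_pi : ex (2 * π) = 1 := by
  rw [← coe_exp_eq, Circle.exp_two_pi]; rfl

lemma ex_periodic : Function.Periodic ex (2 * π) := fun t => by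
  rw [ex_add, ex_two_pi, mul_one]

lemma ex_neg_mul (t : ℝ) : ex (-t) * ex t = 1 := by
  rw [← ex_add]; simp [ex_zero]

lemma conj_ex (t : ℝ) : (starRingEnd ℂ) (ex t) = ex (-t) := by
  simp only [ex, ← Complex.exp_conj]; congr 1; simp

@[fun_prop]
lemma continuous_ex : Continuous ex := by unfold ex; fun_prop

@[fun_prop]
lemma measurable_ex : Measurable ex := continuous_ex.measurable

lemma hasDerivAt_ex (t : ℝ) : HasDerivAt ex (Complex.I * ex t) t := by
  have h : HasDerivAt (fun s : ℝ => Complex.I * (s : ℂ)) (Complex.I * 1) t :=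
    (Complex.ofRealCLM.hasDerivAt (x := t)).const_mul Complex.I
  have := h.cexp
  simp only [mul_one] at this
  unfold ex
  rw [mul_comm]
  exact this

lemma exists_ex (z : Circle) : ∃ t : ℝ, Circle.exp t = z := Circle.exp_surjective z

lemma exists_ex_of_norm {z : ℂ} (hz : ‖z‖ = 1) : ∃ t : ℝ, ex t = z := by
  refine ⟨z.arg, ?_⟩
  have := Complex.norm_mul_exp_arg_mul_I z
  rw [hz] at this
  simpa [ex, mul_comm] using this

lemma norm_ex_sub_ex (t s : ℝ) : ‖ex t - ex s‖ = ch (t - s) := by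
  have : ex t - ex s = ex s * (ex (t - s) - 1) := by
    rw [mul_sub, ← ex_add]; simp
  rw [this, norm_mul, norm_ex, one_mul, ch]

lemma ch_eq (t : ℝ) : ch t = 2 * |Real.sin (t / 2)| := by
  rw [ch, ex, Complex.norm_exp_I_mul_ofReal_sub_one, Real.norm_eq_abs, abs_mul]; simp

lemma ch_nonneg (t : ℝ) : 0 ≤ ch t := norm_nonneg _

lemma ch_neg (t : ℝ) : ch (-t) = ch t := by
  rw [ch_eq, ch_eq, neg_div, Real.sin_neg, abs_neg]

lemma ch_abs (t : ℝ) : ch |t| = ch t := by
  rcases abs_cases t with h | h <;> rw [h.1]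
  exact ch_neg t

lemma ch_le_two (t : ℝ) : ch t ≤ 2 := by
  rw [ch_eq]; have := Real.abs_sin_le_one (t / 2); linarith only [this]

lemma ch_le_abs (t : ℝ) : ch t ≤ |t| := by
  simpa [ch, ex] using Real.norm_exp_I_mul_ofReal_sub_one_le (x := t)

lemma ch_periodic : Function.Periodic ch (2 * π) := fun t => by
  simp only [ch, ex_periodic t]

@[fun_prop]
lemma continuous_ch : Continuous ch := by unfold ch; fun_prop

lemma ch_eq_sin {t : ℝ} (h0 : 0 ≤ t) (h1 : t ≤ 2 * π) : ch t = 2 * Real.sin (t / 2) := by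
  rw [ch_eq, abs_of_nonneg]
  exact Real.sin_nonneg_of_nonneg_of_le_pi (by linarith only [h0]) (by linarith)

lemma ch_pos {t : ℝ} (h0 : 0 < t) (h1 : t < 2 * π) : 0 < ch t := by
  rw [ch_eq_sin h0.le h1.le]
  have := Real.sin_pos_of_pos_of_lt_pi (x := t / 2) (by linarith only [h0]) (by linarith)
  linarith

lemma le_ch {t : ℝ} (h : |t| ≤ π) : 2 / π * |t| ≤ ch t := by
  rw [← ch_abs, ch_eq_sin (abs_nonneg t) (by linarith [pi_pos])]
  have := Real.mul_le_sin (x := |t| / 2) (by positivity) (by linarith only [h])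
  linarith only [this]

lemma le_ch' {t : ℝ} (h : |t| ≤ π) : |t| / 2 ≤ ch t := by
  refine le_trans ?_ (le_ch h)
  have h4 : π ≤ 4 := pi_le_four
  have : (1 : ℝ) / 2 ≤ 2 / π := by
    rw [div_le_div_iff₀ (by norm_num) pi_pos]; linarith
  linarith only [this, abs_nonneg t, mul_nonneg_of_nonpos_of_nonpos (Mathlib.Tactic.Linarith.sub_nonpos_of_le this) (Mathlib.Tactic.Linarith.sub_nonpos_of_le (abs_nonneg t))]

lemma ch_monoOn : MonotoneOn ch (Icc 0 π) := by
  intro a ha b hb hab
  rw [ch_eq_sin ha.1 (by linarith [ha.2, pi_pos]), ch_eq_sin hb.1 (by linarith [hb.2, pi_pos])]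
  have := Real.sin_le_sin_of_le_of_le_pi_div_two (x := a / 2) (y := b / 2)
    (by linarith only [ha, ha.1, pi_pos]) (by linarith [hb.2]) (by linarith)
  linarith only [this]

lemma abs_ch_sub_ch (a b : ℝ) : |ch a - ch b| ≤ |a - b| := by
  have h1 : |ch a - ch b| ≤ ‖(ex a - 1) - (ex b - 1)‖ := abs_norm_sub_norm_le _ _
  rw [sub_sub_sub_cancel_right, norm_ex_sub_ex] at h1
  exact h1.trans (ch_le_abs _)

lemma ch_eq_zero_iff {t : ℝ} : ch t = 0 ↔ ∃ n : ℤ, t = n * (2 * π) := by
  rw [ch, norm_eq_zero, sub_eq_zero, ← coe_exp_eq, ← Circle.exp_eq_one]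
  constructor
  · intro h; exact Subtype.ext h
  · intro h; rw [h]; rfl

lemma countable_ch_zero (s : ℝ) : {t : ℝ | ch (t - s) = 0}.Countable := by
  refine (Set.countable_range (fun n : ℤ => s + n * (2 * π))).mono ?_
  intro t ht
  obtain ⟨n, hn⟩ := ch_eq_zero_iff.1 ht
  exact ⟨n, by simp only; linarith⟩

lemma lg_neg (t : ℝ) : lg (-t) = lg t := by simp only [lg, ch_neg]

lemma lg_periodic : Function.Periodic lg (2 * π) := fun t => by
  simp only [lg, ch_periodic t]

@[fun_prop]
lemma measurable_lg : Measurable lg := by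
  unfold lg; exact Real.measurable_log.comp continuous_ch.measurable

lemma lg_le (t : ℝ) : lg t ≤ 1 := by
  have h := ch_le_two t
  have h0 := ch_nonneg t
  rcases h0.eq_or_lt with h0 | h0
  · rw [lg, ← h0]; simp
  · have := Real.log_le_sub_one_of_pos h0
    rw [lg]; linarith

lemma intervalIntegrable_lg (a b : ℝ) : IntervalIntegrable lg volume a b := by
  have h' : AnalyticOnNhd ℝ (fun t : ℝ => 2 * Real.sin (t / 2)) (uIcc a b) := by
    intro t _
    fun_prop
  have := h'.meromorphicOn.intervalIntegrable_log_norm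
  refine this.congr ?_
  intro t _
  simp only [lg, ch_eq, Real.norm_eq_abs, abs_mul]
  simp

/-- `∫ |lg|` over one period. -/
noncomputable def L0 : ℝ := ∫ t in (0 : ℝ)..(2 * π), |lg t|

lemma abs_lg_periodic : Function.Periodic (fun t => |lg t|) (2 * π) := fun t => by
  simp only [lg_periodic t]

lemma integral_abs_lg (a s : ℝ) : ∫ t in a..(a + 2 * π), |lg (t - s)| = L0 := by
  rw [intervalIntegral.integral_comp_sub_right (fun t => |lg t|) s, L0]
  have := abs_lg_periodic.intervalIntegral_add_eq (a - s) 0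
  rw [zero_add] at this
  rw [← this]; congr 1; ring

lemma L0_nonneg : 0 ≤ L0 :=
  intervalIntegral.integral_nonneg (by positivity) fun _ _ => abs_nonneg _

/-- uniform integrability of the translates of `lg`. -/
lemma lg_unif (ε : ℝ) (hε : 0 < ε) :
    ∃ h > 0, ∀ a b : ℝ, a ≤ b → b - a ≤ h → ∫ t in a..b, |lg t| ≤ ε := by
  have hint : ∀ a b, IntervalIntegrable (fun t => |lg t|) volume a b :=
    fun a b => (intervalIntegrable_lg a b).abs
  set P : ℝ → ℝ := fun x => ∫ t in (0 : ℝ)..x, |lg t| with hP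
  have hPc : Continuous P := intervalIntegral.continuous_primitive hint 0
  have huc : UniformContinuousOn P (Icc 0 (2 * π + 1)) :=
    isCompact_Icc.uniformContinuousOn_of_continuous hPc.continuousOn
  obtain ⟨δ, hδ, hδ'⟩ := Metric.uniformContinuousOn_iff.1 huc ε hε
  refine ⟨min (δ / 2) 1, by positivity, fun a b hab hba => ?_⟩
  have h2 : (0 : ℝ) < 2 * π := by positivity
  set n : ℤ := ⌊a / (2 * π)⌋ with hn
  have hn1 : (n : ℝ) * (2 * π) ≤ a := by
    have := Int.floor_le (a / (2 * π))
    rwa [le_div_iff₀ h2] at this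
  have hn2 : a < (n + 1) * (2 * π) := by
    have := Int.lt_floor_add_one (a / (2 * π))
    rwa [div_lt_iff₀ h2] at this
  have hper : ∀ t, |lg (t + n * (2 * π))| = |lg t| := fun t => abs_lg_periodic.int_mul n t
  have e1 : ∫ t in a..b, |lg t| = ∫ t in (a - n * (2 * π))..(b - n * (2 * π)), |lg t| := by
    rw [← intervalIntegral.integral_comp_sub_right (fun t => |lg t|)]
    congr 1; ext t
    rw [← hper (t - n * (2 * π))]; simp
  have hb1 : b - a ≤ 1 := hba.trans (min_le_right _ _)
  have hb2 : b - a ≤ δ / 2 := hba.trans (min_le_left _ _)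
  have := hδ' (b - n * (2 * π)) ⟨by linarith only [hab, hn1], by linarith only [hn2, hb1]⟩ (a - n * (2 * π))
    ⟨by linarith only [hn1], by linarith only [hn2]⟩ (by rw [Real.dist_eq, abs_lt]; constructor <;> linarith only [hδ, hab, hb2])
  rw [e1, ← intervalIntegral.integral_interval_sub_left (a := 0) (hint _ _) (hint _ _)]
  rw [Real.dist_eq] at this
  exact (le_abs_self _).trans this.le

lemma chordLog_id (y t : ℝ) : chordLog id y t = lg (t - y) := by
  simp only [chordLog, id, coe_exp_eq, norm_ex_sub_ex, lg]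

lemma logPot_eq (ν : Measure ℝ) (t : ℝ) : logPot ν t = ∫ s, lg (t - s) ∂ν := by
  simp only [logPot, coe_exp_eq, norm_ex_sub_ex, lg]

end Pool.Agent.Work.MP_af796d_an
end

-- merged part: Pool.Agent.Work.MP_af796d_an.Lift
section
set_option autoImplicit false

namespace Pool.Agent.Work.MP_af796d_an

open MeasureTheory Set Real Filter Topology

/-- lifts of orientation preserving homeomorphisms of the circle. -/
structure Good (Φ : ℝ → ℝ) : Prop where
  cont : Continuous Φ
  mono : StrictMono Φ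
  per : ∀ t, Φ (t + 2 * π) = Φ t + 2 * π

lemma good_id : Good id := ⟨continuous_id, strictMono_id, fun _ => rfl⟩

lemma Good.sub_mem {Φ : ℝ → ℝ} (h : Good Φ) {y t : ℝ} (h1 : y < t) (h2 : t < y + 2 * π) :
    0 < Φ t - Φ y ∧ Φ t - Φ y < 2 * π := by
  have a := h.mono h1
  have b := h.mono h2
  rw [h.per] at b
  constructor <;> linarith only [a, b]

lemma Good.per_int {Φ : ℝ → ℝ} (h : Good Φ) (n : ℤ) (t : ℝ) :
    Φ (t + n * (2 * π)) = Φ t + n * (2 * π) := by
  have hp : Function.Periodic (fun t => Φ t - t) (2 * π) := fun t => by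
    simp only [h.per]; ring
  have := hp.int_mul n t
  linarith

lemma Good.surj {Φ : ℝ → ℝ} (h : Good Φ) : Function.Surjective Φ := by
  intro x
  have h2 : (0 : ℝ) < 2 * π := by positivity
  set n : ℤ := ⌊(x - Φ 0) / (2 * π)⌋
  have hn1 : (n : ℝ) * (2 * π) ≤ x - Φ 0 := by
    have := Int.floor_le ((x - Φ 0) / (2 * π))
    rwa [le_div_iff₀ h2] at this
  have hn2 : x - Φ 0 < (n + 1) * (2 * π) := by
    have := Int.lt_floor_add_one ((x - Φ 0) / (2 * π))
    rwa [div_lt_iff₀ h2] at this
  have a := h.per_int n 0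
  have b := h.per_int (n + 1) 0
  push_cast at b
  have := intermediate_value_univ (0 + n * (2 * π)) (0 + (n + 1) * (2 * π)) h.cont
    (show x ∈ Icc _ _ from ⟨by rw [a]; linarith, by rw [b]; linarith⟩)
  exact this

lemma Good.exists_ex {Φ : ℝ → ℝ} (h : Good Φ) {z : ℂ} (hz : ‖z‖ = 1) : ∃ y, ex (Φ y) = z := by
  obtain ⟨t, ht⟩ := exists_ex_of_norm hz
  obtain ⟨y, hy⟩ := h.surj t
  exact ⟨y, by rw [hy, ht]⟩

lemma Good.lg_periodic {Φ : ℝ → ℝ} (h : Good Φ) (y : ℝ) :
    Function.Periodic (fun t => lg (Φ t - Φ y)) (2 * π) := fun t => by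
  simp only [h.per]
  rw [show Φ t + 2 * π - Φ y = Φ t - Φ y + 2 * π by ring, Pool.Agent.Work.MP_af796d_an.lg_periodic]

/-- reduction of `y` to a fundamental window. -/
lemma exists_window (a y : ℝ) : ∃ n : ℤ, a ≤ y + n * (2 * π) ∧ y + n * (2 * π) < a + 2 * π := by
  have h2 : (0 : ℝ) < 2 * π := by positivity
  set n : ℤ := ⌊(y - a) / (2 * π)⌋
  have hn1 : (n : ℝ) * (2 * π) ≤ y - a := by
    have := Int.floor_le ((y - a) / (2 * π))
    rwa [le_div_iff₀ h2] at this
  have hn2 : y - a < (n + 1) * (2 * π) := by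
    have := Int.lt_floor_add_one ((y - a) / (2 * π))
    rwa [div_lt_iff₀ h2] at this
  refine ⟨-n, ?_, ?_⟩ <;> push_cast <;> linarith only [hn1, hn2]

/-- uniform lower bound of chords away from the diagonal. -/
lemma Good.chord_lower {Φ : ℝ → ℝ} (h : Good Φ) {r : ℝ} (hr : 0 < r) :
    ∃ η > 0, ∀ y t, r ≤ t → t ≤ 2 * π - r → η ≤ ch (Φ (y + t) - Φ y) := by
  by_cases hne : r ≤ 2 * π - r
  swap
  · exact ⟨1, one_pos, fun y t h1 h2 => absurd (h1.trans h2) hne⟩
  have hc : Continuous (fun p : ℝ × ℝ => ch (Φ (p.1 + p.2) - Φ p.1)) := by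
    have := h.cont; fun_prop
  obtain ⟨p, hp, hmin⟩ := (isCompact_Icc.prod isCompact_Icc).exists_isMinOn
    (s := Icc 0 (2 * π) ×ˢ Icc r (2 * π - r))
    ⟨(0, r), ⟨⟨le_rfl, by positivity⟩, ⟨le_rfl, hne⟩⟩⟩ hc.continuousOn
  have hpos := h.sub_mem (y := p.1) (t := p.1 + p.2) (by linarith [hp.2.1]) (by linarith [hp.2.2])
  refine ⟨_, ch_pos hpos.1 hpos.2, fun y t h1 h2 => ?_⟩
  obtain ⟨n, hn1, hn2⟩ := exists_window 0 y
  have := hmin (show (y + n * (2 * π), t) ∈ Icc 0 (2 * π) ×ˢ Icc r (2 * π - r) from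
    ⟨⟨hn1, by linarith⟩, ⟨h1, h2⟩⟩)
  simp only [mem_ofPred_eq] at this
  rw [show y + n * (2 * π) + t = y + t + n * (2 * π) by ring, h.per_int, h.per_int] at this
  simpa using this

/-- uniform smallness of increments. -/
lemma Good.incr_small {Φ : ℝ → ℝ} (h : Good Φ) {ε : ℝ} (hε : 0 < ε) :
    ∃ r > 0, ∀ y t, 0 ≤ t → t ≤ r → Φ (y + t) - Φ y ≤ ε := by
  have huc : UniformContinuousOn Φ (Icc 0 (2 * π + 1)) :=
    isCompact_Icc.uniformContinuousOn_of_continuous h.cont.continuousOn
  obtain ⟨δ, hδ, hδ'⟩ := Metric.uniformContinuousOn_iff.1 huc ε hε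
  refine ⟨min (δ / 2) 1, by positivity, fun y t h0 h1 => ?_⟩
  obtain ⟨n, hn1, hn2⟩ := exists_window 0 y
  have h1a := h1.trans (min_le_left _ _)
  have h1b := h1.trans (min_le_right _ _)
  have := hδ' (y + n * (2 * π) + t) ⟨by linarith only [h0, hn1], by linarith⟩ (y + n * (2 * π))
    ⟨by linarith, by linarith only [hn2]⟩ (by rw [Real.dist_eq, abs_lt]; constructor <;> linarith only [hδ, h0, h1a])
  rw [show y + n * (2 * π) + t = y + t + n * (2 * π) by ring, h.per_int, h.per_int,
    Real.dist_eq] at this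
  have := (le_abs_self _).trans this.le
  linarith

lemma exists_cont_lift (φ : Circle → Circle) (hφ : Continuous φ) :
    ∃ Φ : ℝ → ℝ, Continuous Φ ∧ ∀ t, φ (Circle.exp t) = Circle.exp (Φ t) := by
  obtain ⟨e, he⟩ := Circle.exp_surjective (φ (Circle.exp 0))
  obtain ⟨F, hF, -⟩ := Circle.isCoveringMap_exp.existsUnique_continuousMap_lifts
    (⟨fun t : ℝ => φ (Circle.exp t), by fun_prop⟩ : C(ℝ, Circle)) 0 e he
  exact ⟨F, F.continuous, fun t => (congrFun hF.2 t).symm⟩

lemma good_of_pos {φ : Circle → Circle} (_hinj : Function.Injective φ) {Φ : ℝ → ℝ}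
    (hc : Continuous Φ) (hl : ∀ t, φ (Circle.exp t) = Circle.exp (Φ t))
    (hpos : ∀ s t, s < t → t < s + 2 * π → 0 < Φ t - Φ s ∧ Φ t - Φ s < 2 * π) : Good Φ := by
  have hper : ∀ t, Φ (t + 2 * π) = Φ t + 2 * π := by
    intro t
    have e : Circle.exp (Φ (t + 2 * π)) = Circle.exp (Φ t) := by
      rw [← hl, ← hl, Circle.exp_add_two_pi]
    obtain ⟨m, hm⟩ := Circle.exp_eq_exp.1 e
    have a := hpos t (t + π) (by linarith [pi_pos]) (by linarith [pi_pos])
    have b := hpos (t + π) (t + 2 * π) (by linarith [pi_pos]) (by linarith [pi_pos])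
    have h0 : (0 : ℝ) < m * (2 * π) := by linarith
    have h2 : (m : ℝ) * (2 * π) < 2 * (2 * π) := by linarith
    have h0' : (0 : ℝ) < m := by
      by_contra hh; push Not at hh; linarith only [hm, a, b, hh, pi_pos, mul_nonneg_of_nonpos_of_nonpos (le_of_lt (Mathlib.Tactic.Linarith.sub_neg_of_lt a.left)) (Mathlib.Tactic.Linarith.sub_nonpos_of_le hh), mul_nonneg_of_nonpos_of_nonpos (le_of_lt (Mathlib.Tactic.Linarith.sub_neg_of_lt a.right)) (Mathlib.Tactic.Linarith.sub_nonpos_of_le hh)]
    have h2' : (m : ℝ) < 2 := lt_of_mul_lt_mul_right h2 (by positivity)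
    have : m = 1 := by
      have a1 : (0 : ℤ) < m := by exact_mod_cast h0'
      have a2 : m < 2 := by exact_mod_cast h2'
      omega
    rw [hm, this]; simp
  refine ⟨hc, ?_, hper⟩
  have hp : Function.Periodic (fun t => Φ t - t) (2 * π) := fun t => by
    simp only [hper]; ring
  intro s t hst
  obtain ⟨n, hn1, hn2⟩ := exists_window s t
  have e := hp.int_mul n t
  have hn0 : (n : ℝ) * (2 * π) < 2 * π := by linarith
  have hn : n ≤ 0 := by
    have : (n : ℝ) < 1 := by
      by_contra hh; push Not at hh; linarith only [hst, hn2, hn1, hh, pi_pos, mul_nonneg_of_nonpos_of_nonpos (Mathlib.Tactic.Linarith.sub_nonpos_of_le hn1) (Mathlib.Tactic.Linarith.sub_nonpos_of_le hh), mul_nonneg_of_nonpos_of_nonpos (le_of_lt (Mathlib.Tactic.Linarith.sub_neg_of_lt hn2)) (Mathlib.Tactic.Linarith.sub_nonpos_of_le hh)]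
    have : n < 1 := by exact_mod_cast this
    omega
  rcases hn1.eq_or_lt with h1 | h1
  · have : (n : ℝ) * (2 * π) < 0 := by linarith
    rw [← h1] at e; linarith
  · have := (hpos s _ h1 hn2).1
    have hn' : (n : ℝ) * (2 * π) ≤ 0 :=
      mul_nonpos_of_nonpos_of_nonneg (by exact_mod_cast hn) (by positivity)
    linarith

lemma exists_good_lift (φ : Circle → Circle) (hφ : Continuous φ) (hinj : Function.Injective φ) :
    ∃ Φ : ℝ → ℝ, Good Φ ∧ ((∀ t, φ (Circle.exp t) = Circle.exp (Φ t)) ∨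
      (∀ t, (φ (Circle.exp t))⁻¹ = Circle.exp (Φ t))) := by
  obtain ⟨Φ, hc, hl⟩ := exists_cont_lift φ hφ
  -- the difference avoids multiples of 2π on the strip
  have havoid : ∀ s t, s < t → t < s + 2 * π → ∀ m : ℤ, Φ t - Φ s ≠ m * (2 * π) := by
    intro s t h1 h2 m hm
    have e : Circle.exp (Φ t) = Circle.exp (Φ s) := Circle.exp_eq_exp.2 ⟨m, by linarith⟩
    rw [← hl, ← hl] at e
    have := Circle.exp_injOn_Ico (a := s) (b := s + 2 * π) (by linarith)
      ⟨h1.le, h2⟩ ⟨le_rfl, by linarith [pi_pos]⟩ (hinj e)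
    linarith
  set S : Set (ℝ × ℝ) := {p | p.1 < p.2 ∧ p.2 < p.1 + 2 * π} with hS
  have hconv : Convex ℝ S := by
    intro p hp q hq a b ha hb hab
    simp only [hS, mem_ofPred_eq, Prod.fst_add, Prod.snd_add, Prod.smul_fst, Prod.smul_snd,
      smul_eq_mul] at hp hq ⊢
    rcases ha.eq_or_lt with ha | ha
    · subst ha; simp at hab; subst hab; simpa using hq
    · constructor <;> linarith only [hq, hb, hp, ha, hab, hp.1, hp.2, hq.1, hq.2, mul_le_mul_of_nonneg_left hq.1.le hb,
        mul_le_mul_of_nonneg_left hq.2.le hb, mul_pos_of_neg_of_neg (Mathlib.Tactic.Linarith.sub_neg_of_lt hp.left) (Mathlib.Tactic.Linarith.sub_neg_of_lt ha), Mathlib.Tactic.Linarith.zero_mul_eq (sub_eq_zero_of_eq hab) (Mathlib.Tactic.Linarith.sub_neg_of_lt hp.left), Mathlib.Tactic.Linarith.zero_mul_eq (sub_eq_zero_of_eq hab) (Mathlib.Tactic.Linarith.sub_neg_of_lt hp.right), mul_pos_of_neg_of_neg (Mathlib.Tactic.Linarith.sub_neg_of_lt hp.right) (Mathlib.Tactic.Linarith.sub_neg_of_lt ha)]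
  have hD : Continuous (fun p : ℝ × ℝ => Φ p.2 - Φ p.1) := by fun_prop
  have hIVT : ∀ p ∈ S, ∀ q ∈ S, ∀ m : ℤ,
      ¬ (Φ p.2 - Φ p.1 ≤ m * (2 * π) ∧ m * (2 * π) ≤ Φ q.2 - Φ q.1) := by
    intro p hp q hq m hm
    obtain ⟨x, hx, hx'⟩ := hconv.isPreconnected.intermediate_value hp hq hD.continuousOn
      (show (m * (2 * π) : ℝ) ∈ Icc _ _ from hm)
    exact havoid x.1 x.2 hx.1 hx.2 m hx'
  -- a point of the strip with small difference
  obtain ⟨δ, hδ, hδ'⟩ := Metric.continuous_iff.1 hc 0 π pi_pos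
  set q : ℝ × ℝ := (0, min (δ / 2) 1) with hq
  have hqS : q ∈ S := by
    refine ⟨by simp only [hq]; positivity, ?_⟩
    simp only [hq]; have := min_le_right (δ / 2) 1; linarith only [this, pi_gt_three]
  have hqs : |Φ q.2 - Φ q.1| < π := by
    have := hδ' (min (δ / 2) 1) (by
      rw [Real.dist_eq, sub_zero, abs_of_pos (by positivity)]
      have := min_le_left (δ / 2) 1; linarith)
    simpa [hq, Real.dist_eq] using this
  rw [abs_lt] at hqs
  have hq0 := havoid q.1 q.2 hqS.1 hqS.2 0
  simp only [Int.cast_zero, zero_mul] at hq0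
  rcases lt_or_gt_of_ne hq0 with hneg | hpos
  · refine ⟨fun t => -Φ t, good_of_pos (φ := fun z => (φ z)⁻¹) (inv_injective.comp hinj)
      hc.neg (fun t => by rw [hl, Circle.exp_neg]) ?_, Or.inr fun t => by rw [hl, Circle.exp_neg]⟩
    intro s t h1 h2
    have a := hIVT q hqS (s, t) ⟨h1, h2⟩ 0
    have b := hIVT (s, t) ⟨h1, h2⟩ q hqS (-1)
    simp only [Int.cast_zero, zero_mul, not_and, not_le, Int.cast_neg, Int.cast_one] at a b
    have a' := a hneg.le
    constructor
    · linarith
    · by_contra hh; push Not at hh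
      have := b (by linarith)
      linarith [pi_pos]
  · refine ⟨Φ, good_of_pos hinj hc hl ?_, Or.inl hl⟩
    intro s t h1 h2
    have a := hIVT (s, t) ⟨h1, h2⟩ q hqS 0
    have b := hIVT q hqS (s, t) ⟨h1, h2⟩ 1
    simp only [Int.cast_zero, zero_mul, not_and, not_le, Int.cast_one, one_mul] at a b
    constructor
    · by_contra hh; push Not at hh
      have := a hh; linarith
    · exact b (by linarith [pi_pos])

/-- `Pres φ`: every element of `ReA` is of the form `v ∘ φ` with `v` in `ReA`. -/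
def PresL (Φ : ℝ → ℝ) : Prop :=
  ∀ f : ℂ → ℂ, DiffContOnCl ℂ f (Metric.ball 0 1) →
    ∃ F : ℂ → ℂ, DiffContOnCl ℂ F (Metric.ball 0 1) ∧ ∀ t, (F (ex (Φ t))).re = (f (ex t)).re

lemma diffContOnCl_conj {f : ℂ → ℂ} (hf : DiffContOnCl ℂ f (Metric.ball 0 1)) :
    DiffContOnCl ℂ (fun z => (starRingEnd ℂ) (f ((starRingEnd ℂ) z))) (Metric.ball 0 1) := by
  constructor
  · intro z hz
    have hz' : (starRingEnd ℂ) z ∈ Metric.ball (0 : ℂ) 1 := by simpa using hz
    have := (hf.differentiableOn.differentiableAt (Metric.isOpen_ball.mem_nhds hz')).conj_conj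
    simp only [Complex.conj_conj] at this
    exact this.differentiableWithinAt
  · have hc := hf.continuousOn
    rw [closure_ball _ one_ne_zero] at hc ⊢
    refine Complex.continuous_conj.comp_continuousOn
      (hc.comp Complex.continuous_conj.continuousOn ?_)
    intro z hz
    simpa using hz

lemma mem_ReA_comp_inv {v : Circle → ℝ} (hv : v ∈ ReA) : (fun z => v z⁻¹) ∈ ReA := by
  obtain ⟨f, hf, hfv⟩ := hv
  refine ⟨_, diffContOnCl_conj hf, fun z => ?_⟩
  simp only [hfv, Complex.conj_re, Circle.coe_inv_eq_conj]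

/-- reduction of the problem to good lifts. -/
lemma reduce (ψ : Circle ≃ₜ Circle) : ∃ Φ : ℝ → ℝ, Good Φ ∧
    (∀ y t, chordLog ψ.symm y t = lg (Φ t - Φ y)) ∧
    ((∀ u ∈ ReA, u ∘ ψ ∈ ReA) ↔ PresL Φ) := by
  obtain ⟨Φ, hΦ, h | h⟩ := exists_good_lift ψ.symm ψ.symm.continuous ψ.symm.injective
  · refine ⟨Φ, hΦ, fun y t => by simp only [chordLog, h, coe_exp_eq, norm_ex_sub_ex, lg], ?_⟩
    constructor
    · intro H f hf
      obtain ⟨F, hF, hFu⟩ := H (fun z => (f z).re) ⟨f, hf, fun _ => rfl⟩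
      refine ⟨F, hF, fun t => ?_⟩
      have := hFu (ψ.symm (Circle.exp t))
      simp only [Function.comp, h, coe_exp_eq] at this
      rw [← this, ← h, Homeomorph.apply_symm_apply, coe_exp_eq]
    · rintro H u ⟨f, hf, hfu⟩
      obtain ⟨F, hF, hFf⟩ := H f hf
      refine ⟨F, hF, fun z => ?_⟩
      obtain ⟨t, ht⟩ := exists_ex (ψ z)
      have : z = Circle.exp (Φ t) := by rw [← h, ht, Homeomorph.symm_apply_apply]
      rw [Function.comp, hfu, ← ht, this, coe_exp_eq, coe_exp_eq, hFf]
  · have h' : ∀ t, ψ.symm (Circle.exp t) = Circle.exp (-Φ t) := fun t => by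
      rw [Circle.exp_neg, ← h, inv_inv]
    refine ⟨Φ, hΦ, fun y t => ?_, ?_⟩
    · simp only [chordLog, h', coe_exp_eq, norm_ex_sub_ex, lg]
      rw [← ch_neg]; congr 2; ring
    constructor
    · intro H f hf
      obtain ⟨F, hF, hFu⟩ := mem_ReA_comp_inv (H (fun z => (f z).re) ⟨f, hf, fun _ => rfl⟩)
      refine ⟨F, hF, fun t => ?_⟩
      have := hFu (Circle.exp (Φ t))
      have e : (Circle.exp (Φ t))⁻¹ = ψ.symm (Circle.exp t) := by rw [← h, inv_inv]
      simp only [Function.comp, e, Homeomorph.apply_symm_apply, coe_exp_eq] at this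
      exact this.symm
    · rintro H u ⟨f, hf, hfu⟩
      obtain ⟨F, hF, hFf⟩ := H f hf
      have : (fun z : Circle => (F z).re) ∈ ReA := ⟨F, hF, fun _ => rfl⟩
      have := mem_ReA_comp_inv this
      convert this using 1
      ext z
      obtain ⟨t, ht⟩ := exists_ex (ψ z)
      have e : z⁻¹ = Circle.exp (Φ t) := by rw [← h, ht, Homeomorph.symm_apply_apply]
      rw [Function.comp, hfu, ← ht, e, coe_exp_eq, coe_exp_eq, hFf]

lemma eq_iff_both (ψ : Circle ≃ₜ Circle) :
    ReA = (fun u => u ∘ ψ) '' ReA ↔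
      (∀ u ∈ ReA, u ∘ ψ ∈ ReA) ∧ (∀ u ∈ ReA, u ∘ ψ.symm ∈ ReA) := by
  constructor
  · intro h
    constructor
    · intro u hu; rw [h]; exact ⟨u, hu, rfl⟩
    · intro u hu
      rw [h] at hu
      obtain ⟨v, hv, rfl⟩ := hu
      have : (v ∘ ψ) ∘ ψ.symm = v := by ext z; simp
      simpa only [this] using hv
  · rintro ⟨h1, h2⟩
    ext u
    constructor
    · intro hu
      exact ⟨u ∘ ψ.symm, h2 u hu, by ext z; simp⟩
    · rintro ⟨v, hv, rfl⟩; exact h1 v hv

end Pool.Agent.Work.MP_af796d_an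
end

-- merged part: Pool.Agent.Work.MP_af796d_an.Holo
section
set_option autoImplicit false

namespace Pool.Agent.Work.MP_af796d_an

open MeasureTheory Set Real Filter Topology Metric

lemma norm_clog_le (w : ℂ) : ‖Complex.log w‖ ≤ |Real.log ‖w‖| + π := by
  have h := Complex.norm_le_abs_re_add_abs_im (Complex.log w)
  rw [Complex.log_re, Complex.log_im] at h
  have := Complex.abs_arg_le_pi w
  linarith

lemma one_sub_mem_slitPlane {ζ : ℂ} (h : ‖ζ‖ ≤ 1) (h1 : ζ ≠ 1) : 1 - ζ ∈ Complex.slitPlane := by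
  rw [Complex.mem_slitPlane_iff]
  by_cases him : ζ.im = 0
  · left
    have h2 := Complex.re_le_norm ζ
    have h3 : ζ.re ≠ 1 := fun h3 => h1 (Complex.ext (by simpa using h3) (by simpa using him))
    simp only [Complex.sub_re, Complex.one_re]
    exact sub_pos.2 (lt_of_le_of_ne (h2.trans h) h3)
  · right; simpa using him

lemma abs_log_le_of_mem {x ρ : ℝ} (hρ : 0 < ρ) (h1 : ρ ≤ x) (h2 : x ≤ 2) :
    |Real.log x| ≤ |Real.log ρ| + 1 := by
  have a := Real.log_le_log hρ h1
  have b := Real.log_le_sub_one_of_pos (hρ.trans_le h1)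
  have c := neg_abs_le (Real.log ρ)
  have d := abs_nonneg (Real.log ρ)
  rw [abs_le]; constructor <;> linarith only [a, c, h2, b, d]

lemma norm_one_sub_ge {ζ : ℂ} : 1 - ‖ζ‖ ≤ ‖1 - ζ‖ := by
  have := norm_sub_norm_le (1 : ℂ) ζ
  simpa using this

lemma norm_one_sub_le {ζ : ℂ} (h : ‖ζ‖ ≤ 1) : ‖1 - ζ‖ ≤ 2 := by
  have := norm_sub_le (1 : ℂ) ζ
  rw [norm_one] at this; linarith

section holo

variable {X : Type*} [MeasurableSpace X] {μ : Measure X} {e : X → ℂ} {w : X → ℝ}

lemma integrable_clog (he : Measurable e) (he1 : ∀ x, ‖e x‖ ≤ 1) (hw : Integrable w μ)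
    {z : ℂ} (hz : ‖z‖ < 1) :
    Integrable (fun x => Complex.log (1 - z * e x) * (w x : ℂ)) μ := by
  refine Integrable.mono' (hw.norm.const_mul (|Real.log (1 - ‖z‖)| + 1 + π)) ?_ ?_
  · refine AEStronglyMeasurable.mul ?_ (Complex.continuous_ofReal.comp_aestronglyMeasurable hw.1)
    exact (Complex.measurable_log.comp (by fun_prop)).aestronglyMeasurable
  · filter_upwards with x
    rw [norm_mul, Complex.norm_real]
    refine mul_le_mul_of_nonneg_right ?_ (norm_nonneg _)
    have hζ : ‖z * e x‖ ≤ ‖z‖ := by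
      rw [norm_mul]; exact mul_le_of_le_one_right (norm_nonneg _) (he1 x)
    refine (norm_clog_le _).trans ?_
    have := abs_log_le_of_mem (x := ‖1 - z * e x‖) (ρ := 1 - ‖z‖) (by linarith)
      (by have := @norm_one_sub_ge (z * e x); linarith) (norm_one_sub_le (by linarith))
    linarith

lemma differentiableOn_clog (he : Measurable e) (he1 : ∀ x, ‖e x‖ ≤ 1) (hw : Integrable w μ) :
    DifferentiableOn ℂ (fun z => ∫ x, Complex.log (1 - z * e x) * (w x : ℂ) ∂μ) (ball 0 1) := by
  intro z₀ hz₀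
  have hz₀' : ‖z₀‖ < 1 := by simpa using hz₀
  set ρ : ℝ := (1 + ‖z₀‖) / 2 with hρ
  have hρ1 : ρ < 1 := by rw [hρ]; linarith only [hz₀']
  have hwm : AEStronglyMeasurable (fun x => (w x : ℂ)) μ :=
    Complex.continuous_ofReal.comp_aestronglyMeasurable hw.1
  have key : ∀ z ∈ ball (0 : ℂ) ρ, ∀ x, ‖z * e x‖ ≤ ρ := by
    intro z hz x
    have : ‖z‖ < ρ := by simpa using hz
    rw [norm_mul]
    exact (mul_le_of_le_one_right (norm_nonneg _) (he1 x)).trans this.le
  refine (hasDerivAt_integral_of_dominated_loc_of_deriv_le (μ := μ) (s := ball 0 ρ)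
    (F := fun z x => Complex.log (1 - z * e x) * (w x : ℂ))
    (F' := fun z x => (-(e x) / (1 - z * e x)) * (w x : ℂ))
    (bound := fun x => (1 - ρ)⁻¹ * ‖w x‖)
    (isOpen_ball.mem_nhds (by simp only [mem_ball, dist_zero_right, hρ]; linarith only [hρ, hρ1]))
    ?_ (integrable_clog he he1 hw hz₀') ?_ ?_ (hw.norm.const_mul _) ?_).2.differentiableAt.differentiableWithinAt
  · filter_upwards with z
    exact AEStronglyMeasurable.mul
      (Complex.measurable_log.comp (by fun_prop)).aestronglyMeasurable hwm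
  · exact AEStronglyMeasurable.mul (Measurable.aestronglyMeasurable (by fun_prop)) hwm
  · filter_upwards with x z hz
    rw [norm_mul, Complex.norm_real, norm_div, norm_neg]
    refine mul_le_mul_of_nonneg_right ?_ (norm_nonneg _)
    have h1 := @norm_one_sub_ge (z * e x)
    have h2 := key z hz x
    rw [div_le_iff₀ (by linarith only [hρ1, h1, h2])]
    calc ‖e x‖ ≤ 1 := he1 x
      _ = (1 - ρ)⁻¹ * (1 - ρ) := by rw [inv_mul_cancel₀ (by linarith)]
      _ ≤ _ := by gcongr; linarith only [h1, h2]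
  · filter_upwards with x z hz
    have h2 := key z hz x
    have hs : 1 - z * e x ∈ Complex.slitPlane :=
      one_sub_mem_slitPlane (by linarith only [hρ1, h2]) (by
        intro h; rw [h, norm_one] at h2; linarith)
    have h3 : HasDerivAt (fun z : ℂ => 1 - z * e x) (-(e x)) z := by
      simpa using ((hasDerivAt_id z).mul_const (e x)).const_sub 1
    exact (h3.clog hs).mul_const _

lemma re_integral_clog (he : Measurable e) (he1 : ∀ x, ‖e x‖ ≤ 1) (hw : Integrable w μ)
    {z : ℂ} (hz : ‖z‖ < 1) :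
    (∫ x, Complex.log (1 - z * e x) * (w x : ℂ) ∂μ).re
      = ∫ x, Real.log ‖1 - z * e x‖ * w x ∂μ := by
  have := (integral_re (integrable_clog he he1 hw hz)).symm
  simp only [RCLike.re_to_complex] at this
  rw [this]; congr 1; ext x
  simp [Complex.log_re]

lemma im_integral_clog (he : Measurable e) (he1 : ∀ x, ‖e x‖ ≤ 1) (hw : Integrable w μ)
    {z : ℂ} (hz : ‖z‖ < 1) :
    (∫ x, Complex.log (1 - z * e x) * (w x : ℂ) ∂μ).im
      = ∫ x, Complex.arg (1 - z * e x) * w x ∂μ := by
  have := (integral_im (integrable_clog he he1 hw hz)).symm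
  simp only [RCLike.im_to_complex] at this
  rw [this]; congr 1; ext x
  simp [Complex.log_im]

end holo

/-- maximum principle for real parts with continuous boundary values. -/
lemma re_nonpos_of_boundary {h : ℂ → ℂ} {m : ℂ → ℝ} (hd : DifferentiableOn ℂ h (ball 0 1))
    (hm : ContinuousOn m (closedBall 0 1)) (hmh : ∀ z ∈ ball (0 : ℂ) 1, m z = (h z).re)
    (hb : ∀ z : ℂ, ‖z‖ = 1 → m z = 0) : ∀ z ∈ ball (0 : ℂ) 1, m z ≤ 0 := by
  obtain ⟨z₁, hz₁, hmax⟩ := (isCompact_closedBall (0 : ℂ) 1).exists_isMaxOn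
    ⟨0, by simp⟩ hm
  have hz₁' : ‖z₁‖ ≤ 1 := by simpa using hz₁
  suffices m z₁ ≤ 0 from fun z hz => (hmax (ball_subset_closedBall hz)).trans this
  rcases hz₁'.eq_or_lt with h1 | h1
  · exact (hb z₁ h1).le
  have hz₁b : z₁ ∈ ball (0 : ℂ) 1 := by simpa using h1
  have hc := Complex.norm_eqOn_of_isPreconnected_of_isMaxOn
    (f := fun z => Complex.exp (h z)) (convex_ball (0 : ℂ) 1).isPreconnected isOpen_ball
    hd.cexp hz₁b (by
      intro z hz
      simp only [mem_ofPred_eq, Function.comp, Complex.norm_exp]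
      rw [← hmh z hz, ← hmh z₁ hz₁b]
      exact Real.exp_le_exp.2 (hmax (ball_subset_closedBall hz)))
  have hconst : EqOn m (fun _ => m z₁) (ball 0 1) := by
    intro z hz
    have := hc hz
    simp only [Function.comp, Function.const, Complex.norm_exp] at this
    rw [← hmh z hz, ← hmh z₁ hz₁b] at this
    exact Real.exp_injective this
  have hcl := hconst.of_subset_closure hm continuousOn_const ball_subset_closedBall
    (by rw [closure_ball _ one_ne_zero])
  have := hcl (show (1 : ℂ) ∈ closedBall 0 1 by simp)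
  simp only at this
  rw [← this, hb 1 (by simp)]

/-- uniqueness of the conjugate function. -/
lemma im_unique {F g : ℂ → ℂ} {R : ℂ → ℝ} (hF : DifferentiableOn ℂ F (ball 0 1))
    (hR : ContinuousOn R (closedBall 0 1)) (hRF : ∀ z ∈ ball (0 : ℂ) 1, R z = (F z).re)
    (hg : DiffContOnCl ℂ g (ball 0 1)) (hb : ∀ z : ℂ, ‖z‖ = 1 → R z = (g z).re) :
    ∀ z ∈ ball (0 : ℂ) 1, (F z).im - (F 0).im = (g z).im - (g 0).im := by
  have hgc : ContinuousOn (fun z => (g z).re) (closedBall 0 1) := by
    have := hg.continuousOn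
    rw [closure_ball _ one_ne_zero] at this
    exact Complex.continuous_re.comp_continuousOn this
  have h1 := re_nonpos_of_boundary (h := fun z => F z - g z) (m := fun z => R z - (g z).re)
    (hF.sub hg.differentiableOn) (hR.sub hgc) (fun z hz => by simp [hRF z hz])
    (fun z hz => by simp [hb z hz])
  have h2 := re_nonpos_of_boundary (h := fun z => g z - F z) (m := fun z => (g z).re - R z)
    (hg.differentiableOn.sub hF) (hgc.sub hR) (fun z hz => by simp [hRF z hz])
    (fun z hz => by simp [hb z hz])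
  obtain ⟨c, hc⟩ := AnalyticOnNhd.eq_const_of_re_eq_const (f := fun z => F z - g z) (c₀ := 0)
    ((hF.sub hg.differentiableOn).analyticOnNhd isOpen_ball)
    (fun z hz => by
      have a := h1 z hz
      have b := h2 z hz
      simp only [Complex.sub_re, ← hRF z hz] at a b ⊢
      linarith) isOpen_ball ((convex_ball (0 : ℂ) 1).isConnected ⟨0, by simp⟩)
  intro z hz
  have a := congrArg Complex.im (hc z hz)
  have b := congrArg Complex.im (hc 0 (by simp))
  simp only [Complex.sub_im] at a b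
  linarith

lemma norm_le_of_sphere {F : ℂ → ℂ} (hF : DiffContOnCl ℂ F (ball 0 1)) {C : ℝ}
    (hC : ∀ z : ℂ, ‖z‖ = 1 → ‖F z‖ ≤ C) {z : ℂ} (hz : ‖z‖ ≤ 1) : ‖F z‖ ≤ C := by
  refine Complex.norm_le_of_forall_mem_frontier_norm_le isBounded_ball hF ?_ ?_
  · intro z hz
    rw [frontier_ball _ one_ne_zero] at hz
    exact hC z (by simpa using hz)
  · rw [closure_ball _ one_ne_zero]; simpa using hz

lemma arg_one_sub_ex {θ : ℝ} (h0 : 0 < θ) (h1 : θ < 2 * π) :
    Complex.arg (1 - ex (-θ)) = (π - θ) / 2 := by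
  have hs : 0 < 2 * Real.sin (θ / 2) := by
    have := Real.sin_pos_of_pos_of_lt_pi (x := θ / 2) (by linarith) (by linarith)
    linarith
  rw [← Complex.arg_mul_cos_add_sin_mul_I hs (θ := (π - θ) / 2)
    ⟨by linarith [pi_pos], by linarith [pi_pos]⟩]
  congr 1
  have e1 : Real.cos ((π - θ) / 2) = Real.sin (θ / 2) := by
    rw [show (π - θ) / 2 = π / 2 - θ / 2 by ring, Real.cos_pi_div_two_sub]
  have e2 : Real.sin ((π - θ) / 2) = Real.cos (θ / 2) := by
    rw [show (π - θ) / 2 = π / 2 - θ / 2 by ring, Real.sin_pi_div_two_sub]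
  have e3 : Real.cos θ = 1 - 2 * Real.sin (θ / 2) ^ 2 := by
    have := Real.cos_two_mul (θ / 2)
    rw [show 2 * (θ / 2) = θ by ring] at this
    have := Real.sin_sq_add_cos_sq (θ / 2)
    linarith
  have e4 : Real.sin θ = 2 * Real.sin (θ / 2) * Real.cos (θ / 2) := by
    have := Real.sin_two_mul (θ / 2)
    rwa [show 2 * (θ / 2) = θ by ring] at this
  rw [← Complex.ofReal_cos, ← Complex.ofReal_sin, e1, e2, ex, mul_comm Complex.I,
    Complex.exp_mul_I, ← Complex.ofReal_cos, ← Complex.ofReal_sin, Real.cos_neg, Real.sin_neg]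
  apply Complex.ext
  · simp only [Complex.sub_re, Complex.one_re, Complex.add_re, Complex.ofReal_re, Complex.mul_re,
      Complex.I_re, Complex.ofReal_im, Complex.I_im, Complex.add_im, Complex.mul_im]
    rw [e3]; ring
  · simp only [Complex.sub_im, Complex.one_im, Complex.add_re, Complex.ofReal_re, Complex.mul_re,
      Complex.I_re, Complex.ofReal_im, Complex.I_im, Complex.add_im, Complex.mul_im]
    rw [e4]; ring

lemma ch_le_two_mul_norm {r θ : ℝ} (h0 : 0 ≤ r) (h1 : r ≤ 1) :
    ch θ ≤ 2 * ‖1 - (r : ℂ) * ex (-θ)‖ := by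
  have a : ‖(r : ℂ) * ex (-θ)‖ = r := by
    rw [norm_mul, norm_ex, Complex.norm_real, Real.norm_eq_abs, abs_of_nonneg h0, mul_one]
  have b := @norm_one_sub_ge ((r : ℂ) * ex (-θ))
  rw [a] at b
  have c : ex (-θ) - 1 = -(1 - (r : ℂ) * ex (-θ)) + ((1 - r : ℝ) : ℂ) * ex (-θ) := by
    push_cast; ring
  have d : ‖((1 - r : ℝ) : ℂ) * ex (-θ)‖ = 1 - r := by
    rw [norm_mul, norm_ex, Complex.norm_real, Real.norm_eq_abs, abs_of_nonneg (by linarith),
      mul_one]
  rw [← ch_neg, ch, c]
  have := norm_add_le (-(1 - (r : ℂ) * ex (-θ))) (((1 - r : ℝ) : ℂ) * ex (-θ))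
  rw [norm_neg, d] at this
  linarith

lemma abs_log_norm_le {r θ : ℝ} (h0 : 0 ≤ r) (h1 : r ≤ 1) (hθ : ch θ ≠ 0) :
    |Real.log ‖1 - (r : ℂ) * ex (-θ)‖| ≤ 2 + |lg θ| := by
  have hp : 0 < ch θ := lt_of_le_of_ne (ch_nonneg θ) hθ.symm
  have a : ‖(r : ℂ) * ex (-θ)‖ = r := by
    rw [norm_mul, norm_ex, Complex.norm_real, Real.norm_eq_abs, abs_of_nonneg h0, mul_one]
  have h := abs_log_le_of_mem (x := ‖1 - (r : ℂ) * ex (-θ)‖) (ρ := ch θ / 2) (by positivity)
    (by have := ch_le_two_mul_norm (θ := θ) h0 h1; linarith) (norm_one_sub_le (by rw [a]; exact h1))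
  rw [Real.log_div hθ two_ne_zero] at h
  have h2 : |Real.log 2| ≤ 1 := by
    rw [abs_of_pos (Real.log_pos one_lt_two)]
    have := Real.log_le_sub_one_of_pos two_pos; linarith
  have := abs_sub (Real.log (ch θ)) (Real.log 2)
  rw [lg]; linarith

end Pool.Agent.Work.MP_af796d_an
end

-- merged part: Pool.Agent.Work.MP_af796d_an.Core
section
set_option autoImplicit false

namespace Pool.Agent.Work.MP_af796d_an

open MeasureTheory Set Real Filter Topology Metric

/-- real part of the basic holomorphic function. -/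
noncomputable def RR (Φ w : ℝ → ℝ) (a : ℝ) (z : ℂ) : ℝ :=
  -(1 / (2 * π)) * (∫ t in a..(a + 2 * π), Φ t * w t)
    - (1 / π) * ∫ t in a..(a + 2 * π), Complex.arg (1 - z * ex (-Φ t)) * w t

/-- imaginary part of the basic holomorphic function. -/
noncomputable def JJ (Φ w : ℝ → ℝ) (a : ℝ) (z : ℂ) : ℝ :=
  (1 / π) * ∫ t in a..(a + 2 * π), Real.log ‖1 - z * ex (-Φ t)‖ * w t

/-- the basic holomorphic function. -/
noncomputable def FF (Φ w : ℝ → ℝ) (a : ℝ) (z : ℂ) : ℂ :=
  (RR Φ w a z : ℂ) + (JJ Φ w a z : ℂ) * Complex.I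

lemma FF_re (Φ w : ℝ → ℝ) (a : ℝ) (z : ℂ) : (FF Φ w a z).re = RR Φ w a z := by simp [FF]

lemma FF_im (Φ w : ℝ → ℝ) (a : ℝ) (z : ℂ) : (FF Φ w a z).im = JJ Φ w a z := by simp [FF]

lemma JJ_zero (Φ w : ℝ → ℝ) (a : ℝ) : JJ Φ w a 0 = 0 := by simp [JJ]

lemma one_sub_ex_mul (a b : ℝ) : 1 - ex a * ex (-b) = 1 - ex (-(b - a)) := by
  rw [← ex_add]; congr 2; ring

lemma norm_one_sub_ex (θ : ℝ) : ‖1 - ex (-θ)‖ = ch θ := by
  rw [← ch_neg, ch, norm_sub_rev]

lemma JJ_boundary (Φ w : ℝ → ℝ) (a y : ℝ) :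
    JJ Φ w a (ex (Φ y)) = (1 / π) * ∫ t in a..(a + 2 * π), lg (Φ t - Φ y) * w t := by
  simp only [JJ, one_sub_ex_mul, norm_one_sub_ex, lg]

lemma bdd_intervalIntegrable {w : ℝ → ℝ} {B : ℝ} (hw : Measurable w) (hB : ∀ t, |w t| ≤ B)
    (a b : ℝ) : IntervalIntegrable w volume a b := by
  refine IntervalIntegrable.mono_fun' (g := fun _ => B) intervalIntegrable_const
    hw.aestronglyMeasurable ?_
  filter_upwards with t using hB t

variable {Φ w : ℝ → ℝ} {a B : ℝ}

lemma differentiableOn_FF (hΦ : Good Φ) (hw : Measurable w) (hB : ∀ t, |w t| ≤ B) :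
    DifferentiableOn ℂ (FF Φ w a) (ball 0 1) := by
  have hle : a ≤ a + 2 * π := by linarith [pi_pos]
  have hint : Integrable w (volume.restrict (Ioc a (a + 2 * π))) :=
    (bdd_intervalIntegrable hw hB a (a + 2 * π)).1
  have he : Measurable (fun t => ex (-Φ t)) := by have := hΦ.cont; fun_prop
  have he1 : ∀ t, ‖ex (-Φ t)‖ ≤ 1 := fun t => (norm_ex _).le
  have hd := differentiableOn_clog he he1 hint
  refine DifferentiableOn.congr (f := fun z =>
    ((-(1 / (2 * π)) * (∫ t in a..(a + 2 * π), Φ t * w t) : ℝ) : ℂ) + ((1 / π : ℝ) : ℂ) * Complex.I *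
      ∫ t in Ioc a (a + 2 * π), Complex.log (1 - z * ex (-Φ t)) * (w t : ℂ)) ?_ ?_
  · exact (hd.const_mul _).const_add _
  · intro z hz
    have hz' : ‖z‖ < 1 := by simpa using hz
    have h1 := re_integral_clog he he1 hint hz'
    have h2 := im_integral_clog he he1 hint hz'
    apply Complex.ext
    · rw [FF_re, RR, intervalIntegral.integral_of_le hle (f := fun t => Complex.arg _ * w t), ← h2]
      simp only [Complex.add_re, Complex.ofReal_re, Complex.mul_re, Complex.I_re, Complex.ofReal_im,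
        Complex.I_im, Complex.mul_im]
      ring
    · rw [FF_im, JJ, intervalIntegral.integral_of_le hle, ← h1]
      simp only [Complex.add_im, Complex.ofReal_re, Complex.mul_re, Complex.I_re, Complex.ofReal_im,
        Complex.I_im, Complex.mul_im]
      ring

lemma Good.ae_ch_ne (hΦ : Good Φ) (y : ℝ) : ∀ᵐ t : ℝ, ch (Φ t - Φ y) ≠ 0 := by
  have : {t : ℝ | ch (Φ t - Φ y) = 0}.Countable :=
    (countable_ch_zero (Φ y)).preimage_of_injOn (f := Φ) hΦ.mono.injective.injOn
  rw [ae_iff]
  simpa using this.measure_zero volume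

lemma Good.ae_ne_one (hΦ : Good Φ) (z : ℂ) : ∀ᵐ t : ℝ, z * ex (-Φ t) ≠ 1 := by
  by_cases hz : ‖z‖ = 1
  · obtain ⟨y, rfl⟩ := hΦ.exists_ex hz
    filter_upwards [hΦ.ae_ch_ne y] with t ht h
    apply ht
    rw [← norm_one_sub_ex, ← one_sub_ex_mul, h]; simp
  · filter_upwards with t h
    apply hz
    have := congrArg norm h
    rwa [norm_mul, norm_ex, mul_one, norm_one] at this

lemma continuousOn_RR (hΦ : Good Φ) (hw : Measurable w) (hB : ∀ t, |w t| ≤ B) :
    ContinuousOn (RR Φ w a) (closedBall 0 1) := by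
  have hB0 : 0 ≤ B := (abs_nonneg _).trans (hB 0)
  refine continuousOn_const.sub (continuousOn_const.mul ?_)
  intro z₀ hz₀
  have hc := hΦ.cont
  refine intervalIntegral.continuousWithinAt_of_dominated_interval (bound := fun _ => π * B)
    ?_ ?_ intervalIntegrable_const ?_
  · filter_upwards with z
    exact ((Complex.measurable_arg.comp (by fun_prop)).mul hw).aestronglyMeasurable
  · filter_upwards with z
    filter_upwards with t _
    rw [Real.norm_eq_abs, abs_mul]
    exact mul_le_mul (Complex.abs_arg_le_pi _) (hB t) (abs_nonneg _) pi_pos.le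
  · filter_upwards [hΦ.ae_ne_one z₀] with t ht _
    have hs : 1 - z₀ * ex (-Φ t) ∈ Complex.slitPlane :=
      one_sub_mem_slitPlane (by rw [norm_mul, norm_ex, mul_one]; simpa using hz₀) ht
    refine ContinuousAt.continuousWithinAt (ContinuousAt.mul ?_ continuousAt_const)
    exact ContinuousAt.comp (f := fun z : ℂ => 1 - z * ex (-Φ t)) (Complex.continuousAt_arg hs)
      (by fun_prop)

lemma RR_boundary (hΦ : Good Φ) (hw : Measurable w) (hB : ∀ t, |w t| ≤ B)
    (h0 : ∫ t in a..(a + 2 * π), w t = 0) {y : ℝ} (hy1 : a ≤ y) (hy2 : y ≤ a + 2 * π) :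
    RR Φ w a (ex (Φ y)) = ∫ t in a..y, w t := by
  have hc := hΦ.cont
  have hwi := bdd_intervalIntegrable hw hB
  have hΦw : ∀ p q, IntervalIntegrable (fun t => Φ t * w t) volume p q := fun p q =>
    (hwi p q).continuousOn_mul hc.continuousOn
  have hai : ∀ p q, IntervalIntegrable
      (fun t => Complex.arg (1 - ex (Φ y) * ex (-Φ t)) * w t) volume p q := by
    intro p q
    refine bdd_intervalIntegrable (B := π * B)
      ((Complex.measurable_arg.comp (by fun_prop)).mul hw) (fun t => ?_) p q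
    rw [Pi.mul_apply, abs_mul]
    exact mul_le_mul (Complex.abs_arg_le_pi _) (hB t) (abs_nonneg _) pi_pos.le
  have hne : ∀ᵐ t : ℝ, t ≠ y := by simp [ae_iff, measure_singleton]
  have hne' : ∀ᵐ t : ℝ, t ≠ y + 2 * π := by simp [ae_iff, measure_singleton]
  have e1 : ∫ t in a..y, Complex.arg (1 - ex (Φ y) * ex (-Φ t)) * w t
      = ∫ t in a..y, ((-π + Φ y) / 2 * w t - (1 / 2) * (Φ t * w t)) := by
    refine intervalIntegral.integral_congr_ae ?_
    filter_upwards [hne] with t ht hmem
    rw [uIoc_of_le hy1] at hmem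
    have hlt : t < y := lt_of_le_of_ne hmem.2 ht
    have hm := hΦ.sub_mem (y := y) (t := t + 2 * π) (by linarith [hmem.1]) (by linarith)
    rw [hΦ.per] at hm
    have : ex (-(Φ t - Φ y)) = ex (-(Φ t + 2 * π - Φ y)) := by
      rw [← ex_periodic (-(Φ t + 2 * π - Φ y))]; congr 1; ring
    rw [one_sub_ex_mul, this, arg_one_sub_ex hm.1 hm.2]; ring
  have e2 : ∫ t in y..(a + 2 * π), Complex.arg (1 - ex (Φ y) * ex (-Φ t)) * w t
      = ∫ t in y..(a + 2 * π), ((π + Φ y) / 2 * w t - (1 / 2) * (Φ t * w t)) := by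
    refine intervalIntegral.integral_congr_ae ?_
    filter_upwards [hne'] with t ht hmem
    rw [uIoc_of_le hy2] at hmem
    have hlt : t < y + 2 * π := lt_of_le_of_ne (by linarith [hmem.2]) ht
    have hm := hΦ.sub_mem (y := y) (t := t) hmem.1 hlt
    rw [one_sub_ex_mul, arg_one_sub_ex hm.1 hm.2]; ring
  rw [← intervalIntegral.integral_add_adjacent_intervals (hwi a y) (hwi y _)] at h0
  rw [RR, ← intervalIntegral.integral_add_adjacent_intervals (hai a y) (hai y _), e1, e2,
    ← intervalIntegral.integral_add_adjacent_intervals (hΦw a y) (hΦw y _),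
    intervalIntegral.integral_sub ((hwi _ _).const_mul _) ((hΦw _ _).const_mul _),
    intervalIntegral.integral_sub ((hwi _ _).const_mul _) ((hΦw _ _).const_mul _)]
  simp only [intervalIntegral.integral_const_mul]
  have h0' : ∫ t in y..(a + 2 * π), w t = -∫ t in a..y, w t := by linarith only [h0]
  rw [h0']
  field_simp
  ring

/-- uniform integrability of the kernels. -/
def UI (Φ : ℝ → ℝ) : Prop :=
  (∀ y p q, IntervalIntegrable (fun t => lg (Φ t - Φ y)) volume p q) ∧
    ∀ ε > 0, ∃ h > 0, ∀ y, ∫ t in (y - h)..(y + h), |lg (Φ t - Φ y)| ≤ ε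

lemma Good.exists_polar (hΦ : Good Φ) {z : ℂ} (hz : ‖z‖ ≤ 1) :
    ∃ r y : ℝ, 0 ≤ r ∧ r ≤ 1 ∧ z = r * ex (Φ y) := by
  obtain ⟨y, hy⟩ := hΦ.surj z.arg
  refine ⟨‖z‖, y, norm_nonneg _, hz, ?_⟩
  rw [hy, ex, mul_comm Complex.I, Complex.norm_mul_exp_arg_mul_I]

lemma polar_mul (r a b : ℝ) : (r : ℂ) * ex a * ex (-b) = r * ex (-(b - a)) := by
  rw [mul_assoc, ← ex_add]; congr 2; ring

lemma continuousOn_JJ (hΦ : Good Φ) (hU : UI Φ) (hw : Measurable w) (hB : ∀ t, |w t| ≤ B) :
    ContinuousOn (JJ Φ w a) (closedBall 0 1) := by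
  have hB0 : 0 ≤ B := (abs_nonneg _).trans (hB 0)
  have hc := hΦ.cont
  refine continuousOn_const.mul ?_
  refine continuousOn_of_uniform_approx_of_continuousOn fun u hu => ?_
  obtain ⟨ε, hε, hεu⟩ := Metric.mem_uniformity_dist.1 hu
  obtain ⟨h, hh, hh'⟩ := hU.2 (ε / (4 * (B + 1))) (by positivity)
  set ρ : ℝ := min (min h 1) (ε / (16 * (B + 1))) with hρ
  have hρ0 : 0 < ρ := by positivity
  have hρh : ρ ≤ h := (min_le_left _ _).trans (min_le_left _ _)
  have hρ1 : ρ ≤ 1 := (min_le_left _ _).trans (min_le_right _ _)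
  have hρε : ρ ≤ ε / (16 * (B + 1)) := min_le_right _ _
  obtain ⟨η₀, hη₀, hη₀'⟩ := hΦ.chord_lower hρ0
  set η : ℝ := min (η₀ / 2) 1 with hη
  have hη0 : 0 < η := by positivity
  have hη1 : η ≤ 1 := min_le_right _ _
  have hbd : ∀ (z : ℂ), ‖z‖ ≤ 1 → ∀ t,
      |Real.log (max ‖1 - z * ex (-Φ t)‖ η)| ≤ |Real.log η| + 1 := by
    intro z hz t
    refine abs_log_le_of_mem hη0 (le_max_right _ _) (max_le (norm_one_sub_le ?_) (by linarith))
    rw [norm_mul, norm_ex, mul_one]; exact hz
  refine ⟨fun z => ∫ t in a..(a + 2 * π), Real.log (max ‖1 - z * ex (-Φ t)‖ η) * w t, ?_, ?_⟩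
  · intro z₀ hz₀
    refine intervalIntegral.continuousWithinAt_of_dominated_interval
      (bound := fun _ => (|Real.log η| + 1) * B) ?_ ?_ intervalIntegrable_const ?_
    · filter_upwards with z
      exact ((Real.measurable_log.comp (by fun_prop)).mul hw).aestronglyMeasurable
    · filter_upwards [self_mem_nhdsWithin] with z hz
      filter_upwards with t _
      rw [Real.norm_eq_abs, abs_mul]
      exact mul_le_mul (hbd z (by simpa using hz) t) (hB t) (abs_nonneg _) (by positivity)
    · filter_upwards with t _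
      refine ContinuousAt.continuousWithinAt (ContinuousAt.mul ?_ continuousAt_const)
      exact ContinuousAt.log (by fun_prop) (lt_max_of_lt_right hη0).ne'
  · intro z hz
    have hz' : ‖z‖ ≤ 1 := by simpa using hz
    obtain ⟨r, y, hr0, hr1, rfl⟩ := hΦ.exists_polar hz'
    apply hεu
    simp only [polar_mul] at hbd ⊢
    set D : ℝ → ℝ := fun t => ‖1 - (r : ℂ) * ex (-(Φ t - Φ y))‖ with hD
    have hDc : Continuous D := by simp only [hD]; fun_prop
    have hDp : Function.Periodic D (2 * π) := fun t => by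
      simp only [hD, hΦ.per]
      rw [← ex_periodic (-(Φ t + 2 * π - Φ y))]; congr 4; ring
    have hlog : ∀ᵐ t : ℝ, |Real.log (D t)| ≤ 2 + |lg (Φ t - Φ y)| := by
      filter_upwards [hΦ.ae_ch_ne y] with t ht using abs_log_norm_le hr0 hr1 ht
    have hi1 : ∀ p q, IntervalIntegrable (fun t => Real.log (D t)) volume p q := by
      intro p q
      refine IntervalIntegrable.mono_fun' (g := fun t => 2 + |lg (Φ t - Φ y)|)
        (intervalIntegrable_const.add (hU.1 y p q).abs)
        (Real.measurable_log.comp hDc.measurable).aestronglyMeasurable ?_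
      exact ae_restrict_of_ae hlog
    have hi2 : ∀ p q, IntervalIntegrable (fun t => Real.log (max (D t) η)) volume p q := by
      intro p q
      refine Continuous.intervalIntegrable ?_ p q
      exact Continuous.log (by fun_prop) fun t => (lt_max_of_lt_right hη0).ne'
    have hmul : ∀ {g : ℝ → ℝ}, (∀ p q, IntervalIntegrable g volume p q) →
        IntervalIntegrable (fun t => g t * w t) volume a (a + 2 * π) := by
      intro g hg
      refine IntervalIntegrable.mono_fun' (g := fun t => |g t| * B) ((hg _ _).abs.mul_const B)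
        ((hg a (a + 2 * π)).def'.aestronglyMeasurable.mul hw.aestronglyMeasurable) ?_
      filter_upwards with t
      rw [Real.norm_eq_abs, abs_mul]
      exact mul_le_mul_of_nonneg_left (hB t) (abs_nonneg _)
    set K : ℝ → ℝ := fun t => |Real.log (D t) - Real.log (max (D t) η)| with hK
    have hKi : ∀ p q, IntervalIntegrable K volume p q := fun p q => ((hi1 p q).sub (hi2 p q)).abs
    have hKp : Function.Periodic K (2 * π) := fun t => by simp only [hK, hDp t]
    have hK1 : ∫ t in (y + ρ)..(y - ρ + 2 * π), K t = 0 := by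
      rw [← intervalIntegral.integral_zero (a := y + ρ) (b := y - ρ + 2 * π) (μ := volume)]
      refine intervalIntegral.integral_congr fun t ht => ?_
      rw [uIcc_of_le (by linarith only [hρ1, pi_gt_three])] at ht
      have h1 := hη₀' y (t - y) (by linarith [ht.1]) (by linarith [ht.2])
      rw [add_sub_cancel] at h1
      have h2 := ch_le_two_mul_norm (θ := Φ t - Φ y) hr0 hr1
      have h3 : η ≤ D t := by
        have := min_le_left (η₀ / 2) 1
        simp only [hD]; linarith only [h1, h2, this]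
      simp only [hK, max_eq_left h3, sub_self, abs_zero]
    have hK2 : ∫ t in (y - ρ)..(y + ρ), K t ≤ ε / (2 * (B + 1)) := by
      have s1 : ∫ t in (y - ρ)..(y + ρ), K t ≤ ∫ t in (y - ρ)..(y + ρ), (2 + |lg (Φ t - Φ y)|) := by
        refine intervalIntegral.integral_mono_ae (by linarith) (hKi _ _)
          (intervalIntegrable_const.add (hU.1 y _ _).abs) ?_
        filter_upwards [hlog, hΦ.ae_ch_ne y] with t ht ht'
        have hp : 0 < ch (Φ t - Φ y) := lt_of_le_of_ne (ch_nonneg _) ht'.symm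
        have hDpos : 0 < D t := by
          have := ch_le_two_mul_norm (θ := Φ t - Φ y) hr0 hr1
          simp only [hD]; linarith only [hp, this]
        rcases le_total η (D t) with h3 | h3
        · simp only [hK, max_eq_left h3, sub_self, abs_zero]; positivity
        · simp only [hK, max_eq_right h3]
          have b1 := Real.log_le_log hDpos h3
          have b2 := Real.log_nonpos hη0.le hη1
          rw [abs_of_nonpos (by linarith)]
          have := neg_abs_le (Real.log (D t))
          linarith only [ht, b2, this]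
      have s2 : ∫ t in (y - ρ)..(y + ρ), |lg (Φ t - Φ y)| ≤ ∫ t in (y - h)..(y + h), |lg (Φ t - Φ y)| :=
        intervalIntegral.integral_mono_interval (by linarith) (by linarith) (by linarith only [hρh])
          (Eventually.of_forall fun t => abs_nonneg _) (hU.1 y _ _).abs
      rw [intervalIntegral.integral_add intervalIntegrable_const (hU.1 y _ _).abs,
        intervalIntegral.integral_const] at s1
      have s3 := hh' y
      simp only [smul_eq_mul] at s1
      have s4 : ε / (2 * (B + 1)) = 4 * (ε / (16 * (B + 1))) + ε / (4 * (B + 1)) := by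
        field_simp; ring
      rw [s4]; linarith only [hρε, s1, s2, s3]
    have hK3 : ∫ t in a..(a + 2 * π), K t ≤ ε / (2 * (B + 1)) := by
      rw [hKp.intervalIntegral_add_eq a (y - ρ),
        ← intervalIntegral.integral_add_adjacent_intervals (hKi _ (y + ρ)) (hKi _ _), hK1]
      linarith only [hK2]
    rw [Real.dist_eq, ← intervalIntegral.integral_sub (hmul hi1) (hmul hi2)]
    calc |∫ t in a..(a + 2 * π), (Real.log (D t) * w t - Real.log (max (D t) η) * w t)|
        ≤ ∫ t in a..(a + 2 * π), |Real.log (D t) * w t - Real.log (max (D t) η) * w t| :=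
          intervalIntegral.abs_integral_le_integral_abs (by linarith only [pi_pos])
      _ ≤ ∫ t in a..(a + 2 * π), K t * B := by
          refine intervalIntegral.integral_mono_on (by linarith only [pi_pos])
            ((hmul hi1).sub (hmul hi2)).abs ((hKi _ _).mul_const B) fun t _ => ?_
          rw [← sub_mul, abs_mul]
          exact mul_le_mul_of_nonneg_left (hB t) (abs_nonneg _)
      _ ≤ ε / (2 * (B + 1)) * B := by
          rw [intervalIntegral.integral_mul_const]
          exact mul_le_mul_of_nonneg_right hK3 hB0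
      _ < ε := by
          rw [div_mul_eq_mul_div, div_lt_iff₀ (by positivity)]; linarith only [hε, hB0, mul_nonneg_of_nonpos_of_nonpos (Mathlib.Tactic.Linarith.sub_nonpos_of_le hB0) (le_of_lt (Mathlib.Tactic.Linarith.sub_neg_of_lt hε))]

lemma diffContOnCl_FF (hΦ : Good Φ) (hU : UI Φ) (hw : Measurable w) (hB : ∀ t, |w t| ≤ B) :
    DiffContOnCl ℂ (FF Φ w a) (ball 0 1) := by
  refine ⟨differentiableOn_FF hΦ hw hB, ?_⟩
  rw [closure_ball _ one_ne_zero]
  exact (Complex.continuous_ofReal.comp_continuousOn (continuousOn_RR hΦ hw hB)).add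
    ((Complex.continuous_ofReal.comp_continuousOn (continuousOn_JJ hΦ hU hw hB)).mul
      continuousOn_const)

lemma UI_id : UI id := by
  refine ⟨fun y p q => ?_, fun ε hε => ?_⟩
  · simpa using (intervalIntegrable_lg (p - y) (q - y)).comp_sub_right y
  · obtain ⟨h, hh, hh'⟩ := lg_unif ε hε
    refine ⟨h / 2, by positivity, fun y => ?_⟩
    simp only [id]
    rw [intervalIntegral.integral_comp_sub_right (fun t => |lg t|) y]
    exact hh' _ _ (by linarith only [hh]) (by linarith)

/-- radial limit of the imaginary part. -/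
lemma tendsto_JJ_radial (hΦ : Good Φ) (hw : Measurable w) (hB : ∀ t, |w t| ≤ B) (y : ℝ)
    (hi : IntervalIntegrable (fun t => lg (Φ t - Φ y) * w t) volume a (a + 2 * π)) :
    Tendsto (fun r : ℝ => JJ Φ w a (r * ex (Φ y))) (𝓝[Ico 0 1] 1) (𝓝 (JJ Φ w a (ex (Φ y)))) := by
  have hc := hΦ.cont
  refine Tendsto.const_mul _ ?_
  have := intervalIntegral.continuousWithinAt_of_dominated_interval (μ := volume)
    (F := fun (r : ℝ) t => Real.log ‖1 - (r : ℂ) * ex (Φ y) * ex (-Φ t)‖ * w t) (x₀ := 1)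
    (s := Ico 0 1) (a := a) (b := a + 2 * π)
    (bound := fun t => 2 * B + |lg (Φ t - Φ y) * w t|) ?_ ?_
    (intervalIntegrable_const.add hi.abs) ?_
  · simpa [ContinuousWithinAt] using this
  · filter_upwards with r
    exact ((Real.measurable_log.comp (by fun_prop)).mul hw).aestronglyMeasurable
  · filter_upwards [self_mem_nhdsWithin] with r hr
    filter_upwards [hΦ.ae_ch_ne y] with t ht _
    rw [polar_mul, Real.norm_eq_abs, abs_mul, abs_mul]
    have := abs_log_norm_le hr.1 hr.2.le ht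
    have h2 := hB t
    linarith only [h2, this, abs_nonneg (w t), abs_nonneg (lg (Φ t - Φ y)), mul_nonneg_of_nonpos_of_nonpos (Mathlib.Tactic.Linarith.sub_nonpos_of_le this) (Mathlib.Tactic.Linarith.sub_nonpos_of_le (abs_nonneg (w t)))]
  · filter_upwards [hΦ.ae_ch_ne y] with t ht _
    refine ContinuousAt.continuousWithinAt (ContinuousAt.mul ?_ continuousAt_const)
    refine ContinuousAt.log (by fun_prop) ?_
    rw [Complex.ofReal_one, one_mul, one_sub_ex_mul, norm_one_sub_ex]
    exact ht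

end Pool.Agent.Work.MP_af796d_an
end

-- merged part: Pool.Agent.Work.MP_af796d_an.Pzero
section
set_option autoImplicit false

namespace Pool.Agent.Work.MP_af796d_an

open MeasureTheory Set Real Filter Topology Metric

/-- angular derivative of the real part. -/
noncomputable def wg (g : ℂ → ℂ) (t : ℝ) : ℝ := (deriv g (ex t) * (Complex.I * ex t)).re

section
variable {g : ℂ → ℂ}

lemma ex_mem (t : ℝ) : ex t ∈ closedBall (0 : ℂ) 1 := by simp [norm_ex]

lemma hasDerivAt_wg (hg : AnalyticOnNhd ℂ g (closedBall 0 1)) (t : ℝ) :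
    HasDerivAt (fun t => (g (ex t)).re) (wg g t) t := by
  have h1 : HasDerivAt g (deriv g (ex t)) (ex t) := (hg _ (ex_mem t)).differentiableAt.hasDerivAt
  have h2 : HasDerivAt (fun t => g (ex t)) (deriv g (ex t) * (Complex.I * ex t)) t := by
    have := h1.hasFDerivAt.restrictScalars ℝ |>.comp_hasDerivAt t (hasDerivAt_ex t)
    simpa [mul_comm, Function.comp_def] using this
  exact Complex.reCLM.hasFDerivAt.comp_hasDerivAt t h2

lemma continuous_wg (hg : AnalyticOnNhd ℂ g (closedBall 0 1)) : Continuous (wg g) := by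
  have h1 : Continuous (fun t => deriv g (ex t)) :=
    hg.deriv.continuousOn.comp_continuous continuous_ex ex_mem
  unfold wg; fun_prop

lemma wg_periodic (g : ℂ → ℂ) : Function.Periodic (wg g) (2 * π) := fun t => by
  simp only [wg, ex_periodic t]

lemma exists_bound_wg (hg : AnalyticOnNhd ℂ g (closedBall 0 1)) : ∃ B, ∀ t, |wg g t| ≤ B := by
  obtain ⟨B, hB⟩ := (isCompact_closedBall (0 : ℂ) 1).exists_bound_of_continuousOn
    hg.deriv.continuousOn
  refine ⟨B, fun t => (Complex.abs_re_le_norm _).trans ?_⟩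
  rw [norm_mul, norm_mul, Complex.norm_I, norm_ex, mul_one, mul_one]
  exact hB _ (ex_mem t)

lemma integral_wg (hg : AnalyticOnNhd ℂ g (closedBall 0 1)) (a b : ℝ) :
    ∫ t in a..b, wg g t = (g (ex b)).re - (g (ex a)).re :=
  intervalIntegral.integral_eq_sub_of_hasDerivAt (fun t _ => hasDerivAt_wg hg t)
    ((continuous_wg hg).intervalIntegrable _ _)

lemma diffContOnCl_of_analytic (hg : AnalyticOnNhd ℂ g (closedBall 0 1)) :
    DiffContOnCl ℂ g (ball 0 1) := by
  refine ⟨(hg.mono ball_subset_closedBall).differentiableOn, ?_⟩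
  rw [closure_ball _ one_ne_zero]; exact hg.continuousOn

lemma RR_wg {Φ : ℝ → ℝ} (hΦ : Good Φ) (hg : AnalyticOnNhd ℂ g (closedBall 0 1)) (a y : ℝ) :
    RR Φ (wg g) a (ex (Φ y)) + (g (ex a)).re = (g (ex y)).re := by
  obtain ⟨B, hB⟩ := exists_bound_wg hg
  obtain ⟨n, hn1, hn2⟩ := exists_window a y
  have h := RR_boundary (a := a) hΦ (continuous_wg hg).measurable hB
    (by rw [integral_wg hg, ex_periodic a, sub_self]) hn1 hn2.le
  rw [hΦ.per_int, ex_periodic.int_mul n, integral_wg hg, ex_periodic.int_mul n] at h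
  linarith

/-- the conjugate function as a logarithmic potential of the derivative. -/
lemma JJ_id_wg (hg : AnalyticOnNhd ℂ g (closedBall 0 1)) (a : ℝ) {z : ℂ} (hz : ‖z‖ ≤ 1) :
    JJ id (wg g) a z = (g z).im - (g 0).im := by
  obtain ⟨B, hB⟩ := exists_bound_wg hg
  have hm := (continuous_wg hg).measurable
  have h := im_unique (F := fun z => FF id (wg g) a z + ((g (ex a)).re : ℂ))
    (R := fun z => RR id (wg g) a z + (g (ex a)).re)
    ((differentiableOn_FF good_id hm hB).add_const _)
    ((continuousOn_RR good_id hm hB).add continuousOn_const)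
    (fun z _ => by simp [FF_re]) (diffContOnCl_of_analytic hg) (fun z hz => by
      obtain ⟨t, rfl⟩ := exists_ex_of_norm hz
      exact RR_wg good_id hg a t)
  have hE : EqOn (JJ id (wg g) a) (fun z => (g z).im - (g 0).im) (ball 0 1) := by
    intro z hz
    have := h z hz
    simpa [FF_im, JJ_zero] using this
  exact hE.of_subset_closure (continuousOn_JJ good_id UI_id hm hB)
    ((Complex.continuous_im.comp_continuousOn hg.continuousOn).sub continuousOn_const)
    ball_subset_closedBall (by rw [closure_ball _ one_ne_zero]) (by simpa using hz)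

end

/-- the a priori bound. -/
def BB (Φ : ℝ → ℝ) (K : ℝ) : Prop :=
  ∀ g : ℂ → ℂ, AnalyticOnNhd ℂ g (closedBall 0 1) → ∀ M : ℝ, (∀ z : ℂ, ‖z‖ ≤ 1 → ‖g z‖ ≤ M) →
    ∀ y, |∫ t in y..(y + 2 * π), lg (Φ t - Φ y) * wg g t| ≤ K * M

lemma exists_of_BB {Φ : ℝ → ℝ} {K : ℝ} (hΦ : Good Φ) (hU : UI Φ) (hK : BB Φ K) {g : ℂ → ℂ}
    (hg : AnalyticOnNhd ℂ g (closedBall 0 1)) {M : ℝ} (hM : ∀ z : ℂ, ‖z‖ ≤ 1 → ‖g z‖ ≤ M) :
    ∃ F : ℂ → ℂ, DiffContOnCl ℂ F (ball 0 1) ∧ (∀ t, (F (ex (Φ t))).re = (g (ex t)).re) ∧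
      ∀ z : ℂ, ‖z‖ ≤ 1 → ‖F z‖ ≤ (1 + K / π) * M := by
  obtain ⟨B, hB⟩ := exists_bound_wg hg
  have hm := (continuous_wg hg).measurable
  have hF : DiffContOnCl ℂ (fun z => FF Φ (wg g) 0 z + ((g (ex 0)).re : ℂ)) (ball 0 1) :=
    (diffContOnCl_FF hΦ hU hm hB).add_const _
  have hre : ∀ t, (FF Φ (wg g) 0 (ex (Φ t)) + ((g (ex 0)).re : ℂ)).re = (g (ex t)).re := by
    intro t
    simpa [FF_re] using RR_wg hΦ hg 0 t
  refine ⟨_, hF, hre, fun z hz => norm_le_of_sphere hF (fun z hz => ?_) hz⟩
  obtain ⟨y, rfl⟩ := hΦ.exists_ex hz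
  refine (Complex.norm_le_abs_re_add_abs_im _).trans ?_
  rw [hre]
  have h1 : |(g (ex y)).re| ≤ M := (Complex.abs_re_le_norm _).trans (hM _ (norm_ex y).le)
  have hp : Function.Periodic (fun t => lg (Φ t - Φ y) * wg g t) (2 * π) :=
    fun t => by simp only [hΦ.lg_periodic y t, wg_periodic g t]
  have h2 := hK g hg M hM y
  rw [hp.intervalIntegral_add_eq y 0] at h2
  simp only [Complex.add_im, FF_im, Complex.ofReal_im, add_zero, JJ_boundary]
  rw [abs_mul, abs_of_pos (by positivity : (0 : ℝ) < 1 / π)]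
  have : 1 / π * |∫ t in (0 : ℝ)..(0 + 2 * π), lg (Φ t - Φ y) * wg g t| ≤ 1 / π * (K * M) := by
    gcongr
  calc _ ≤ M + 1 / π * (K * M) := by linarith only [h1, this]
    _ = _ := by ring

lemma exists_dilation {f : ℂ → ℂ} (hf : DiffContOnCl ℂ f (ball 0 1)) {ε : ℝ} (hε : 0 < ε) :
    ∃ g : ℂ → ℂ, AnalyticOnNhd ℂ g (closedBall 0 1) ∧ ∀ z : ℂ, ‖z‖ ≤ 1 → ‖g z - f z‖ ≤ ε := by
  have hc := hf.continuousOn
  rw [closure_ball _ one_ne_zero] at hc
  obtain ⟨δ, hδ, hδ'⟩ := Metric.uniformContinuousOn_iff.1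
    ((isCompact_closedBall (0 : ℂ) 1).uniformContinuousOn_of_continuous hc) ε hε
  set r : ℝ := 1 - min (δ / 2) (1 / 2) with hr
  have hr0 : 0 < r := by have := min_le_right (δ / 2) (1 / 2); rw [hr]; linarith only [this]
  have hr1 : r < 1 := by
    have : 0 < min (δ / 2) (1 / 2) := by positivity
    rw [hr]; linarith only [this]
  have hn : ∀ z : ℂ, ‖z‖ ≤ 1 → ‖(r : ℂ) * z‖ < 1 := by
    intro z hz
    rw [norm_mul, Complex.norm_real, Real.norm_eq_abs, abs_of_pos hr0]
    linarith only [hr1, hr0, hz, norm_nonneg z, mul_nonneg_of_nonpos_of_nonpos (le_of_lt (Mathlib.Tactic.Linarith.sub_neg_of_lt hr0)) (Mathlib.Tactic.Linarith.sub_nonpos_of_le hz)]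
  refine ⟨fun z => f (r * z), fun z hz => ?_, fun z hz => ?_⟩
  · have h1 : AnalyticAt ℂ f (r * z) :=
      hf.differentiableOn.analyticAt (isOpen_ball.mem_nhds (by simpa using hn z (by simpa using hz)))
    exact h1.fun_comp (f := fun z : ℂ => (r : ℂ) * z) (by fun_prop)
  · have := hδ' (r * z) (by simpa using (hn z hz).le) z (by simpa using hz) (by
      rw [dist_eq_norm, show (r : ℂ) * z - z = ((r - 1 : ℝ) : ℂ) * z by push_cast; ring, norm_mul,
        Complex.norm_real, Real.norm_eq_abs, abs_of_neg (by linarith only [hr1])]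
      have := min_le_left (δ / 2) (1 / 2)
      linarith only [this, hr0, hr1, hz, norm_nonneg z, mul_pos_of_neg_of_neg (Mathlib.Tactic.Linarith.sub_neg_of_lt hr0) (Mathlib.Tactic.Linarith.sub_neg_of_lt hr1), mul_pos_of_neg_of_neg (Mathlib.Tactic.Linarith.sub_neg_of_lt hr1) (Mathlib.Tactic.Linarith.sub_neg_of_lt hr1), mul_nonneg_of_nonpos_of_nonpos (le_of_lt (Mathlib.Tactic.Linarith.sub_neg_of_lt hr1)) (Mathlib.Tactic.Linarith.sub_nonpos_of_le hz)])
    rw [dist_eq_norm] at this
    exact this.le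

theorem presL_of_BB {Φ : ℝ → ℝ} {K : ℝ} (hΦ : Good Φ) (hU : UI Φ) (hK : BB Φ K) : PresL Φ := by
  intro f hf
  choose g hg hgf using fun n : ℕ => exists_dilation hf (ε := (1 / 2) ^ n) (by positivity)
  have hd : ∀ n : ℕ, ∀ z : ℂ, ‖z‖ ≤ 1 → ‖g (n + 1) z - g n z‖ ≤ 2 * (1 / 2) ^ n := by
    intro n z hz
    have h1 := hgf (n + 1) z hz
    have h2 := hgf n z hz
    have h3 := norm_sub_le (g (n + 1) z - f z) (g n z - f z)
    rw [sub_sub_sub_cancel_right] at h3
    have : ((1 : ℝ) / 2) ^ (n + 1) ≤ (1 / 2) ^ n := by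
      rw [pow_succ]; linarith only [pow_pos (by norm_num : (0 : ℝ) < 1 / 2) n]
    linarith only [h1, h2, h3, this]
  choose F hF hFre hFn using fun n : ℕ =>
    exists_of_BB hΦ hU hK (g := fun z => g (n + 1) z - g n z) ((hg (n + 1)).sub (hg n)) (hd n)
  obtain ⟨M, hM⟩ := (isCompact_closedBall (0 : ℂ) 1).exists_bound_of_continuousOn
    (hg 0).continuousOn
  obtain ⟨F₀, hF₀, hF₀re, -⟩ := exists_of_BB hΦ hU hK (hg 0) (M := M)
    (fun z hz => hM z (by simpa using hz))
  have hs : Summable (fun n : ℕ => (1 + K / π) * (2 * (1 / 2 : ℝ) ^ n)) :=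
    (summable_geometric_two.mul_left 2).mul_left _
  refine ⟨fun z => F₀ z + ∑' n, F n z, hF₀.add ⟨?_, ?_⟩, fun t => ?_⟩
  · exact Complex.differentiableOn_tsum_of_summable_norm hs (fun n => (hF n).differentiableOn)
      isOpen_ball (fun n z hz => hFn n z (by simpa using ball_subset_closedBall hz))
  · rw [closure_ball _ one_ne_zero]
    refine continuousOn_tsum (fun n => ?_) hs (fun n z hz => hFn n z (by simpa using hz))
    have := (hF n).continuousOn
    rwa [closure_ball _ one_ne_zero] at this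
  · have hsum : Summable (fun n => F n (ex (Φ t))) :=
      Summable.of_norm_bounded hs (fun n => hFn n _ (norm_ex _).le)
    have h1 := (Complex.reCLM.hasSum hsum.hasSum).tendsto_sum_nat
    simp only [Complex.reCLM_apply, hFre, Complex.sub_re] at h1
    simp only [Finset.sum_range_sub (fun n => (g n (ex t)).re)] at h1
    have h2 : Tendsto (fun n => (g n (ex t)).re) atTop (𝓝 (f (ex t)).re) := by
      refine (Complex.continuous_re.tendsto _).comp ?_
      rw [tendsto_iff_norm_sub_tendsto_zero]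
      exact squeeze_zero (fun n => norm_nonneg _) (fun n => hgf n _ (norm_ex t).le)
        (tendsto_pow_atTop_nhds_zero_of_lt_one (by norm_num) (by norm_num))
    have h3 := tendsto_nhds_unique h1 (h2.sub_const _)
    rw [Complex.add_re, hF₀re, h3]; ring

end Pool.Agent.Work.MP_af796d_an
end

-- merged part: Pool.Agent.Work.MP_af796d_an.Var
section
set_option autoImplicit false

namespace Pool.Agent.Work.MP_af796d_an

open MeasureTheory Set Filter Topology

/-- the increments of `f` on `[a, b]` are dominated by those of `p`. -/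
def Dom (f p : ℝ → ℝ) (a b : ℝ) : Prop :=
  ∀ x y, a ≤ x → x ≤ y → y ≤ b → |f y - f x| ≤ p y - p x

namespace Dom

variable {f g p q : ℝ → ℝ} {a b : ℝ}

lemma mono (h : Dom f p a b) {c d : ℝ} (h1 : a ≤ c) (h2 : d ≤ b) : Dom f p c d :=
  fun x y hx hxy hy => h x y (h1.trans hx) hxy (hy.trans h2)

lemma add (h : Dom f p a b) (h' : Dom g q a b) :
    Dom (fun t => f t + g t) (fun t => p t + q t) a b := by
  intro x y hx hxy hy
  have h1 := h x y hx hxy hy
  have h2 := h' x y hx hxy hy
  have := abs_add_le (f y - f x) (g y - g x)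
  rw [show f y + g y - (f x + g x) = f y - f x + (g y - g x) by ring]
  linarith

lemma neg (h : Dom f p a b) : Dom (fun t => -f t) p a b := by
  intro x y hx hxy hy
  rw [show -f y - -f x = -(f y - f x) by ring, abs_neg]
  exact h x y hx hxy hy

lemma sub (h : Dom f p a b) (h' : Dom g q a b) :
    Dom (fun t => f t - g t) (fun t => p t + q t) a b := by
  simpa only [sub_eq_add_neg] using h.add h'.neg

lemma const_mul (h : Dom f p a b) (c : ℝ) :
    Dom (fun t => c * f t) (fun t => |c| * p t) a b := by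
  intro x y hx hxy hy
  rw [← mul_sub, ← mul_sub, abs_mul]
  exact mul_le_mul_of_nonneg_left (h x y hx hxy hy) (abs_nonneg c)

lemma congr (h : Dom f p a b) (hfg : ∀ t, a ≤ t → t ≤ b → g t = f t) : Dom g p a b := by
  intro x y hx hxy hy
  rw [hfg x hx (hxy.trans hy), hfg y (hx.trans hxy) hy]
  exact h x y hx hxy hy

lemma of_monotoneOn (h : MonotoneOn f (Icc a b)) : Dom f f a b := by
  intro x y hx hxy hy
  rw [abs_of_nonneg (sub_nonneg.2 (h ⟨hx, hxy.trans hy⟩ ⟨hx.trans hxy, hy⟩ hxy))]

lemma of_antitoneOn (h : AntitoneOn f (Icc a b)) : Dom f (fun t => -f t) a b := by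
  intro x y hx hxy hy
  rw [abs_of_nonpos (sub_nonpos.2 (h ⟨hx, hxy.trans hy⟩ ⟨hx.trans hxy, hy⟩ hxy))]
  linarith

lemma le (h : Dom f p a b) {x y : ℝ} (hx : a ≤ x) (hxy : x ≤ y) (hy : y ≤ b) : p x ≤ p y := by
  have := h x y hx hxy hy
  linarith only [this, abs_nonneg (f y - f x)]

lemma monotoneOn (h : Dom f p a b) : MonotoneOn p (Icc a b) :=
  fun _ hx _ hy hxy => h.le hx.1 hxy hy.2

lemma intervalIntegrable (h : Dom f p a b) (hab : a ≤ b) : IntervalIntegrable f volume a b := by
  have h1 : MonotoneOn p (uIcc a b) := by rw [uIcc_of_le hab]; exact h.monotoneOn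
  have h2 : MonotoneOn (fun t => p t + f t) (uIcc a b) := by
    rw [uIcc_of_le hab]
    intro x hx y hy hxy
    have := h x y hx.1 hxy hy.2
    have := neg_abs_le (f y - f x)
    simp only; linarith
  simpa using h2.intervalIntegrable.sub h1.intervalIntegrable

lemma eVariationOn_le (h : Dom f p a b) :
    eVariationOn f (Icc a b) ≤ ENNReal.ofReal (p b - p a) := by
  refine iSup_le fun ⟨n, u, hu, us⟩ => ?_
  simp only
  calc ∑ i ∈ Finset.range n, edist (f (u (i + 1))) (f (u i))
      ≤ ∑ i ∈ Finset.range n, ENNReal.ofReal (p (u (i + 1)) - p (u i)) := by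
        refine Finset.sum_le_sum fun i _ => ?_
        rw [edist_dist, Real.dist_eq]
        exact ENNReal.ofReal_le_ofReal (h _ _ (us i).1 (hu (Nat.le_succ i)) (us (i + 1)).2)
    _ = ENNReal.ofReal (∑ i ∈ Finset.range n, (p (u (i + 1)) - p (u i))) := by
        rw [ENNReal.ofReal_sum_of_nonneg]
        intro i _
        exact sub_nonneg.2 (h.le (us i).1 (hu (Nat.le_succ i)) (us (i + 1)).2)
    _ ≤ _ := by
        rw [Finset.sum_range_sub (fun i => p (u i))]
        refine ENNReal.ofReal_le_ofReal ?_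
        have h1 := h.le (us n).1 (us n).2 le_rfl
        have h2 := h.le le_rfl (us 0).1 (us 0).2
        linarith

/-- gluing along adjacent intervals. -/
lemma glue {c : ℝ} (h : Dom f p a b) (h' : Dom f q b c) :
    Dom f (fun t => if t ≤ b then p t else p b + (q t - q b)) a c := by
  intro x y hx hxy hy
  by_cases h1 : y ≤ b
  · simp only [h1, hxy.trans h1, if_true]; exact h x y hx hxy h1
  push Not at h1
  by_cases h2 : x ≤ b
  · simp only [h2, not_le.2 h1, if_true, if_false]
    have a1 := h x b hx h2 le_rfl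
    have a2 := h' b y le_rfl h1.le hy
    have := abs_add_le (f y - f b) (f b - f x)
    rw [show f y - f b + (f b - f x) = f y - f x by ring] at this
    linarith
  · simp only [h2, not_le.2 h1, if_false]
    push Not at h2
    have := h' x y h2.le hxy hy
    linarith

lemma comp_add (h : Dom f p a b) (s : ℝ) :
    Dom (fun t => f (s + t)) (fun t => p (s + t)) (a - s) (b - s) :=
  fun x y hx hxy hy => h _ _ (by linarith) (by linarith) (by linarith)

lemma comp_sub (h : Dom f p a b) (s : ℝ) :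
    Dom (fun t => f (s - t)) (fun t => -p (s - t)) (s - b) (s - a) := by
  intro x y hx hxy hy
  have := h (s - y) (s - x) (by linarith) (by linarith) (by linarith)
  rw [abs_sub_comm]; linarith

/-- integration by parts estimate. -/
lemma pairing_aux (h : Dom f p a b) (hab : a ≤ b) {u w : ℝ → ℝ} {M : ℝ}
    (hu : ∀ t, HasDerivAt u (w t) t) (hw : Continuous w) (hM : ∀ t, a ≤ t → t ≤ b → |u t| ≤ M) :
    |(∫ t in a..b, (f t - f a) * w t) - (f b - f a) * u b| ≤ M * (p b - p a) := by
  obtain ⟨B, hB⟩ := isCompact_Icc.exists_bound_of_continuousOn (hw.continuousOn (s := Icc a b))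
  have hB0 : 0 ≤ B := (norm_nonneg _).trans (hB a ⟨le_rfl, hab⟩)
  have hint : ∀ c x y, a ≤ x → x ≤ y → y ≤ b →
      IntervalIntegrable (fun t => (f t - c) * w t) volume x y := fun c x y hx hxy hy =>
    (((h.mono hx hy).intervalIntegrable hxy).sub intervalIntegrable_const).mul_continuousOn
      hw.continuousOn
  have step : ∀ x y, a ≤ x → x ≤ y → y ≤ b →
      |((∫ t in a..y, (f t - f a) * w t) - (f y - f a) * u y)
        - ((∫ t in a..x, (f t - f a) * w t) - (f x - f a) * u x)|
        ≤ (M + B * (y - x)) * (p y - p x) := by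
    intro x y hx hxy hy
    have e1 : ∫ t in x..y, w t = u y - u x :=
      intervalIntegral.integral_eq_sub_of_hasDerivAt (fun t _ => hu t) (hw.intervalIntegrable _ _)
    have e2 : ∫ t in x..y, (f t - f a) * w t
        = (∫ t in x..y, (f t - f x) * w t) + (f x - f a) * (u y - u x) := by
      rw [← e1, ← intervalIntegral.integral_const_mul,
        ← intervalIntegral.integral_add (hint _ x y hx hxy hy)
          ((hw.intervalIntegrable _ _).const_mul _)]
      congr 1; ext t; ring
    have e3 := intervalIntegral.integral_add_adjacent_intervals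
      (hint (f a) a x le_rfl hx (hxy.trans hy)) (hint (f a) x y hx hxy hy)
    have b1 : |∫ t in x..y, (f t - f x) * w t| ≤ (p y - p x) * B * |y - x| := by
      rw [← Real.norm_eq_abs]
      refine intervalIntegral.norm_integral_le_of_norm_le_const fun t ht => ?_
      rw [uIoc_of_le hxy] at ht
      rw [norm_mul, Real.norm_eq_abs]
      have c1 := h x t hx ht.1.le (ht.2.trans hy)
      have c2 := h.le (hx.trans ht.1.le) ht.2 hy
      exact mul_le_mul (by linarith) (hB t ⟨hx.trans ht.1.le, ht.2.trans hy⟩) (norm_nonneg _)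
        (sub_nonneg.2 (h.le hx hxy hy))
    rw [abs_of_nonneg (sub_nonneg.2 hxy)] at b1
    have b2 : |(f y - f x) * u y| ≤ (p y - p x) * M := by
      rw [abs_mul]
      exact mul_le_mul (h x y hx hxy hy) (hM y (hx.trans hxy) hy) (abs_nonneg _)
        (sub_nonneg.2 (h.le hx hxy hy))
    rw [← e3, e2]
    have := abs_sub (∫ t in x..y, (f t - f x) * w t) ((f y - f x) * u y)
    calc _ = |(∫ t in x..y, (f t - f x) * w t) - (f y - f x) * u y| := by congr 1; ring
      _ ≤ _ := by linarith only [b1, b2, this]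
  have main : ∀ n : ℕ, 0 < n → |(∫ t in a..b, (f t - f a) * w t) - (f b - f a) * u b|
      ≤ (M + B * ((b - a) / n)) * (p b - p a) := by
    intro n hn
    have hn' : (0 : ℝ) < n := by exact_mod_cast hn
    set d : ℝ := (b - a) / n with hd
    have hd0 : 0 ≤ d := div_nonneg (by linarith only [hab]) hn'.le
    have ind : ∀ i : ℕ, i ≤ n →
        |(∫ t in a..(a + i * d), (f t - f a) * w t) - (f (a + i * d) - f a) * u (a + i * d)|
          ≤ (M + B * d) * (p (a + i * d) - p a) := by
      intro i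
      induction i with
      | zero => intro _; simp
      | succ i ih =>
        intro hi
        have h1 := ih (by omega)
        have hi' : ((i + 1 : ℕ) : ℝ) ≤ n := by exact_mod_cast hi
        have h3 : a + ((i + 1 : ℕ) : ℝ) * d ≤ b := by
          have : ((i + 1 : ℕ) : ℝ) * d ≤ n * d := mul_le_mul_of_nonneg_right hi' hd0
          rw [hd, mul_div_cancel₀ _ hn'.ne'] at this
          linarith only [this]
        have h2 := step (a + i * d) (a + ((i + 1 : ℕ) : ℝ) * d) (by
          have : 0 ≤ (i : ℝ) * d := by positivity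
          linarith only [this]) (by push_cast; linarith only [hd0]) h3
        rw [show a + ((i + 1 : ℕ) : ℝ) * d - (a + i * d) = d by push_cast; ring] at h2
        have h4 := abs_add_le (((∫ t in a..(a + ((i + 1 : ℕ) : ℝ) * d), (f t - f a) * w t)
          - (f (a + ((i + 1 : ℕ) : ℝ) * d) - f a) * u (a + ((i + 1 : ℕ) : ℝ) * d))
          - ((∫ t in a..(a + i * d), (f t - f a) * w t) - (f (a + i * d) - f a) * u (a + i * d)))
          ((∫ t in a..(a + i * d), (f t - f a) * w t) - (f (a + i * d) - f a) * u (a + i * d))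
        rw [sub_add_cancel] at h4
        linarith only [h1, h2, h4]
    have := ind n le_rfl
    rwa [hd, mul_div_cancel₀ _ hn'.ne', add_sub_cancel] at this
  have lim : Tendsto (fun n : ℕ => (M + B * ((b - a) / n)) * (p b - p a)) atTop
      (𝓝 ((M + B * 0) * (p b - p a))) :=
    (((tendsto_const_div_atTop_nhds_zero_nat (b - a)).const_mul B).const_add M).mul_const _
  rw [mul_zero, add_zero] at lim
  exact ge_of_tendsto lim (eventually_atTop.2 ⟨1, fun n hn => main n hn⟩)

lemma pairing_left (h : Dom f p a b) (hab : a ≤ b) {u w : ℝ → ℝ} {M : ℝ}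
    (hu : ∀ t, HasDerivAt u (w t) t) (hw : Continuous w) (hM : ∀ t, a ≤ t → t ≤ b → |u t| ≤ M) :
    |∫ t in a..b, (f t - f a) * w t| ≤ 2 * M * (p b - p a) := by
  have h1 := h.pairing_aux hab hu hw hM
  have h2 : |(f b - f a) * u b| ≤ (p b - p a) * M := by
    rw [abs_mul]
    exact mul_le_mul (h a b le_rfl hab le_rfl) (hM b hab le_rfl) (abs_nonneg _)
      (sub_nonneg.2 (h.le le_rfl hab le_rfl))
  have := abs_add_le ((∫ t in a..b, (f t - f a) * w t) - (f b - f a) * u b) ((f b - f a) * u b)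
  rw [sub_add_cancel] at this
  linarith only [h1, h2, this]

lemma pairing_right (h : Dom f p a b) (hab : a ≤ b) {u w : ℝ → ℝ} {M : ℝ}
    (hu : ∀ t, HasDerivAt u (w t) t) (hw : Continuous w) (hM : ∀ t, a ≤ t → t ≤ b → |u t| ≤ M) :
    |∫ t in a..b, (f t - f b) * w t| ≤ 2 * M * (p b - p a) := by
  have h1 := h.pairing_aux hab hu hw hM
  have h2 : |(f b - f a) * u a| ≤ (p b - p a) * M := by
    rw [abs_mul]
    exact mul_le_mul (h a b le_rfl hab le_rfl) (hM a le_rfl hab) (abs_nonneg _)
      (sub_nonneg.2 (h.le le_rfl hab le_rfl))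
  have e1 : ∫ t in a..b, w t = u b - u a :=
    intervalIntegral.integral_eq_sub_of_hasDerivAt (fun t _ => hu t) (hw.intervalIntegrable _ _)
  have e2 : ∫ t in a..b, (f t - f b) * w t
      = (∫ t in a..b, (f t - f a) * w t) - (f b - f a) * (u b - u a) := by
    rw [← e1, ← intervalIntegral.integral_const_mul, ← intervalIntegral.integral_sub
      (((h.intervalIntegrable hab).sub intervalIntegrable_const).mul_continuousOn hw.continuousOn)
      ((hw.intervalIntegrable _ _).const_mul _)]
    congr 1; ext t; ring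
  have := abs_add_le ((∫ t in a..b, (f t - f a) * w t) - (f b - f a) * u b) ((f b - f a) * u a)
  rw [e2]
  calc _ = |(∫ t in a..b, (f t - f a) * w t) - (f b - f a) * u b + (f b - f a) * u a| := by
        congr 1; ring
    _ ≤ _ := by linarith only [h1, h2, this]

end Dom

lemma exists_dom {f : ℝ → ℝ} {a b : ℝ} (hab : a ≤ b) (h : eVariationOn f (Icc a b) ≠ ⊤) :
    ∃ p, Dom f p a b ∧ p b - p a = (eVariationOn f (Icc a b)).toReal := by
  have hl : LocallyBoundedVariationOn f (Icc a b) :=
    BoundedVariationOn.locallyBoundedVariationOn h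
  refine ⟨variationOnFromTo f (Icc a b) a, fun x y hx hxy hy => ?_, ?_⟩
  · exact variationOnFromTo.abs_sub_le_sub_of_le hl ⟨le_rfl, hab⟩ ⟨hx, hxy.trans hy⟩
      ⟨hx.trans hxy, hy⟩ hxy
  · rw [variationOnFromTo.self, sub_zero, variationOnFromTo.eq_of_le _ _ hab, inter_self]

end Pool.Agent.Work.MP_af796d_an
end

-- merged part: Pool.Agent.Work.MP_af796d_an.Pot
section
set_option autoImplicit false

namespace Pool.Agent.Work.MP_af796d_an

open MeasureTheory Set Real Filter Topology Metric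

lemma intervalIntegrable_lg_sub (s a b : ℝ) :
    IntervalIntegrable (fun t => lg (t - s)) volume a b := UI_id.1 s a b

section pot

variable (ν : Measure ℝ) [IsFiniteMeasure ν]

lemma integrable_lg_prod {p q : ℝ} (hpq : p ≤ q) (hq : q ≤ p + 2 * π) :
    Integrable (fun x : ℝ × ℝ => lg (x.1 - x.2)) ((volume.restrict (Ioc p q)).prod ν) := by
  have hm : Measurable (fun x : ℝ × ℝ => lg (x.1 - x.2)) := by fun_prop
  rw [integrable_prod_iff' hm.aestronglyMeasurable]
  refine ⟨Eventually.of_forall fun s => (intervalIntegrable_lg_sub s p q).1, ?_⟩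
  refine Integrable.mono' (integrable_const L0) ?_ (Eventually.of_forall fun s => ?_)
  · exact (hm.norm.stronglyMeasurable.integral_prod_left').aestronglyMeasurable
  · rw [Real.norm_eq_abs, abs_of_nonneg (integral_nonneg fun _ => norm_nonneg _),
      ← intervalIntegral.integral_of_le hpq, ← integral_abs_lg p s]
    exact intervalIntegral.integral_mono_interval le_rfl hpq hq
      (Eventually.of_forall fun t => abs_nonneg _) (intervalIntegrable_lg_sub s _ _).abs

omit [IsFiniteMeasure ν] in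
lemma logPot_periodic : Function.Periodic (logPot ν) (2 * π) := fun t => by
  simp only [logPot_eq]
  congr 1; ext s
  rw [show t + 2 * π - s = t - s + 2 * π by ring, lg_periodic]

lemma measurable_logPot : Measurable (logPot ν) := by
  have hm : Measurable (fun x : ℝ × ℝ => lg (x.1 - x.2)) := by fun_prop
  have := (hm.stronglyMeasurable.integral_prod_right' (ν := ν)).measurable
  have e : logPot ν = fun x => ∫ y, lg (x - y) ∂ν := by ext t; exact logPot_eq ν t
  rw [e]; exact this

lemma intervalIntegrable_logPot (a b : ℝ) : IntervalIntegrable (logPot ν) volume a b := by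
  refine (logPot_periodic ν).intervalIntegrable₀ (by positivity) ?_ a b
  have := (integrable_lg_prod ν (p := 0) (q := 2 * π) (by positivity) (by simp)).integral_prod_left
  rw [intervalIntegrable_iff_integrableOn_Ioc_of_le (by positivity)]
  have e : logPot ν = fun x => ∫ y, lg (x - y) ∂ν := by ext t; exact logPot_eq ν t
  rw [e]; exact this

lemma ae_integrable_lg : ∀ᵐ t : ℝ, Integrable (fun s => lg (t - s)) ν := by
  have h : ∀ n : ℤ, ∀ᵐ t : ℝ, t ∈ Ioc (n : ℝ) (n + 1) → Integrable (fun s => lg (t - s)) ν := by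
    intro n
    have := (integrable_lg_prod ν (p := n) (q := n + 1) (by linarith)
      (by linarith [pi_gt_three])).prod_right_ae
    exact (ae_restrict_iff' measurableSet_Ioc).1 this
  filter_upwards [ae_all_iff.2 h] with t ht
  refine ht (⌈t⌉ - 1) ⟨?_, ?_⟩ <;> push_cast
  · linarith [Int.ceil_lt_add_one t]
  · linarith [Int.le_ceil t]

lemma integral_abs_logPot_le {p q ε : ℝ} (hpq : p ≤ q) (hq : q ≤ p + 2 * π)
    (hε : ∀ s, ∫ t in p..q, |lg (t - s)| ≤ ε) : ∫ t in p..q, |logPot ν t| ≤ ε * ν.real univ := by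
  have hi := (integrable_lg_prod ν hpq hq).abs
  rw [intervalIntegral.integral_of_le hpq]
  calc ∫ t in Ioc p q, |logPot ν t| ≤ ∫ t in Ioc p q, ∫ s, |lg (t - s)| ∂ν := by
        refine integral_mono (intervalIntegrable_logPot ν p q).abs.1 hi.integral_prod_left ?_
        intro t
        simp only [logPot_eq]
        exact abs_integral_le_integral_abs
    _ = ∫ s, (∫ t in Ioc p q, |lg (t - s)|) ∂ν := integral_integral_swap hi
    _ ≤ ∫ s, ε ∂ν := by
        refine integral_mono hi.integral_prod_right (integrable_const _) fun s => ?_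
        have := hε s
        rwa [intervalIntegral.integral_of_le hpq] at this
    _ = _ := by simp [mul_comm]

lemma integral_logPot_mul {w : ℝ → ℝ} {B : ℝ} (hw : Measurable w) (hB : ∀ t, |w t| ≤ B) (a : ℝ) :
    ∫ t in a..(a + 2 * π), logPot ν t * w t = π * ∫ s, JJ id w a (ex s) ∂ν := by
  have hle : a ≤ a + 2 * π := by linarith [pi_pos]
  have hi : Integrable (fun x : ℝ × ℝ => lg (x.1 - x.2) * w x.1)
      ((volume.restrict (Ioc a (a + 2 * π))).prod ν) := by
    refine Integrable.mono' ((integrable_lg_prod ν hle le_rfl).abs.mul_const B)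
      (Measurable.aestronglyMeasurable (by fun_prop)) (Eventually.of_forall fun x => ?_)
    rw [Real.norm_eq_abs, abs_mul]
    exact mul_le_mul_of_nonneg_left (hB _) (abs_nonneg _)
  have := integral_integral_swap (f := fun t s => lg (t - s) * w t) hi
  rw [intervalIntegral.integral_of_le hle]
  simp only [logPot_eq, ← integral_mul_const]
  rw [this, ← integral_const_mul]
  congr 1; ext s
  have := JJ_boundary id w a s
  simp only [id] at this
  rw [this, intervalIntegral.integral_of_le hle]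
  field_simp

end pot

/-- the logarithmic potential condition for lifts. -/
def EL (Φ : ℝ → ℝ) : Prop :=
  ∃ C : ℝ, ∀ y : ℝ, ∃ (α p : ℝ → ℝ) (ν₁ ν₂ : Measure ℝ), IsFiniteMeasure ν₁ ∧ IsFiniteMeasure ν₂ ∧
    Dom α p y (y + 2 * π) ∧ p (y + 2 * π) - p y ≤ C ∧ ν₁.real univ ≤ C ∧ ν₂.real univ ≤ C ∧
    ∀ᵐ t : ℝ, t ∈ Icc y (y + 2 * π) → lg (Φ t - Φ y) = α t + logPot ν₁ t - logPot ν₂ t

lemma Good.abs_lg_le {Φ : ℝ → ℝ} (hΦ : Good Φ) {r : ℝ} (hr : 0 < r) :
    ∃ A, ∀ y t, y + r ≤ t → t ≤ y + 2 * π - r → |lg (Φ t - Φ y)| ≤ A := by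
  obtain ⟨η, hη, hη'⟩ := hΦ.chord_lower hr
  refine ⟨|Real.log η| + 1, fun y t h1 h2 => abs_log_le_of_mem hη ?_ (ch_le_two _)⟩
  have := hη' y (t - y) (by linarith) (by linarith)
  rwa [add_sub_cancel] at this

lemma Dom.abs_sub_le {f p : ℝ → ℝ} {a b : ℝ} (h : Dom f p a b) {x y : ℝ} (hx : x ∈ Icc a b)
    (hy : y ∈ Icc a b) : |f x - f y| ≤ p b - p a := by
  rcases le_total x y with hxy | hxy
  · have := h x y hx.1 hxy hy.2
    have h1 := h.le le_rfl hx.1 hx.2
    have h2 := h.le hy.1 hy.2 le_rfl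
    rw [abs_sub_comm]; linarith
  · have := h y x hy.1 hxy hx.2
    have h1 := h.le le_rfl hy.1 hy.2
    have h2 := h.le hx.1 hx.2 le_rfl
    linarith

lemma ae_uIoc {G H : ℝ → ℝ} {y p q : ℝ} (h : ∀ᵐ t : ℝ, t ∈ Icc y (y + 2 * π) → G t = H t)
    (h1 : y ≤ p) (h2 : p ≤ q) (h3 : q ≤ y + 2 * π) : ∀ᵐ t : ℝ, t ∈ uIoc p q → G t = H t := by
  filter_upwards [h] with t ht hm
  rw [uIoc_of_le h2] at hm
  exact ht ⟨h1.trans hm.1.le, hm.2.trans h3⟩

theorem presL_of_EL {Φ : ℝ → ℝ} (hΦ : Good Φ) (hE : EL Φ) : PresL Φ := by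
  obtain ⟨C, hC⟩ := hE
  obtain ⟨A, hA⟩ := hΦ.abs_lg_le one_pos
  have h3 := pi_gt_three
  have hint : ∀ y p q, IntervalIntegrable (fun t => lg (Φ t - Φ y)) volume p q := by
    intro y
    obtain ⟨α, p, ν₁, ν₂, f1, f2, hα, -, -, -, hae⟩ := hC y
    refine (hΦ.lg_periodic y).intervalIntegrable (t := y) (by positivity) ?_
    refine (((hα.intervalIntegrable (by linarith)).add (intervalIntegrable_logPot ν₁ _ _)).sub
      (intervalIntegrable_logPot ν₂ _ _)).congr_ae ?_
    refine (ae_restrict_iff' measurableSet_uIoc).2 ?_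
    filter_upwards [ae_uIoc hae le_rfl (by linarith) le_rfl] with t ht hm using (ht hm).symm
  refine presL_of_BB (K := 2 * C + 4 * π * C) hΦ ⟨hint, fun ε hε => ?_⟩ ?_
  · set A₀ : ℝ := |A + 2 * (L0 * C) + C| + 1 with hA₀
    have hA₀0 : 0 < A₀ := by positivity
    obtain ⟨h, hh, hh'⟩ := lg_unif (ε / (8 * (|C| + 1))) (by positivity)
    refine ⟨min (min h 1) (ε / (4 * A₀)), by positivity, fun y => ?_⟩
    set ρ : ℝ := min (min h 1) (ε / (4 * A₀)) with hρ
    have hρ0 : 0 < ρ := by positivity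
    have hρh : ρ ≤ h := (min_le_left _ _).trans (min_le_left _ _)
    have hρ1 : ρ ≤ 1 := (min_le_left _ _).trans (min_le_right _ _)
    have hρε : ρ ≤ ε / (4 * A₀) := min_le_right _ _
    obtain ⟨α, p, ν₁, ν₂, f1, f2, hα, hp, m1, m2, hae⟩ := hC y
    have hαi : ∀ a b, y ≤ a → a ≤ b → b ≤ y + 2 * π → IntervalIntegrable α volume a b :=
      fun a b h1 h2 h3 => (hα.mono h1 h3).intervalIntegrable h2
    have hL : ∀ s, ∫ t in (y + 1)..(y + 2), |lg (t - s)| ≤ L0 := by
      intro s
      rw [← integral_abs_lg (y + 1) s]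
      exact intervalIntegral.integral_mono_interval le_rfl (by linarith) (by linarith)
        (Eventually.of_forall fun t => abs_nonneg _) (intervalIntegrable_lg_sub s _ _).abs
    have hU : ∀ (ν : Measure ℝ) [IsFiniteMeasure ν], ν.real univ ≤ C →
        ∫ t in (y + 1)..(y + 2), |logPot ν t| ≤ L0 * C := fun ν _ hν =>
      (integral_abs_logPot_le ν (by linarith) (by linarith) hL).trans
        (mul_le_mul_of_nonneg_left hν L0_nonneg)
    have hαb : ∀ t ∈ Icc y (y + 2 * π), |α t| ≤ A₀ := by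
      intro t ht
      have s1 : ∫ _ in (y + 1)..(y + 2), |α t|
          ≤ ∫ s in (y + 1)..(y + 2), (A + C + (|logPot ν₁ s| + |logPot ν₂ s|)) := by
        refine intervalIntegral.integral_mono_ae_restrict (by linarith) intervalIntegrable_const
          (intervalIntegrable_const.add ((intervalIntegrable_logPot ν₁ _ _).abs.add
            (intervalIntegrable_logPot ν₂ _ _).abs)) ?_
        refine (ae_restrict_iff' measurableSet_Icc).2 ?_
        filter_upwards [hae] with s hs hm
        have hm' : s ∈ Icc y (y + 2 * π) := ⟨by linarith [hm.1], by linarith [hm.2]⟩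
        have e := hs hm'
        have b1 := hA y s hm.1 (by linarith [hm.2])
        have b2 := (hα.abs_sub_le ht hm').trans hp
        rw [abs_le] at b1 b2
        have c1 := le_abs_self (logPot ν₁ s)
        have c2 := neg_abs_le (logPot ν₁ s)
        have c3 := le_abs_self (logPot ν₂ s)
        have c4 := neg_abs_le (logPot ν₂ s)
        rw [abs_le]; constructor <;> linarith only [e, b1, b2, c1, c4, c2, c3, b1.1, b1.2, b2.1, b2.2]
      rw [intervalIntegral.integral_add intervalIntegrable_const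
        ((intervalIntegrable_logPot ν₁ _ _).abs.add (intervalIntegrable_logPot ν₂ _ _).abs),
        intervalIntegral.integral_add (intervalIntegrable_logPot ν₁ _ _).abs
          (intervalIntegrable_logPot ν₂ _ _).abs] at s1
      simp only [intervalIntegral.integral_const, smul_eq_mul] at s1
      have := hU ν₁ m1
      have := hU ν₂ m2
      have := le_abs_self (A + 2 * (L0 * C) + C)
      rw [hA₀]; nlinarith
    have hsmall : ∀ a, y ≤ a → a + ρ ≤ y + 2 * π →
        ∫ t in a..(a + ρ), |lg (Φ t - Φ y)| ≤ ε / 2 := by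
      intro a h1 h2
      have hL' : ∀ s, ∫ t in a..(a + ρ), |lg (t - s)| ≤ ε / (8 * (|C| + 1)) := by
        intro s
        rw [intervalIntegral.integral_comp_sub_right (fun t => |lg t|) s]
        exact hh' _ _ (by linarith) (by linarith)
      have hU' : ∀ (ν : Measure ℝ) [IsFiniteMeasure ν], ν.real univ ≤ C →
          ∫ t in a..(a + ρ), |logPot ν t| ≤ ε / 8 := by
        intro ν _ hν
        refine (integral_abs_logPot_le ν (by linarith) (by linarith only [h3, hρ1]) hL').trans ?_
        have : ν.real univ ≤ |C| + 1 := by linarith [le_abs_self C]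
        calc _ ≤ ε / (8 * (|C| + 1)) * (|C| + 1) := by gcongr
          _ = _ := by field_simp
      have s1 : ∫ t in a..(a + ρ), |lg (Φ t - Φ y)|
          ≤ ∫ s in a..(a + ρ), (A₀ + (|logPot ν₁ s| + |logPot ν₂ s|)) := by
        refine intervalIntegral.integral_mono_ae_restrict (by linarith only [hρ0]) (hint y _ _).abs
          (intervalIntegrable_const.add ((intervalIntegrable_logPot ν₁ _ _).abs.add
            (intervalIntegrable_logPot ν₂ _ _).abs)) ?_
        refine (ae_restrict_iff' measurableSet_Icc).2 ?_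
        filter_upwards [hae] with s hs hm
        have hm' : s ∈ Icc y (y + 2 * π) := ⟨by linarith [hm.1], by linarith [hm.2]⟩
        have b1 := hαb s hm'
        rw [hs hm']
        have c1 := abs_sub (α s + logPot ν₁ s) (logPot ν₂ s)
        have c2 := abs_add_le (α s) (logPot ν₁ s)
        linarith only [b1, c1, c2]
      rw [intervalIntegral.integral_add intervalIntegrable_const
        ((intervalIntegrable_logPot ν₁ _ _).abs.add (intervalIntegrable_logPot ν₂ _ _).abs),
        intervalIntegral.integral_add (intervalIntegrable_logPot ν₁ _ _).abs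
          (intervalIntegrable_logPot ν₂ _ _).abs] at s1
      simp only [intervalIntegral.integral_const, smul_eq_mul, add_sub_cancel_left] at s1
      have := hU' ν₁ m1
      have := hU' ν₂ m2
      have : ρ * A₀ ≤ ε / 4 := by
        calc ρ * A₀ ≤ ε / (4 * A₀) * A₀ := by gcongr
          _ = _ := by field_simp
      linarith
    rw [← intervalIntegral.integral_add_adjacent_intervals (hint y _ y).abs (hint y _ _).abs]
    have e1 : ∫ t in (y - ρ)..y, |lg (Φ t - Φ y)|
        = ∫ t in (y + 2 * π - ρ)..(y + 2 * π - ρ + ρ), |lg (Φ t - Φ y)| := by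
      rw [show y + 2 * π - ρ + ρ = y + 2 * π by ring, show y + 2 * π - ρ = y - ρ + 2 * π by ring,
        ← intervalIntegral.integral_comp_add_right (fun t => |lg (Φ t - Φ y)|)]
      congr 1; ext t
      have := hΦ.lg_periodic y t
      simp only at this
      rw [this]
    have := hsmall y le_rfl (by linarith only [h3, hρ1])
    have := hsmall (y + 2 * π - ρ) (by linarith only [h3, hρ1]) (by linarith only [])
    linarith
  · intro g hg M hM y
    obtain ⟨α, p, ν₁, ν₂, f1, f2, hα, hp, m1, m2, hae⟩ := hC y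
    obtain ⟨B, hB⟩ := exists_bound_wg hg
    have hw := continuous_wg hg
    have hM0 : 0 ≤ M := (norm_nonneg _).trans (hM 0 (by simp))
    have hle : y ≤ y + 2 * π := by linarith
    have hU : ∀ (ν : Measure ℝ) [IsFiniteMeasure ν], ν.real univ ≤ C →
        |∫ t in y..(y + 2 * π), logPot ν t * wg g t| ≤ π * (2 * M * C) := by
      intro ν _ hν
      rw [integral_logPot_mul ν hw.measurable hB, abs_mul, abs_of_pos pi_pos]
      refine mul_le_mul_of_nonneg_left ?_ pi_pos.le
      have := norm_integral_le_of_norm_le_const (μ := ν) (f := fun s => JJ id (wg g) y (ex s))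
        (C := 2 * M) (Eventually.of_forall fun s => by
          rw [JJ_id_wg hg y (norm_ex s).le, Real.norm_eq_abs]
          have c1 := (Complex.abs_im_le_norm _).trans (hM _ (norm_ex s).le)
          have c2 := (Complex.abs_im_le_norm _).trans (hM 0 (by simp))
          have := abs_sub (g (ex s)).im (g 0).im
          linarith)
      exact this.trans (mul_le_mul_of_nonneg_left hν (by positivity))
    have h1 := hα.pairing_left hle (hasDerivAt_wg hg) hw (M := M)
      (fun t _ _ => (Complex.abs_re_le_norm _).trans (hM _ (norm_ex t).le))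
    have i0 := hw.intervalIntegrable (μ := volume) y (y + 2 * π)
    have i1 := ((hα.intervalIntegrable hle).sub
      (intervalIntegrable_const (c := α y))).mul_continuousOn hw.continuousOn
    have i2 := (intervalIntegrable_logPot ν₁ y (y + 2 * π)).mul_continuousOn hw.continuousOn
    have i3 := (intervalIntegrable_logPot ν₂ y (y + 2 * π)).mul_continuousOn hw.continuousOn
    have e : ∫ t in y..(y + 2 * π), lg (Φ t - Φ y) * wg g t
        = (∫ t in y..(y + 2 * π), (α t - α y) * wg g t) + α y * (∫ t in y..(y + 2 * π), wg g t)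
          + (∫ t in y..(y + 2 * π), logPot ν₁ t * wg g t)
          - ∫ t in y..(y + 2 * π), logPot ν₂ t * wg g t := by
      rw [← intervalIntegral.integral_const_mul, ← intervalIntegral.integral_add i1 (i0.const_mul _),
        ← intervalIntegral.integral_add (i1.add (i0.const_mul _)) i2,
        ← intervalIntegral.integral_sub ((i1.add (i0.const_mul _)).add i2) i3]
      refine intervalIntegral.integral_congr_ae ?_
      filter_upwards [ae_uIoc hae le_rfl hle le_rfl] with t ht hm
      rw [ht hm]; ring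
    rw [e, integral_wg hg, ex_periodic y, sub_self, mul_zero, add_zero]
    have h2 := hU ν₁ m1
    have h3 := hU ν₂ m2
    have h4 : 2 * M * (p (y + 2 * π) - p y) ≤ 2 * M * C := by gcongr
    have c1 := abs_sub ((∫ t in y..(y + 2 * π), (α t - α y) * wg g t)
      + (∫ t in y..(y + 2 * π), logPot ν₁ t * wg g t)) (∫ t in y..(y + 2 * π), logPot ν₂ t * wg g t)
    have c2 := abs_add_le (∫ t in y..(y + 2 * π), (α t - α y) * wg g t)
      (∫ t in y..(y + 2 * π), logPot ν₁ t * wg g t)
    linarith only [h1, h2, h3, h4, c1, c2]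

end Pool.Agent.Work.MP_af796d_an
end
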