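import Pool.Agent.Work.MP_af796d_an.Pot

-- merged part: Pool.Agent.Work.MP_af796d_an.Dyadic
section
set_option autoImplicit false

namespace Pool.Agent.Work.MP_af796d_an

open MeasureTheory Set Real Filter Topology Metric

lemma Dom.comp_mono {f p m : ℝ → ℝ} {a b c d : ℝ} (h : Dom f p a b) (hm : Monotone m)
    (hab : ∀ t, c ≤ t → t ≤ d → a ≤ m t ∧ m t ≤ b) :
    Dom (fun t => f (m t)) (fun t => p (m t)) c d := fun x y hx hxy hy =>
  h _ _ (hab x hx (hxy.trans hy)).1 (hm hxy) (hab y (hx.trans hxy) hy).2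

/-- dyadic radii. -/
noncomputable def rr (k : ℕ) : ℝ := 1 / 2 ^ k

lemma rr_pos (k : ℕ) : 0 < rr k := by unfold rr; positivity

lemma rr_zero : rr 0 = 1 := by simp [rr]

lemma rr_succ (k : ℕ) : rr (k + 1) = rr k / 2 := by unfold rr; rw [pow_succ]; field_simp

lemma rr_succ_le (k : ℕ) : rr (k + 1) ≤ rr k := by have := rr_pos k; rw [rr_succ]; linarith only [this]

lemma rr_anti : Antitone rr := antitone_nat_of_succ_le rr_succ_le

lemma rr_le_one (k : ℕ) : rr k ≤ 1 := by rw [← rr_zero]; exact rr_anti (Nat.zero_le k)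

lemma tendsto_rr : Tendsto rr atTop (𝓝 0) := by
  have : rr = fun k => (1 / 2 : ℝ) ^ k := by ext k; simp [rr]
  rw [this]
  exact tendsto_pow_atTop_nhds_zero_of_lt_one (by norm_num) (by norm_num)

lemma exists_rr {t : ℝ} (h0 : 0 < t) (h1 : t ≤ 1) : ∃ k, rr (k + 1) ≤ t ∧ t ≤ rr k := by
  obtain ⟨n, hn1, hn2⟩ := exists_nat_pow_near_of_lt_one h0 h1 (by norm_num : (0 : ℝ) < 1 / 2)
    (by norm_num)
  exact ⟨n, by simpa [rr] using hn1.le, by simpa [rr] using hn2⟩

lemma lg_mono {a b : ℝ} (ha : 0 < a) (hab : a ≤ b) (hb : b ≤ π) : lg a ≤ lg b :=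
  Real.log_le_log (ch_pos ha (by linarith [pi_pos]))
    (ch_monoOn ⟨ha.le, hab.trans hb⟩ ⟨ha.le.trans hab, hb⟩ hab)

lemma dom_lg {a : ℝ} (ha : 0 < a) : Dom lg lg a π :=
  Dom.of_monotoneOn fun _ hx _ hy hxy => lg_mono (ha.trans_le hx.1) hxy hy.2

/-- the two-sided pairing. -/
noncomputable def Pair (w : ℝ → ℝ) (y : ℝ) (f₁ f₂ : ℝ → ℝ) : ℝ :=
  (∫ t in (0 : ℝ)..π, f₁ t * w (y + t)) + ∫ t in (0 : ℝ)..π, f₂ t * w (y - t)

lemma Pair_eq {w : ℝ → ℝ} (hw : Continuous w) (y : ℝ) {F : ℝ → ℝ}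
    (hF : ∀ p q, IntervalIntegrable F volume p q) :
    Pair w y (fun t => F (y + t)) (fun t => F (y - t)) = ∫ t in (y - π)..(y + π), F t * w t := by
  rw [Pair, intervalIntegral.integral_comp_add_left (fun t => F t * w t) y,
    intervalIntegral.integral_comp_sub_left (fun t => F t * w t) y, add_zero, sub_zero, add_comm,
    intervalIntegral.integral_add_adjacent_intervals ((hF _ _).mul_continuousOn hw.continuousOn)
      ((hF _ _).mul_continuousOn hw.continuousOn)]

lemma Pair_lin {w : ℝ → ℝ} (hw : Continuous w) (y c : ℝ) {f₁ f₂ g₁ g₂ : ℝ → ℝ}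
    (hf₁ : IntervalIntegrable f₁ volume 0 π) (hf₂ : IntervalIntegrable f₂ volume 0 π)
    (hg₁ : IntervalIntegrable g₁ volume 0 π) (hg₂ : IntervalIntegrable g₂ volume 0 π) :
    Pair w y (fun t => f₁ t - c * g₁ t) (fun t => f₂ t - c * g₂ t)
      = Pair w y f₁ f₂ - c * Pair w y g₁ g₂ := by
  have c1 : ContinuousOn (fun t => w (y + t)) (uIcc 0 π) := by fun_prop
  have c2 : ContinuousOn (fun t => w (y - t)) (uIcc 0 π) := by fun_prop
  simp only [Pair, sub_mul, mul_assoc]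
  rw [intervalIntegral.integral_sub (hf₁.mul_continuousOn c1) ((hg₁.mul_continuousOn c1).const_mul c),
    intervalIntegral.integral_sub (hf₂.mul_continuousOn c2) ((hg₂.mul_continuousOn c2).const_mul c),
    intervalIntegral.integral_const_mul, intervalIntegral.integral_const_mul]
  ring

section pair

variable {g : ℂ → ℂ} {M : ℝ}

lemma Pair_dom (hg : AnalyticOnNhd ℂ g (closedBall 0 1)) (hM : ∀ z : ℂ, ‖z‖ ≤ 1 → ‖g z‖ ≤ M)
    (y : ℝ) {f₁ f₂ p₁ p₂ : ℝ → ℝ} (h₁ : Dom f₁ p₁ 0 π) (h₂ : Dom f₂ p₂ 0 π) (he : f₁ π = f₂ π) :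
    |Pair (wg g) y f₁ f₂| ≤ 2 * M * ((p₁ π - p₁ 0) + (p₂ π - p₂ 0)) := by
  have hw := continuous_wg hg
  have hb : ∀ t, |(g (ex t)).re| ≤ M := fun t =>
    (Complex.abs_re_le_norm _).trans (hM _ (norm_ex t).le)
  have c1 : Continuous (fun t => wg g (y + t)) := by fun_prop
  have c2 : Continuous (fun t => wg g (y - t)) := by fun_prop
  have d1 : ∀ t, HasDerivAt (fun t => (g (ex (y + t))).re) (wg g (y + t)) t := fun t =>
    (hasDerivAt_wg hg (y + t)).comp_const_add y t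
  have d2 : ∀ t, HasDerivAt (fun t => -(g (ex (y - t))).re) (wg g (y - t)) t := fun t => by
    have := ((hasDerivAt_wg hg (y - t)).comp_const_sub y t).fun_neg
    rwa [neg_neg] at this
  have a1 := h₁.pairing_right pi_pos.le d1 c1 (M := M) fun t _ _ => hb _
  have a2 := h₂.pairing_right pi_pos.le d2 c2 (M := M) fun t _ _ => by rw [abs_neg]; exact hb _
  have e0 : Pair (wg g) y (fun _ => 1) (fun _ => 1) = 0 := by
    rw [Pair_eq hw y (F := fun _ => 1) fun _ _ => intervalIntegrable_const]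
    simp only [one_mul]
    rw [integral_wg hg, show y + π = y - π + 2 * π by ring, ex_periodic, sub_self]
  have e1 := Pair_lin hw y (f₁ π) (h₁.intervalIntegrable pi_pos.le) (h₂.intervalIntegrable pi_pos.le)
    (g₁ := fun _ => 1) (g₂ := fun _ => 1) intervalIntegrable_const intervalIntegrable_const
  rw [e0, mul_zero, sub_zero] at e1
  rw [← e1, Pair]
  simp only [mul_one]
  rw [← he] at a2
  refine (abs_add_le _ _).trans ?_
  linarith

/-- logarithm of the distance from an interior point. -/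
noncomputable def PP (ρ t : ℝ) : ℝ := Real.log ‖1 - (ρ : ℂ) * ex (-t)‖

lemma norm_sq_one_sub (ρ t : ℝ) : ‖1 - (ρ : ℂ) * ex (-t)‖ ^ 2 = (1 - ρ) ^ 2 + ρ * ch t ^ 2 := by
  rw [← norm_one_sub_ex t]
  have h := norm_ex (-t)
  generalize ex (-t) = z at *
  have h2 : z.re ^ 2 + z.im ^ 2 = 1 := by
    have := Complex.sq_norm z
    rw [h, Complex.normSq_apply] at this
    nlinarith
  rw [Complex.sq_norm, Complex.sq_norm, Complex.normSq_apply, Complex.normSq_apply]
  simp only [Complex.sub_re, Complex.one_re, Complex.mul_re, Complex.ofReal_re, Complex.ofReal_im,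
    Complex.sub_im, Complex.one_im, Complex.mul_im]
  linear_combination (ρ ^ 2 - ρ) * h2

lemma PP_eq (ρ t : ℝ) : PP ρ t = Real.log ((1 - ρ) ^ 2 + ρ * ch t ^ 2) / 2 := by
  rw [← norm_sq_one_sub, Real.log_pow, PP]; push_cast; ring

lemma PP_neg (ρ t : ℝ) : PP ρ (-t) = PP ρ t := by rw [PP_eq, PP_eq, ch_neg]

lemma continuous_PP {ρ : ℝ} (h0 : 0 ≤ ρ) (h1 : ρ < 1) : Continuous (PP ρ) := by
  have : PP ρ = fun t => Real.log ((1 - ρ) ^ 2 + ρ * ch t ^ 2) / 2 := by ext t; exact PP_eq ρ t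
  rw [this]
  refine Continuous.div_const (Continuous.log (by fun_prop) fun t => ?_) _
  have : 0 < 1 - ρ := by linarith
  positivity

lemma Pair_PP (hg : AnalyticOnNhd ℂ g (closedBall 0 1)) (hM : ∀ z : ℂ, ‖z‖ ≤ 1 → ‖g z‖ ≤ M)
    (y : ℝ) {ρ : ℝ} (h0 : 0 ≤ ρ) (h1 : ρ < 1) : |Pair (wg g) y (PP ρ) (PP ρ)| ≤ 8 * M := by
  have hc := continuous_PP h0 h1
  have e := Pair_eq (continuous_wg hg) y (F := fun t => PP ρ (t - y))
    fun p q => Continuous.intervalIntegrable (by fun_prop) p q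
  simp only [add_sub_cancel_left, sub_sub_cancel_left, PP_neg] at e
  have hz : ‖(ρ : ℂ) * ex y‖ ≤ 1 := by
    rw [norm_mul, norm_ex, mul_one, Complex.norm_real, Real.norm_eq_abs, abs_of_nonneg h0]
    exact h1.le
  have e2 := JJ_id_wg hg (y - π) hz
  simp only [JJ, id, polar_mul] at e2
  rw [show y - π + 2 * π = y + π by ring] at e2
  have e3 : Pair (wg g) y (PP ρ) (PP ρ) = π * ((g (ρ * ex y)).im - (g 0).im) := by
    rw [← e2, ← mul_assoc, mul_one_div_cancel pi_pos.ne', one_mul]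
    exact e
  have c1 := (Complex.abs_im_le_norm _).trans (hM _ hz)
  have c2 := (Complex.abs_im_le_norm _).trans (hM 0 (by simp))
  have c3 := abs_sub (g (ρ * ex y)).im (g 0).im
  rw [e3, abs_mul, abs_of_pos pi_pos]
  have := pi_le_four
  linarith only [c1, c2, c3, this, abs_nonneg ((g (ρ * ex y)).im - (g 0).im), pi_pos, mul_nonneg_of_nonpos_of_nonpos (Mathlib.Tactic.Linarith.sub_nonpos_of_le this) (Mathlib.Tactic.Linarith.sub_nonpos_of_le (abs_nonneg ((g (↑ρ * ex y)).im - (g (0 : ℂ)).im)))]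

lemma log_le_one_of_le_two {x : ℝ} (h0 : 0 < x) (h : x ≤ 2) : Real.log x ≤ 1 := by
  have := Real.log_le_sub_one_of_pos h0; linarith

lemma dom_trunc {r : ℝ} (h0 : 0 < r) (h1 : r ≤ 1) :
    ∃ p, Dom (fun t => PP (1 - r / 2) t - lg (max t r)) p 0 π ∧ p π - p 0 ≤ 3 := by
  have h3 := pi_gt_three
  set ρ : ℝ := 1 - r / 2 with hρ
  have hρ1 : 1 / 2 ≤ ρ := by rw [hρ]; linarith only [h1]
  have hρ2 : ρ ≤ 1 := by rw [hρ]; linarith only [h0]
  have hs : 1 - ρ = r / 2 := by rw [hρ]; ring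
  have hcr1 : r / 2 ≤ ch r := by
    have := le_ch' (t := r) (by rw [abs_of_pos h0]; linarith only [h1, h3])
    rwa [abs_of_pos h0] at this
  have hcr2 : ch r ≤ r := by simpa [abs_of_pos h0] using ch_le_abs r
  have m1 : MonotoneOn (PP ρ) (Icc 0 π) := by
    intro a ha b hb hab
    rw [PP_eq, PP_eq, hs]
    have := ch_monoOn ha hb hab
    have := ch_nonneg a
    gcongr
  have e2 : ∀ t, r ≤ t → t ≤ π → PP ρ t - lg t = Real.log ((r / 2) ^ 2 / ch t ^ 2 + ρ) / 2 := by
    intro t a b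
    have hc := ch_pos (h0.trans_le a) (by linarith only [h3, b])
    have : (r / 2) ^ 2 / ch t ^ 2 + ρ = ((1 - ρ) ^ 2 + ρ * ch t ^ 2) / ch t ^ 2 := by
      rw [hs]; field_simp
    rw [this, Real.log_div (by rw [hs]; positivity) (by positivity), Real.log_pow, PP_eq, lg]
    push_cast; ring
  have m2 : AntitoneOn (fun t => PP ρ t - lg t) (Icc r π) := by
    intro a ha b hb hab
    simp only
    rw [e2 a ha.1 ha.2, e2 b hb.1 hb.2]
    have := ch_monoOn ⟨h0.le.trans ha.1, ha.2⟩ ⟨h0.le.trans hb.1, hb.2⟩ hab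
    have := ch_pos (h0.trans_le ha.1) (by linarith only [h3, ha, ha.2])
    gcongr
  have d1 := (Dom.of_monotoneOn m1).comp_mono (m := fun t => min t r) (c := 0) (d := π)
    (monotone_id.min monotone_const) fun t a b => ⟨le_min a h0.le, (min_le_left _ _).trans b⟩
  have d2 := (Dom.of_antitoneOn m2).comp_mono (m := fun t => max t r) (c := 0) (d := π)
    (monotone_id.max monotone_const) fun t a b => ⟨le_max_right _ _, max_le b (by linarith only [h1, h3])⟩
  have d3 : Dom (fun _ => PP ρ r) (fun _ => 0) 0 π := fun _ _ _ _ _ => by simp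
  refine ⟨_, ((d1.add d2).sub d3).congr fun t _ _ => ?_, ?_⟩
  · rcases le_total t r with h | h
    · rw [min_eq_left h, max_eq_right h]; ring
    · rw [min_eq_right h, max_eq_left h]; ring
  · simp only [min_eq_right (show r ≤ π by linarith only [h1, h3]), min_eq_left h0.le,
      max_eq_left (show r ≤ π by linarith only [h1, h3]), max_eq_right h0.le]
    have hc := ch_pos h0 (by linarith only [h1, h3])
    have hcπ := ch_pos pi_pos (by linarith only [h3])
    have b1 : PP ρ r - PP ρ 0 ≤ 2 := by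
      have hc0 : ch 0 = 0 := by simp [ch, ex_zero]
      rw [PP_eq, PP_eq, hs, hc0, ← sub_div, ← Real.log_div (by positivity) (by positivity)]
      have := Real.log_le_sub_one_of_pos (x := ((r / 2) ^ 2 + ρ * ch r ^ 2) / ((r / 2) ^ 2 + ρ * 0 ^ 2))
        (by positivity)
      have h5 : ((r / 2) ^ 2 + ρ * ch r ^ 2) / ((r / 2) ^ 2 + ρ * 0 ^ 2) ≤ 5 := by
        rw [div_le_iff₀ (by positivity)]
        have : ch r ^ 2 ≤ r ^ 2 := by gcongr
        linarith only [this, h0, hρ, sq_nonneg (ch r), mul_nonneg_of_nonpos_of_nonpos (Mathlib.Tactic.Linarith.sub_nonpos_of_le (sq_nonneg (ch r))) (le_of_lt (Mathlib.Tactic.Linarith.sub_neg_of_lt h0)), Mathlib.Tactic.Linarith.mul_zero_eq (Mathlib.Tactic.Linarith.sub_nonpos_of_le (sq_nonneg (ch r))) (sub_eq_zero_of_eq hρ)]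
      linarith only [this, h5]
    have b2 : PP ρ r - lg r ≤ 1 / 2 := by
      rw [e2 r le_rfl (by linarith only [h1, h3])]
      have : (r / 2) ^ 2 / ch r ^ 2 ≤ 1 := by
        rw [div_le_one (by positivity)]; gcongr
      have := log_le_one_of_le_two (x := (r / 2) ^ 2 / ch r ^ 2 + ρ) (by positivity) (by linarith only [h0, hρ, this])
      linarith only [this]
    have b3 : -(1 / 2) ≤ PP ρ π - lg π := by
      rw [e2 π (by linarith only [h1, h3]) le_rfl]
      have h6 : 0 ≤ (r / 2) ^ 2 / ch π ^ 2 := by positivity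
      have h7 := Real.log_le_log (x := 2⁻¹) (y := (r / 2) ^ 2 / ch π ^ 2 + ρ) (by norm_num)
        (by linarith only [h1, hρ, h6])
      rw [Real.log_inv] at h7
      have := log_le_one_of_le_two two_pos le_rfl
      linarith only [h7, this]
    linarith only [b1, b2, b3]

lemma dom_lg_max {r : ℝ} (h0 : 0 < r) (h1 : r ≤ 1) :
    Dom (fun t => lg (max t r)) (fun t => lg (max t r)) 0 π :=
  (dom_lg h0).comp_mono (m := fun t => max t r) (monotone_id.max monotone_const)
    fun t _ b => ⟨le_max_right _ _, max_le b (by linarith [pi_gt_three])⟩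

lemma Pair_trunc (hg : AnalyticOnNhd ℂ g (closedBall 0 1)) (hM : ∀ z : ℂ, ‖z‖ ≤ 1 → ‖g z‖ ≤ M)
    (y : ℝ) {r : ℝ} (h0 : 0 < r) (h1 : r ≤ 1) :
    |Pair (wg g) y (fun t => lg (max t r)) (fun t => lg (max t r))| ≤ 20 * M := by
  have hM0 : 0 ≤ M := (norm_nonneg _).trans (hM 0 (by simp))
  obtain ⟨p, hp, hp'⟩ := dom_trunc h0 h1
  have a1 := Pair_dom hg hM y hp hp rfl
  have a2 := Pair_PP hg hM y (ρ := 1 - r / 2) (by linarith only [h1]) (by linarith only [h0])
  have i1 := (continuous_PP (ρ := 1 - r / 2) (by linarith only [h1]) (by linarith only [h0])).intervalIntegrable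
    (μ := volume) 0 π
  have i2 := (dom_lg_max h0 h1).intervalIntegrable pi_pos.le
  have e := Pair_lin (continuous_wg hg) y 1 i1 i1 i2 i2
  simp only [one_mul] at e
  rw [e] at a1
  have := abs_sub (Pair (wg g) y (PP (1 - r / 2)) (PP (1 - r / 2)))
    (Pair (wg g) y (PP (1 - r / 2)) (PP (1 - r / 2))
      - Pair (wg g) y (fun t => lg (max t r)) (fun t => lg (max t r)))
  rw [sub_sub_cancel] at this
  linarith only [a1, a2, this, hM0, hp', mul_nonneg_of_nonpos_of_nonpos (Mathlib.Tactic.Linarith.sub_nonpos_of_le hM0) (Mathlib.Tactic.Linarith.sub_nonpos_of_le hp')]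

end pair

/-- one-sided dyadic data. -/
structure Side (γ : ℝ → ℝ) (c V : ℕ → ℝ) (A : ℝ) : Prop where
  dom : ∀ k, ∃ p, Dom (fun t => γ t - c k * lg t) p (rr (k + 1)) (rr k) ∧
    p (rr k) - p (rr (k + 1)) ≤ V k
  far : ∃ p, Dom γ p 1 π ∧ p π - p 1 ≤ A
  bdd : ∀ t, 1 / 2 ≤ t → t ≤ π → |γ t| ≤ A

namespace Side

variable {γ : ℝ → ℝ} {c V : ℕ → ℝ} {A : ℝ}

lemma V_nonneg (h : Side γ c V A) (k : ℕ) : 0 ≤ V k := by
  obtain ⟨p, hp, hp'⟩ := h.dom k
  have := hp.le le_rfl (rr_succ_le k) le_rfl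
  linarith

lemma step (h : Side γ c V A) (k : ℕ) : ∃ p, Dom (fun t => γ (max t (rr (k + 1))) - γ (max t (rr k))
    - c k * (lg (max t (rr (k + 1))) - lg (max t (rr k)))) p 0 π ∧ p π - p 0 ≤ V k := by
  obtain ⟨p, hp, hp'⟩ := h.dom k
  have h1 := rr_succ_le k
  have h2 := rr_pos (k + 1)
  have h3 : rr k ≤ π := by linarith [rr_le_one k, pi_gt_three]
  have d1 := hp.comp_mono (m := fun t => min (max t (rr (k + 1))) (rr k)) (c := 0) (d := π)
    ((monotone_id.max monotone_const).min monotone_const)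
    fun t _ _ => ⟨le_min (le_max_right _ _) h1, min_le_right _ _⟩
  have d3 : Dom (fun _ => γ (rr k) - c k * lg (rr k)) (fun _ => 0) 0 π := fun _ _ _ _ _ => by simp
  refine ⟨_, (d1.sub d3).congr fun t _ _ => ?_, ?_⟩
  · rcases le_total t (rr k) with h | h
    · rw [min_eq_left (max_le h h1), max_eq_right h]; ring
    · rw [max_eq_left h, max_eq_left (h1.trans h), min_eq_right h]; ring
  · simp only [max_eq_left (h1.trans h3), min_eq_right h3, max_eq_right h2.le, min_eq_left h1]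
    linarith

lemma far' (h : Side γ c V A) : ∃ p, Dom (fun t => γ (max t (rr 0))) p 0 π ∧ p π - p 0 ≤ A := by
  obtain ⟨p, hp, hp'⟩ := h.far
  have h3 : 1 ≤ π := by linarith [pi_gt_three]
  refine ⟨_, hp.comp_mono (m := fun t => max t (rr 0)) (monotone_id.max monotone_const)
    fun t _ b => ⟨by rw [rr_zero]; exact le_max_right _ _, by rw [rr_zero]; exact max_le b h3⟩, ?_⟩
  simp only [rr_zero, max_eq_left h3, max_eq_right zero_le_one]
  exact hp'

lemma int_trunc (h : Side γ c V A) (K : ℕ) :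
    IntervalIntegrable (fun t => γ (max t (rr K))) volume 0 π := by
  induction K with
  | zero => obtain ⟨p, hp, -⟩ := h.far'; exact hp.intervalIntegrable pi_pos.le
  | succ k ih =>
    obtain ⟨p, hp, -⟩ := h.step k
    have i1 := (dom_lg_max (rr_pos k) (rr_le_one k)).intervalIntegrable pi_pos.le
    have i2 := (dom_lg_max (rr_pos (k + 1)) (rr_le_one (k + 1))).intervalIntegrable pi_pos.le
    refine (((hp.intervalIntegrable pi_pos.le).add ih).add ((i2.sub i1).const_mul (c k))).congr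
      fun t _ => ?_
    ring

lemma growth (h : Side γ c V A) {C : ℝ} (hc : ∀ k, |c k| ≤ C)
    (hV : ∀ N, ∑ k ∈ Finset.range N, V k ≤ C) {t s : ℝ} (ht : 0 < t) (hts : t ≤ s) (hs : s ≤ π) :
    |γ s| ≤ A + 2 * C + C * |lg t| := by
  have h3 := pi_gt_three
  have hC : 0 ≤ C := (abs_nonneg _).trans (hc 0)
  rcases le_total 1 s with h1 | h1
  · have := h.bdd s (by linarith only [ht, hts, h1]) hs
    have : 0 ≤ C * |lg t| := by positivity
    linarith
  have key : ∀ k s, rr (k + 1) ≤ s → s ≤ rr k →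
      |γ s - γ (rr k)| ≤ V k + C * (lg (rr k) - lg s) := by
    intro k s a b
    obtain ⟨p, hp, hp'⟩ := h.dom k
    have b1 := (hp.abs_sub_le ⟨a, b⟩ ⟨rr_succ_le k, le_rfl⟩).trans hp'
    have b2 := lg_mono ((rr_pos _).trans_le a) b (by linarith [rr_le_one k])
    have b3 : |c k * (lg s - lg (rr k))| ≤ C * (lg (rr k) - lg s) := by
      rw [abs_mul, abs_sub_comm, abs_of_nonneg (sub_nonneg.2 b2)]
      exact mul_le_mul_of_nonneg_right (hc k) (sub_nonneg.2 b2)
    have := abs_add_le (γ s - c k * lg s - (γ (rr k) - c k * lg (rr k))) (c k * (lg s - lg (rr k)))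
    rw [show γ s - c k * lg s - (γ (rr k) - c k * lg (rr k)) + c k * (lg s - lg (rr k))
      = γ s - γ (rr k) by ring] at this
    linarith
  have ind : ∀ k, |γ (rr k) - γ 1| ≤ ∑ j ∈ Finset.range k, V j + C * (lg 1 - lg (rr k)) := by
    intro k
    induction k with
    | zero => simp [rr_zero]
    | succ k ih =>
      have := key k _ le_rfl (rr_succ_le k)
      have := abs_sub_le (γ (rr (k + 1))) (γ (rr k)) (γ 1)
      rw [Finset.sum_range_succ]
      linarith
  obtain ⟨k, a, b⟩ := exists_rr (ht.trans_le hts) h1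
  have b1 := key k s a b
  have b2 := ind k
  have b3 := hV (k + 1)
  rw [Finset.sum_range_succ] at b3
  have b4 := h.bdd 1 (by norm_num) (by linarith)
  have b5 := lg_mono ht hts hs
  have b6 := lg_le 1
  have b7 := abs_sub_le (γ s) (γ (rr k)) (γ 1)
  have b8 := abs_add_le (γ s - γ 1) (γ 1)
  rw [sub_add_cancel] at b8
  have b9 : C * (lg 1 - lg s) ≤ C * (1 + |lg t|) :=
    mul_le_mul_of_nonneg_left (by linarith only [b5, b6, neg_abs_le (lg t)]) hC
  linarith only [b1, b2, b3, b4, b7, b8, b9]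

lemma c_zero (h : Side γ c V A) : |c 0| ≤ (2 * A + V 0) / (lg 1 - lg (1 / 2)) := by
  have h3 := pi_gt_three
  have hl : 0 < lg 1 - lg (1 / 2) := by
    rw [sub_pos]
    refine Real.log_lt_log (ch_pos (by norm_num) (by linarith only [h3])) ?_
    rw [ch_eq_sin (by norm_num) (by linarith only [h3]), ch_eq_sin (by norm_num) (by linarith)]
    have := Real.sin_lt_sin_of_lt_of_le_pi_div_two (x := 1 / 2 / 2) (y := 1 / 2) (by linarith only [h3])
      (by linarith) (by norm_num)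
    linarith only [this]
  obtain ⟨p, hp, hp'⟩ := h.dom 0
  have e : rr (0 + 1) = 1 / 2 := by norm_num [rr]
  rw [e, rr_zero] at hp hp'
  have b1 := (hp _ _ le_rfl (by norm_num) le_rfl).trans hp'
  have b2 := h.bdd 1 (by norm_num) (by linarith only [h3])
  have b3 := h.bdd (1 / 2) le_rfl (by linarith only [h3])
  rw [le_div_iff₀ hl, ← abs_of_pos hl, ← abs_mul]
  rw [abs_le] at b1 b2 b3 ⊢
  constructor <;> linarith only [b1, b2, b3, b1.1, b1.2, b2.1, b2.2, b3.1, b3.2]

lemma tendsto_trunc (h : Side γ c V A) {C : ℝ} (hc : ∀ k, |c k| ≤ C)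
    (hV : ∀ N, ∑ k ∈ Finset.range N, V k ≤ C) {w : ℝ → ℝ} (hw : Continuous w) :
    Tendsto (fun K => ∫ t in (0 : ℝ)..π, γ (max t (rr K)) * w t) atTop
      (𝓝 (∫ t in (0 : ℝ)..π, γ t * w t)) := by
  refine intervalIntegral.tendsto_integral_filter_of_dominated_convergence
    (fun t => (A + 2 * C + C * |lg t|) * |w t|) ?_ ?_ ?_ ?_
  · filter_upwards with K
    exact ((h.int_trunc K).mul_continuousOn hw.continuousOn).def'.aestronglyMeasurable
  · filter_upwards with K
    filter_upwards with t ht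
    rw [uIoc_of_le pi_pos.le] at ht
    rw [Real.norm_eq_abs, abs_mul]
    exact mul_le_mul_of_nonneg_right (h.growth hc hV ht.1 (le_max_left _ _)
      (max_le ht.2 (by linarith only [rr_le_one K, pi_gt_three]))) (abs_nonneg _)
  · exact (intervalIntegrable_const.add ((intervalIntegrable_lg _ _).abs.const_mul C)).mul_continuousOn
      hw.abs.continuousOn
  · filter_upwards with t ht
    rw [uIoc_of_le pi_pos.le] at ht
    refine tendsto_const_nhds.congr' ?_
    filter_upwards [tendsto_rr.eventually (ge_mem_nhds ht.1)] with K hK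
    rw [max_eq_left hK]

end Side

lemma Pair_bound {g : ℂ → ℂ} {M : ℝ} (hg : AnalyticOnNhd ℂ g (closedBall 0 1))
    (hM : ∀ z : ℂ, ‖z‖ ≤ 1 → ‖g z‖ ≤ M) (y : ℝ) {γ₁ γ₂ : ℝ → ℝ} {c V₁ V₂ : ℕ → ℝ} {A C : ℝ}
    (h₁ : Side γ₁ c V₁ A) (h₂ : Side γ₂ c V₂ A) (he : γ₁ π = γ₂ π) (hc : ∀ k, |c k| ≤ C)
    (hV : ∀ N, ∑ k ∈ Finset.range N, (|c (k + 1) - c k| + V₁ k + V₂ k) ≤ C) :
    |Pair (wg g) y γ₁ γ₂| ≤ (4 * A + 60 * C) * M := by
  have hM0 : 0 ≤ M := (norm_nonneg _).trans (hM 0 (by simp))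
  have hw := continuous_wg hg
  have hπ : ∀ k, max π (rr k) = π := fun k => max_eq_left (by linarith [rr_le_one k, pi_gt_three])
  set X : ℕ → ℝ := fun K => Pair (wg g) y (fun t => γ₁ (max t (rr K))) (fun t => γ₂ (max t (rr K)))
    with hX
  set Y : ℕ → ℝ := fun K => Pair (wg g) y (fun t => lg (max t (rr K))) (fun t => lg (max t (rr K)))
    with hY
  have hYb : ∀ K, |Y K| ≤ 20 * M := fun K => Pair_trunc hg hM y (rr_pos K) (rr_le_one K)
  have hX0 : |X 0| ≤ 4 * A * M := by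
    obtain ⟨p₁, d1, e1⟩ := h₁.far'
    obtain ⟨p₂, d2, e2⟩ := h₂.far'
    have := Pair_dom hg hM y d1 d2 (by simp only [hπ, he])
    have b : 2 * M * (p₁ π - p₁ 0 + (p₂ π - p₂ 0)) ≤ 2 * M * (A + A) := by gcongr
    simp only [hX]; linarith
  have hstep : ∀ k, |X (k + 1) - X k - c k * (Y (k + 1) - Y k)| ≤ 2 * M * (V₁ k + V₂ k) := by
    intro k
    obtain ⟨p₁, d1, e1⟩ := h₁.step k
    obtain ⟨p₂, d2, e2⟩ := h₂.step k
    have a := Pair_dom hg hM y d1 d2 (by simp only [hπ, he])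
    have i1 := (dom_lg_max (rr_pos k) (rr_le_one k)).intervalIntegrable pi_pos.le
    have i2 := (dom_lg_max (rr_pos (k + 1)) (rr_le_one (k + 1))).intervalIntegrable pi_pos.le
    have l1 := Pair_lin hw y 1 (h₁.int_trunc (k + 1)) (h₂.int_trunc (k + 1)) (h₁.int_trunc k)
      (h₂.int_trunc k)
    have l2 := Pair_lin hw y 1 i2 i2 i1 i1
    have l3 := Pair_lin hw y (c k) ((h₁.int_trunc (k + 1)).sub (h₁.int_trunc k))
      ((h₂.int_trunc (k + 1)).sub (h₂.int_trunc k)) (i2.sub i1) (i2.sub i1)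
    simp only [one_mul] at l1 l2
    rw [l3, l1, l2] at a
    have b : 2 * M * (p₁ π - p₁ 0 + (p₂ π - p₂ 0)) ≤ 2 * M * (V₁ k + V₂ k) := by gcongr
    exact a.trans b
  have ind : ∀ K, |X K - c K * Y K| ≤ |X 0 - c 0 * Y 0|
      + 20 * M * ∑ k ∈ Finset.range K, (|c (k + 1) - c k| + V₁ k + V₂ k) := by
    intro K
    induction K with
    | zero => simp
    | succ k ih =>
      rw [Finset.sum_range_succ]
      have a1 := hstep k
      have a2 : |(c (k + 1) - c k) * Y (k + 1)| ≤ |c (k + 1) - c k| * (20 * M) := by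
        rw [abs_mul]; exact mul_le_mul_of_nonneg_left (hYb _) (abs_nonneg _)
      have a3 := mul_nonneg hM0 (h₁.V_nonneg k)
      have a4 := mul_nonneg hM0 (h₂.V_nonneg k)
      rw [abs_le] at a1 a2 ih ⊢
      constructor <;> linarith only [ih, a1, a2, a1.1, a1.2, a2.1, a2.2, ih.1, ih.2]
  have hcY : ∀ K, |c K * Y K| ≤ C * (20 * M) := fun K => by
    rw [abs_mul]; exact mul_le_mul (hc K) (hYb K) (abs_nonneg _) ((abs_nonneg _).trans (hc 0))
  have hXb : ∀ K, |X K| ≤ (4 * A + 60 * C) * M := by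
    intro K
    have a1 := ind K
    have a2 := mul_le_mul_of_nonneg_left (hV K) (show 0 ≤ 20 * M by positivity)
    have a3 := abs_sub (X 0) (c 0 * Y 0)
    have a4 := abs_add_le (X K - c K * Y K) (c K * Y K)
    rw [sub_add_cancel] at a4
    linarith only [hX0, a1, a2, a3, a4, hcY, hcY K, hcY 0]
  have hV1 : ∀ N, ∑ k ∈ Finset.range N, V₁ k ≤ C := fun N =>
    (Finset.sum_le_sum fun k _ => by linarith [abs_nonneg (c (k + 1) - c k), h₂.V_nonneg k]).trans
      (hV N)
  have hV2 : ∀ N, ∑ k ∈ Finset.range N, V₂ k ≤ C := fun N =>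
    (Finset.sum_le_sum fun k _ => by linarith [abs_nonneg (c (k + 1) - c k), h₁.V_nonneg k]).trans
      (hV N)
  have lim : Tendsto X atTop (𝓝 (Pair (wg g) y γ₁ γ₂)) :=
    (h₁.tendsto_trunc hc hV1 (w := fun t => wg g (y + t)) (by fun_prop)).add
      (h₂.tendsto_trunc hc hV2 (w := fun t => wg g (y - t)) (by fun_prop))
  exact le_of_tendsto' lim.abs hXb

end Pool.Agent.Work.MP_af796d_an
end

-- merged part: Pool.Agent.Work.MP_af796d_an.Suff
section
set_option autoImplicit false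

namespace Pool.Agent.Work.MP_af796d_an

open MeasureTheory Set Real Filter Topology Metric

lemma abs_log_sub_log_le {p q η : ℝ} (hη : 0 < η) (hp : η ≤ p) (hq : η ≤ q) :
    |Real.log p - Real.log q| ≤ |p - q| / η := by
  have key : ∀ p q : ℝ, η ≤ p → η ≤ q → Real.log p - Real.log q ≤ |p - q| / η := by
    intro p q hp hq
    have hq0 : 0 < q := hη.trans_le hq
    rw [← Real.log_div (hη.trans_le hp).ne' hq0.ne']
    refine (Real.log_le_sub_one_of_pos (div_pos (hη.trans_le hp) hq0)).trans ?_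
    rw [div_sub_one hq0.ne']
    calc (p - q) / q ≤ |p - q| / q := by gcongr; exact le_abs_self _
      _ ≤ _ := by gcongr
  rw [abs_le]
  constructor
  · have := key q p hq hp
    rw [abs_sub_comm] at this; linarith only [this]
  · exact key p q hp hq

lemma Good.dom_far {Φ : ℝ → ℝ} (hΦ : Good Φ) {r : ℝ} (hr : 0 < r) :
    ∃ η > 0, ∀ y, Dom (fun t => lg (Φ t - Φ y)) (fun t => Φ t / η) (y + r) (y + 2 * π - r) := by
  obtain ⟨η, hη, hη'⟩ := hΦ.chord_lower hr
  refine ⟨η, hη, fun y a b ha hab hb => ?_⟩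
  have h1 := hη' y (a - y) (by linarith) (by linarith)
  have h2 := hη' y (b - y) (by linarith) (by linarith)
  rw [add_sub_cancel] at h1 h2
  refine (abs_log_sub_log_le hη h2 h1).trans ?_
  have h3 := abs_ch_sub_ch (Φ b - Φ y) (Φ a - Φ y)
  rw [sub_sub_sub_cancel_right, abs_of_nonneg (sub_nonneg.2 (hΦ.mono.monotone hab))] at h3
  rw [← sub_div]
  gcongr

lemma Good.lg_sub {Φ : ℝ → ℝ} (hΦ : Good Φ) (y t : ℝ) :
    lg (Φ (y - t) - Φ y) = lg (Φ (y + 2 * π - t) - Φ y) := by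
  have := hΦ.lg_periodic y (y - t)
  simp only at this
  rw [← this]; congr 3; ring

lemma Good.far {Φ : ℝ → ℝ} (hΦ : Good Φ) {r : ℝ} (hr : 0 < r) (hr' : r ≤ π) : ∃ A, 0 ≤ A ∧ ∀ y,
    (∃ p, Dom (fun t => lg (Φ (y + t) - Φ y)) p r π ∧ p π - p r ≤ A) ∧
    (∃ p, Dom (fun t => lg (Φ (y - t) - Φ y)) p r π ∧ p π - p r ≤ A) := by
  obtain ⟨η, hη, h⟩ := hΦ.dom_far hr
  refine ⟨2 * π / η, by positivity, fun y => ⟨⟨_, ((h y).comp_add y).mono (by linarith)
    (by linarith), ?_⟩, ⟨_, (((h y).comp_sub (y + 2 * π)).mono (by linarith)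
    (by linarith)).congr fun t _ _ => hΦ.lg_sub y t, ?_⟩⟩⟩
  · rw [← sub_div]
    have := hΦ.mono.monotone (show y + π ≤ y + r + 2 * π by linarith [pi_pos])
    rw [hΦ.per] at this
    gcongr; linarith
  · rw [neg_sub_neg, ← sub_div]
    have := hΦ.mono.monotone (show y + 2 * π - r ≤ y + 2 * π - π + 2 * π by linarith [pi_pos])
    rw [hΦ.per] at this
    gcongr; linarith

/-- the dyadic condition for lifts. -/
def DC (Φ : ℝ → ℝ) : Prop :=
  ∃ C : ℝ, ∀ y, ∃ c V₁ V₂ : ℕ → ℝ,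
    (∀ k, ∃ p, Dom (fun t => lg (Φ (y + t) - Φ y) - c k * lg t) p (rr (k + 1)) (rr k) ∧
      p (rr k) - p (rr (k + 1)) ≤ V₁ k) ∧
    (∀ k, ∃ p, Dom (fun t => lg (Φ (y - t) - Φ y) - c k * lg t) p (rr (k + 1)) (rr k) ∧
      p (rr k) - p (rr (k + 1)) ≤ V₂ k) ∧
    ∀ N, ∑ k ∈ Finset.range N, (|c (k + 1) - c k| + V₁ k + V₂ k) ≤ C

theorem presL_of_DC {Φ : ℝ → ℝ} (hΦ : Good Φ) (hD : DC Φ) : PresL Φ := by
  obtain ⟨C₀, hC₀⟩ := hD
  have h3 := pi_gt_three
  obtain ⟨A₁, hA₁0, hA₁⟩ := hΦ.far one_pos (by linarith)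
  obtain ⟨A₂, hA₂⟩ := hΦ.abs_lg_le (r := 1 / 2) (by norm_num)
  set A : ℝ := max A₁ A₂ with hA
  set C : ℝ := |(2 * A + |C₀|) / (lg 1 - lg (1 / 2))| + |C₀| with hC
  have hC0 : 0 ≤ C := by positivity
  have hA0 : 0 ≤ A := hA₁0.trans (le_max_left _ _)
  have data : ∀ y, ∃ c V₁ V₂ : ℕ → ℝ, Side (fun t => lg (Φ (y + t) - Φ y)) c V₁ A ∧
      Side (fun t => lg (Φ (y - t) - Φ y)) c V₂ A ∧ (∀ k, |c k| ≤ C) ∧
      ∀ N, ∑ k ∈ Finset.range N, (|c (k + 1) - c k| + V₁ k + V₂ k) ≤ C := by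
    intro y
    obtain ⟨c, V₁, V₂, h1, h2, h4⟩ := hC₀ y
    obtain ⟨⟨p₁, d1, e1⟩, ⟨p₂, d2, e2⟩⟩ := hA₁ y
    have s1 : Side (fun t => lg (Φ (y + t) - Φ y)) c V₁ A :=
      ⟨h1, ⟨p₁, d1, e1.trans (le_max_left _ _)⟩, fun t a b =>
        (hA₂ y _ (by linarith only [a]) (by linarith only [h3, b])).trans (le_max_right _ _)⟩
    have s2 : Side (fun t => lg (Φ (y - t) - Φ y)) c V₂ A :=
      ⟨h2, ⟨p₂, d2, e2.trans (le_max_left _ _)⟩, fun t a b => by
        rw [hΦ.lg_sub]
        exact (hA₂ y _ (by linarith only [h3, b]) (by linarith only [a])).trans (le_max_right _ _)⟩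
    have hd : ∀ N, ∑ k ∈ Finset.range N, |c (k + 1) - c k| ≤ |C₀| := fun N =>
      (Finset.sum_le_sum fun k _ => by linarith only [s1, s2, s1.V_nonneg k, s2.V_nonneg k]).trans
        ((h4 N).trans (le_abs_self _))
    refine ⟨c, V₁, V₂, s1, s2, fun k => ?_, fun N => (h4 N).trans ?_⟩
    · have a1 := s1.c_zero
      have a2 := h4 1
      rw [Finset.sum_range_one] at a2
      have hl := lg_mono (a := 1 / 2) (b := 1) (by norm_num) (by norm_num) (by linarith only [h3])
      have a3 : (2 * A + V₁ 0) / (lg 1 - lg (1 / 2)) ≤ (2 * A + |C₀|) / (lg 1 - lg (1 / 2)) := by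
        refine div_le_div_of_nonneg_right ?_ (by linarith only [hl])
        linarith only [a2, s2, abs_nonneg (c (0 + 1) - c 0), s2.V_nonneg 0, le_abs_self C₀]
      have a4 := Finset.abs_sum_le_sum_abs (fun k => c (k + 1) - c k) (Finset.range k)
      rw [Finset.sum_range_sub] at a4
      have a5 := abs_add_le (c k - c 0) (c 0)
      rw [sub_add_cancel] at a5
      have a6 := le_abs_self ((2 * A + |C₀|) / (lg 1 - lg (1 / 2)))
      linarith only [a1, a3, a4, a5, a6, hd, hd k]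
    · linarith only [le_abs_self C₀, abs_nonneg ((2 * A + |C₀|) / (lg 1 - lg (1 / 2)))]
  have grow : ∀ y t, t ≠ y → |t - y| ≤ π → |lg (Φ t - Φ y)| ≤ A + 2 * C + C * |lg (t - y)| := by
    intro y t hne hle
    obtain ⟨c, V₁, V₂, s1, s2, hc, hV⟩ := data y
    rw [abs_le] at hle
    rcases lt_or_gt_of_ne hne with h | h
    · have := s2.growth hc (fun N => (Finset.sum_le_sum fun k _ => by
        linarith only [s1, abs_nonneg (c (k + 1) - c k), s1.V_nonneg k]).trans (hV N))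
        (t := y - t) (s := y - t) (by linarith only [h]) le_rfl (by linarith only [hle])
      simp only [sub_sub_cancel] at this
      rwa [← lg_neg (t - y), neg_sub]
    · have := s1.growth hc (fun N => (Finset.sum_le_sum fun k _ => by
        linarith only [s2, abs_nonneg (c (k + 1) - c k), s2.V_nonneg k]).trans (hV N))
        (t := t - y) (s := t - y) (by linarith only [h]) le_rfl (by linarith only [hle])
      simpa only [add_sub_cancel] using this
  have hbi : ∀ y p q, IntervalIntegrable (fun t => A + 2 * C + C * |lg (t - y)|) volume p q :=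
    fun y p q => intervalIntegrable_const.add ((intervalIntegrable_lg_sub y p q).abs.const_mul C)
  have hne : ∀ y, ∀ᵐ t : ℝ, t ≠ y := fun y => by simp [ae_iff, measure_singleton]
  have hint : ∀ y p q, IntervalIntegrable (fun t => lg (Φ t - Φ y)) volume p q := by
    intro y
    refine (hΦ.lg_periodic y).intervalIntegrable (t := y - π) (by positivity) ?_
    refine (hbi y _ _).mono_fun' (Measurable.aestronglyMeasurable (by have := hΦ.cont; fun_prop)) ?_
    refine (ae_restrict_iff' measurableSet_uIoc).2 ?_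
    filter_upwards [hne y] with t ht hm
    rw [uIoc_of_le (by linarith only [h3])] at hm
    exact grow y t ht (abs_le.2 ⟨by linarith only [hm, hm.1], by linarith only [hm, hm.2]⟩)
  refine presL_of_BB (K := 4 * A + 60 * C) hΦ ⟨hint, fun ε hε => ?_⟩ ?_
  · obtain ⟨h, hh, hh'⟩ := lg_unif (ε / (2 * (C + 1))) (by positivity)
    refine ⟨min (min (h / 2) 1) (ε / (4 * (A + 2 * C + 1))), by positivity, fun y => ?_⟩
    set ρ : ℝ := min (min (h / 2) 1) (ε / (4 * (A + 2 * C + 1))) with hρ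
    have hρ0 : 0 < ρ := by positivity
    have hρh : ρ ≤ h / 2 := (min_le_left _ _).trans (min_le_left _ _)
    have hρ1 : ρ ≤ 1 := (min_le_left _ _).trans (min_le_right _ _)
    have hρε : ρ ≤ ε / (4 * (A + 2 * C + 1)) := min_le_right _ _
    have s1 : ∫ t in (y - ρ)..(y + ρ), |lg (Φ t - Φ y)|
        ≤ ∫ t in (y - ρ)..(y + ρ), (A + 2 * C + C * |lg (t - y)|) := by
      refine intervalIntegral.integral_mono_ae_restrict (by linarith only [hρ0]) (hint y _ _).abs (hbi y _ _) ?_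
      refine (ae_restrict_iff' measurableSet_Icc).2 ?_
      filter_upwards [hne y] with t ht hm
      exact grow y t ht (abs_le.2 ⟨by linarith only [h3, hρ1, hm, hm.1], by linarith only [h3, hρ1, hm, hm.2]⟩)
    rw [intervalIntegral.integral_add intervalIntegrable_const
      ((intervalIntegrable_lg_sub y _ _).abs.const_mul C), intervalIntegral.integral_const,
      intervalIntegral.integral_const_mul,
      intervalIntegral.integral_comp_sub_right (fun t => |lg t|) y, smul_eq_mul] at s1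
    have s2 := hh' (y - ρ - y) (y + ρ - y) (by linarith only [hρ0]) (by linarith only [hρh])
    have s3 : C * (∫ t in (y - ρ - y)..(y + ρ - y), |lg t|) ≤ (C + 1) * (ε / (2 * (C + 1))) :=
      mul_le_mul (by linarith only []) s2
        (intervalIntegral.integral_nonneg (by linarith only [hρ0]) fun _ _ => abs_nonneg _) (by linarith only [hC0])
    have s4 : (C + 1) * (ε / (2 * (C + 1))) = ε / 2 := by field_simp
    have s5 : ρ * (A + 2 * C + 1) ≤ ε / 4 := by
      calc ρ * (A + 2 * C + 1) ≤ ε / (4 * (A + 2 * C + 1)) * (A + 2 * C + 1) := by gcongr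
        _ = _ := by field_simp
    linarith only [hρ0, s1, s3, s4, s5]
  · intro g hg M hM y
    obtain ⟨c, V₁, V₂, s1, s2, hc, hV⟩ := data y
    have := Pair_bound hg hM y s1 s2 (by rw [hΦ.lg_sub]; congr 3; ring) hc hV
    rw [Pair_eq (continuous_wg hg) y (F := fun t => lg (Φ t - Φ y)) (hint y)] at this
    have hp : Function.Periodic (fun t => lg (Φ t - Φ y) * wg g t) (2 * π) :=
      fun t => by simp only [hΦ.lg_periodic y t, wg_periodic g t]
    rw [hp.intervalIntegral_add_eq y (y - π), show y - π + 2 * π = y + π by ring]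
    exact this

lemma exists_sides {φ : Circle → Circle} {Φ : ℝ → ℝ} (h : ∀ y t, chordLog φ y t = lg (Φ t - Φ y))
    {y c : ℝ} {k : ℕ} (hfin : dyadicVar φ y c k ≠ ⊤) : ∃ V₁ V₂ : ℝ,
      (∃ p, Dom (fun t => lg (Φ (y + t) - Φ y) - c * lg t) p (rr (k + 1)) (rr k) ∧
        p (rr k) - p (rr (k + 1)) ≤ V₁) ∧
      (∃ p, Dom (fun t => lg (Φ (y - t) - Φ y) - c * lg t) p (rr (k + 1)) (rr k) ∧
        p (rr k) - p (rr (k + 1)) ≤ V₂) ∧ V₁ + V₂ = (dyadicVar φ y c k).toReal := by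
  rw [dyadicVar, ne_eq, ENNReal.add_eq_top, not_or] at hfin
  have hle := rr_succ_le k
  obtain ⟨p₁, d1, e1⟩ := exists_dom (a := y + rr (k + 1)) (b := y + rr k) (by linarith) hfin.1
  obtain ⟨p₂, d2, e2⟩ := exists_dom (a := y - rr k) (b := y - rr (k + 1)) (by linarith) hfin.2
  refine ⟨_, _, ⟨_, ((d1.comp_add y).mono (by linarith) (by linarith)).congr fun t _ _ => ?_,
    le_rfl⟩, ⟨_, ((d2.comp_sub y).mono (by linarith) (by linarith)).congr fun t _ _ => ?_,
    le_rfl⟩, ?_⟩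
  · simp only [h, chordLog_id, add_sub_cancel_left]
  · simp only [h, chordLog_id, sub_sub_cancel_left, lg_neg]
  · rw [dyadicVar, ENNReal.toReal_add hfin.1 hfin.2]
    simp only [rr] at e1 e2 ⊢
    linarith only [e1, e2]

theorem DC_of_dyadic {φ : Circle → Circle} {Φ : ℝ → ℝ}
    (h : ∀ y t, chordLog φ y t = lg (Φ t - Φ y))
    (hD : ∃ C : NNReal, ∀ y : ℝ, ∃ c : ℕ → ℝ,
      ∑' k, (ENNReal.ofReal |c (k + 1) - c k| + dyadicVar φ y (c k) k) ≤ C) : DC Φ := by
  obtain ⟨C, hC⟩ := hD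
  refine ⟨C, fun y => ?_⟩
  obtain ⟨c, hc⟩ := hC y
  have hfin : ∀ k, dyadicVar φ y (c k) k ≠ ⊤ := fun k =>
    ((le_add_self.trans ((ENNReal.le_tsum k).trans hc)).trans_lt ENNReal.coe_lt_top).ne
  choose V₁ V₂ h1 h2 h3 using fun k => exists_sides h (hfin k)
  refine ⟨c, V₁, V₂, h1, h2, fun N => ?_⟩
  have a1 := ENNReal.toReal_le_coe_of_le_coe ((ENNReal.sum_le_tsum (Finset.range N)).trans hc)
  rw [ENNReal.toReal_sum fun k _ => ENNReal.add_ne_top.2 ⟨ENNReal.ofReal_ne_top, hfin k⟩] at a1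
  refine le_trans (le_of_eq (Finset.sum_congr rfl fun k _ => ?_)) a1
  rw [ENNReal.toReal_add ENNReal.ofReal_ne_top (hfin k), ENNReal.toReal_ofReal (abs_nonneg _),
    ← h3 k, add_assoc]

theorem comp_mem_of_dyadic (ψ : Circle ≃ₜ Circle)
    (hD : ∃ C : NNReal, ∀ y : ℝ, ∃ c : ℕ → ℝ,
      ∑' k, (ENNReal.ofReal |c (k + 1) - c k| + dyadicVar ψ.symm y (c k) k) ≤ C) :
    ∀ u ∈ ReA, u ∘ ψ ∈ ReA := by
  obtain ⟨Φ, hΦ, h1, h2⟩ := reduce ψ
  exact h2.2 (presL_of_DC hΦ (DC_of_dyadic h1 hD))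

end Pool.Agent.Work.MP_af796d_an
end
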